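import Pool.Agent.TH220.BrannanB

set_option autoImplicit false

/-!
The coefficient inequality for exponents in `(0, 1)` and odd index.
-/

namespace Pool.Agent.TH220.Brannan

open Finset MeasureTheory Filter Topology

lemma norm_one_add_mul_ge {x : ℂ} (hx : ‖x‖ = 1) (s : ℝ) :
    (1 + s) * (‖1 + x‖ / 2) ≤ ‖1 + (s : ℂ) * x‖ := by
  have hsq : x.re ^ 2 + x.im ^ 2 = 1 := by
    have := Complex.sq_norm x
    rw [hx, Complex.normSq_apply] at this
    nlinarith
  have hre : x.re ≤ 1 := by rw [← hx]; exact Complex.re_le_norm x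
  have e1 : ‖1 + x‖ ^ 2 = 2 + 2 * x.re := by
    rw [Complex.sq_norm, Complex.normSq_apply]
    simp only [Complex.add_re, Complex.one_re, Complex.add_im, Complex.one_im, zero_add]
    nlinarith
  have e2 : ‖1 + (s : ℂ) * x‖ ^ 2 = 1 + 2 * s * x.re + s ^ 2 := by
    rw [Complex.sq_norm, Complex.normSq_apply]
    simp only [Complex.add_re, Complex.one_re, Complex.add_im, Complex.one_im, zero_add,
      Complex.mul_re, Complex.ofReal_re, Complex.ofReal_im, zero_mul, sub_zero, Complex.mul_im,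
      add_zero]
    nlinarith
  apply le_of_sq_le_sq _ (norm_nonneg _)
  rw [e2, mul_pow, div_pow, e1]
  nlinarith [mul_nonneg (sq_nonneg (1 - s)) (sub_nonneg.2 hre)]

/-- the real integral appearing in the remainder -/
noncomputable def I (g : ℝ) (m : ℕ) (r : ℝ) : ℝ :=
  ∫ t in Set.Ioc (0 : ℝ) 1, w g t * (r ^ (m + 1) * t ^ m / (1 + t * r))

lemma I_integrable {g : ℝ} (hg0 : 0 < g) (hg1 : g < 1) (m : ℕ) {r : ℝ} (hr0 : 0 ≤ r) (hr1 : r < 1) :
    IntegrableOn (fun t => w g t * (r ^ (m + 1) * t ^ m / (1 + t * r))) (Set.Ioc 0 1) volume := by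
  refine (w_integrable hg0 hg1).mul_bdd (c := 1) ?_ ?_
  · refine AEMeasurable.aestronglyMeasurable ?_
    exact (by fun_prop : Measurable fun t : ℝ => r ^ (m + 1) * t ^ m / (1 + t * r)).aemeasurable
  · rw [ae_restrict_iff' measurableSet_Ioc]
    refine Eventually.of_forall fun t ht => ?_
    have h1 : 0 ≤ t * r := mul_nonneg ht.1.le hr0
    have h2 : 0 ≤ r ^ (m + 1) * t ^ m := mul_nonneg (pow_nonneg hr0 _) (pow_nonneg ht.1.le _)
    rw [Real.norm_eq_abs, abs_of_nonneg (div_nonneg h2 (by linarith)), div_le_one (by linarith)]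
    have h3 : r ^ (m + 1) ≤ 1 := pow_le_one₀ hr0 hr1.le
    have h4 : t ^ m ≤ 1 := pow_le_one₀ ht.1.le ht.2
    have h5 : r ^ (m + 1) * t ^ m ≤ 1 * 1 := mul_le_mul h3 h4 (pow_nonneg ht.1.le _) zero_le_one
    linarith

lemma I_nonneg {g : ℝ} (hg0 : 0 < g) (hg1 : g < 1) (m : ℕ) {r : ℝ} (hr0 : 0 ≤ r) :
    0 ≤ I g m r := by
  refine setIntegral_nonneg measurableSet_Ioc fun t ht => ?_
  have h1 : 0 ≤ t * r := mul_nonneg ht.1.le hr0
  have h2 : 0 ≤ r ^ (m + 1) * t ^ m := mul_nonneg (pow_nonneg hr0 _) (pow_nonneg ht.1.le _)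
  exact mul_nonneg (w_nonneg hg0 hg1 ht.1.le ht.2) (div_nonneg h2 (by linarith))

lemma I_le {g : ℝ} (hg0 : 0 < g) (hg1 : g < 1) (m : ℕ) {r : ℝ} (hr0 : 0 ≤ r) (hr1 : r < 1) :
    I g m r ≤ g / (m + 1) * tp g m := by
  rw [← w_moment hg0 hg1 m]
  refine setIntegral_mono_on (I_integrable hg0 hg1 m hr0 hr1) ?_ measurableSet_Ioc ?_
  · refine (w_integrable hg0 hg1).mul_bdd (c := 1) ?_ ?_
    · exact (by fun_prop : Continuous fun t : ℝ => t ^ m).aestronglyMeasurable
    · rw [ae_restrict_iff' measurableSet_Ioc]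
      refine Eventually.of_forall fun t ht => ?_
      rw [norm_pow, Real.norm_eq_abs, abs_of_pos ht.1]
      exact pow_le_one₀ ht.1.le ht.2
  · intro t ht
    refine mul_le_mul_of_nonneg_left ?_ (w_nonneg hg0 hg1 ht.1.le ht.2)
    have h1 : 0 ≤ t * r := mul_nonneg ht.1.le hr0
    rw [div_le_iff₀ (by linarith)]
    have h3 : r ^ (m + 1) ≤ 1 := pow_le_one₀ hr0 hr1.le
    have h4 : 0 ≤ t ^ m := pow_nonneg ht.1.le _
    nlinarith [mul_nonneg h4 h1]

/-- real partial sum -/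
noncomputable def psr (a : ℝ) (m : ℕ) (r : ℝ) : ℝ := ∑ k ∈ range (m + 1), bn a k * r ^ k

lemma ps_ofReal (a : ℝ) (m : ℕ) (r : ℝ) : ps a m (r : ℂ) = (psr a m r : ℂ) := by
  unfold ps psr; push_cast; rfl

lemma psr_eq {g : ℝ} (hg0 : 0 < g) (hg1 : g < 1) {m : ℕ} (hm : Odd m) {r : ℝ} (hr0 : 0 ≤ r)
    (hr1 : r < 1) : psr g m r = (1 + r) ^ g + I g m r := by
  have h := remainder hg0 hg1 m (z := (r : ℂ)) (by
    rw [Complex.norm_real, Real.norm_eq_abs, abs_of_nonneg hr0]; exact hr1)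
  have h1 : ∫ t in Set.Ioc (0 : ℝ) 1, (w g t : ℂ) *
      ((r : ℂ) * (-((t : ℂ) * (r : ℂ))) ^ m / (1 + (t : ℂ) * (r : ℂ))) = ((-I g m r : ℝ) : ℂ) := by
    unfold I
    rw [← integral_neg, ← integral_complex_ofReal]
    congr 1
    funext t
    push_cast
    rw [hm.neg_pow, mul_pow]
    ring
  rw [h1, ps_ofReal] at h
  have h2 : (1 + (r : ℂ)) ^ (g : ℂ) = (((1 + r) ^ g : ℝ) : ℂ) := by
    rw [Complex.ofReal_cpow (by linarith)]; push_cast; rfl
  rw [h2] at h
  have h3 : (1 + r) ^ g - psr g m r = -I g m r := by exact_mod_cast h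
  linarith

lemma norm_ps_le {g : ℝ} (hg0 : 0 < g) (hg1 : g < 1) {m : ℕ} (hm : Odd m) {x : ℂ} (hx : ‖x‖ = 1)
    (hc : 0 < ‖1 + x‖ / 2) {r : ℝ} (hr0 : 0 ≤ r) (hr1 : r < 1) :
    ‖ps g m ((r : ℂ) * x)‖ ≤ ‖1 + (r : ℂ) * x‖ ^ g +
      (psr g m r - (1 + r) ^ g) / (‖1 + x‖ / 2) := by
  set c := ‖1 + x‖ / 2 with hcdef
  have hz : ‖(r : ℂ) * x‖ = r := by
    rw [norm_mul, hx, mul_one, Complex.norm_real, Real.norm_eq_abs, abs_of_nonneg hr0]
  have h := remainder hg0 hg1 m (z := (r : ℂ) * x) (by rw [hz]; exact hr1)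
  have h1 : ps g m ((r : ℂ) * x) = (1 + (r : ℂ) * x) ^ (g : ℂ) -
      ∫ t in Set.Ioc (0 : ℝ) 1, (w g t : ℂ) *
        ((r : ℂ) * x * (-((t : ℂ) * ((r : ℂ) * x))) ^ m / (1 + (t : ℂ) * ((r : ℂ) * x))) := by
    rw [← h]; ring
  have h2 : ‖∫ t in Set.Ioc (0 : ℝ) 1, (w g t : ℂ) *
        ((r : ℂ) * x * (-((t : ℂ) * ((r : ℂ) * x))) ^ m / (1 + (t : ℂ) * ((r : ℂ) * x)))‖ ≤
      ∫ t in Set.Ioc (0 : ℝ) 1, w g t * (r ^ (m + 1) * t ^ m / (1 + t * r)) * c⁻¹ := by
    refine norm_integral_le_of_norm_le ((I_integrable hg0 hg1 m hr0 hr1).mul_const _) ?_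
    rw [ae_restrict_iff' measurableSet_Ioc]
    refine Eventually.of_forall fun t ht => ?_
    have hw := w_nonneg hg0 hg1 ht.1.le ht.2
    have htr0 : 0 ≤ t * r := mul_nonneg ht.1.le hr0
    have htr1 : t * r ≤ 1 := by nlinarith [ht.1, ht.2]
    have hge := norm_one_add_mul_ge hx (t * r)
    rw [← hcdef] at hge
    have e1 : (1 : ℂ) + (t : ℂ) * ((r : ℂ) * x) = 1 + ((t * r : ℝ) : ℂ) * x := by push_cast; ring
    rw [norm_mul, Complex.norm_real, Real.norm_eq_abs, abs_of_nonneg hw, norm_div, norm_mul, hz,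
      norm_pow, norm_neg, norm_mul, hz, Complex.norm_real, Real.norm_eq_abs, abs_of_pos ht.1, e1,
      mul_assoc]
    refine mul_le_mul_of_nonneg_left ?_ hw
    have hden : 0 < (1 + t * r) * c := mul_pos (by linarith) hc
    have hnum : 0 ≤ r * (t * r) ^ m := mul_nonneg hr0 (pow_nonneg htr0 _)
    calc r * (t * r) ^ m / ‖1 + ((t * r : ℝ) : ℂ) * x‖ ≤ r * (t * r) ^ m / ((1 + t * r) * c) :=
          div_le_div_of_nonneg_left hnum hden hge
      _ = r ^ (m + 1) * t ^ m / (1 + t * r) * c⁻¹ := by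
          rw [mul_pow]; field_simp; ring
  rw [integral_mul_const] at h2
  have h3 : psr g m r - (1 + r) ^ g = I g m r := by rw [psr_eq hg0 hg1 hm hr0 hr1]; ring
  rw [h1, h3, div_eq_mul_inv]
  refine (norm_sub_le _ _).trans (add_le_add (le_of_eq ?_) h2)
  exact Complex.norm_cpow_real _ _

lemma psr_continuous (a : ℝ) (m : ℕ) : Continuous (psr a m) := by
  unfold psr; fun_prop

lemma psr_one (a : ℝ) (m : ℕ) : psr a m 1 = ps1 a m := by simp [psr, ps1]

lemma ps_continuous (a : ℝ) (m : ℕ) : Continuous (ps a m) := by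
  unfold ps; fun_prop

/-- The main bound away from `x = -1`. -/
lemma star {g : ℝ} (hg0 : 0 < g) (hg1 : g < 1) {m : ℕ} (hm : Odd m) {x : ℂ} (hx : ‖x‖ = 1)
    (hc : 0 < ‖1 + x‖ / 2) :
    ‖ps g m x‖ ≤ ‖1 + x‖ ^ g + (ps1 g m - 2 ^ g) / (‖1 + x‖ / 2) := by
  have hcont1 : Continuous fun r : ℝ => ‖ps g m ((r : ℂ) * x)‖ := by
    have := ps_continuous g m
    fun_prop
  have hcont2 : Continuous fun r : ℝ => ‖1 + (r : ℂ) * x‖ ^ g +
      (psr g m r - (1 + r) ^ g) / (‖1 + x‖ / 2) := by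
    have h1 : Continuous fun r : ℝ => ‖1 + (r : ℂ) * x‖ ^ g := by
      refine Continuous.rpow_const (by fun_prop) fun _ => Or.inr hg0.le
    have h2 : Continuous fun r : ℝ => (1 + r) ^ g := by
      refine Continuous.rpow_const (by fun_prop) fun _ => Or.inr hg0.le
    exact h1.add (((psr_continuous g m).sub h2).div_const _)
  have t1 := (hcont1.tendsto 1).mono_left (nhdsWithin_le_nhds (s := Set.Iio 1))
  have t2 := (hcont2.tendsto 1).mono_left (nhdsWithin_le_nhds (s := Set.Iio 1))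
  have hev : ∀ᶠ r : ℝ in 𝓝[<] 1, 0 ≤ r ∧ r < 1 := by
    filter_upwards [Ioo_mem_nhdsLT (show (0 : ℝ) < 1 by norm_num)] with r hr
    exact ⟨hr.1.le, hr.2⟩
  have := le_of_tendsto_of_tendsto t1 t2 (by
    filter_upwards [hev] with r hr
    exact norm_ps_le hg0 hg1 hm hx hc hr.1 hr.2)
  simp only [Complex.ofReal_one, one_mul, psr_one] at this
  rwa [show (1 : ℝ) + 1 = 2 by norm_num] at this

lemma ps1_bounds {g : ℝ} (hg0 : 0 < g) (hg1 : g < 1) {m : ℕ} (hm : Odd m) :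
    0 ≤ ps1 g m - 2 ^ g ∧ ps1 g m - 2 ^ g ≤ g / (m + 1) * tp g m := by
  have hcont2 : Continuous fun r : ℝ => psr g m r - (1 + r) ^ g := by
    have h2 : Continuous fun r : ℝ => (1 + r) ^ g := by
      refine Continuous.rpow_const (by fun_prop) fun _ => Or.inr hg0.le
    exact (psr_continuous g m).sub h2
  have t2 := (hcont2.tendsto 1).mono_left (nhdsWithin_le_nhds (s := Set.Iio 1))
  rw [psr_one, show (1 : ℝ) + 1 = 2 by norm_num] at t2
  have hev : ∀ᶠ r : ℝ in 𝓝[<] 1, 0 ≤ r ∧ r < 1 := by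
    filter_upwards [Ioo_mem_nhdsLT (show (0 : ℝ) < 1 by norm_num)] with r hr
    exact ⟨hr.1.le, hr.2⟩
  constructor
  · refine ge_of_tendsto t2 ?_
    filter_upwards [hev] with r hr
    rw [psr_eq hg0 hg1 hm hr.1 hr.2, add_sub_cancel_left]
    exact I_nonneg hg0 hg1 m hr.1
  · refine le_of_tendsto t2 ?_
    filter_upwards [hev] with r hr
    rw [psr_eq hg0 hg1 hm hr.1 hr.2, add_sub_cancel_left]
    exact I_le hg0 hg1 m hr.1 hr.2

lemma pow_sub_le {x : ℂ} (hx : ‖x‖ = 1) (k : ℕ) : ‖x ^ k - (-1) ^ k‖ ≤ k * ‖1 + x‖ := by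
  induction k with
  | zero => simp
  | succ k ih =>
    have e : x ^ (k + 1) - (-1) ^ (k + 1) = x * (x ^ k - (-1) ^ k) + (-1) ^ k * (1 + x) := by ring
    rw [e]
    refine (norm_add_le _ _).trans ?_
    rw [norm_mul, norm_mul, hx, one_mul, norm_pow, norm_neg, norm_one, one_pow, one_mul]
    push_cast
    linarith

lemma near {g : ℝ} (hg0 : 0 < g) (hg1 : g < 1) {x : ℂ} (hx : ‖x‖ = 1) (m : ℕ) :
    ‖ps g m x - tp g m‖ ≤ ‖1 + x‖ * (g * (m * tp g m / (1 - g))) := by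
  induction m with
  | zero => simp [ps_zero, tp_zero]
  | succ m ih =>
    have hb : (tp g (m + 1) : ℂ) = (tp g m : ℂ) + (bn g (m + 1) : ℂ) * (-1) ^ (m + 1) := by
      have h1 : tp g (m + 1) = tp g m + bn g (m + 1) * (-1) ^ (m + 1) := by
        have h2 := tp_sub g m
        rw [bn_succ_eq]
        have h3 : ((-1 : ℝ)) ^ m * (g / (m + 1) * tp g m) * (-1) ^ (m + 1) =
            -(g / (m + 1) * tp g m) := by
          rw [pow_succ]
          have : ((-1 : ℝ)) ^ m * (-1) ^ m = 1 := by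
            rw [← mul_pow]; simp
          linear_combination (-(g / (m + 1) * tp g m)) * this
        rw [h3]; linarith
      rw [h1]; push_cast; rfl
    have e : ps g (m + 1) x - (tp g (m + 1) : ℂ) =
        (ps g m x - tp g m) + (bn g (m + 1) : ℂ) * (x ^ (m + 1) - (-1) ^ (m + 1)) := by
      rw [ps_succ, hb]; ring
    rw [e]
    refine (norm_add_le _ _).trans ?_
    have h4 : ‖(bn g (m + 1) : ℂ) * (x ^ (m + 1) - (-1) ^ (m + 1))‖ ≤
        ‖1 + x‖ * (g * tp g m) := by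
      rw [norm_mul, Complex.norm_real, Real.norm_eq_abs, bn_succ_eq, abs_mul, abs_pow, abs_neg,
        abs_one, one_pow, one_mul,
        abs_of_nonneg (mul_nonneg (by positivity) (tp_nonneg hg1.le m))]
      have h5 := pow_sub_le hx (m + 1)
      have h6 : 0 ≤ g / (m + 1) * tp g m := mul_nonneg (by positivity) (tp_nonneg hg1.le m)
      refine (mul_le_mul_of_nonneg_left h5 h6).trans (le_of_eq ?_)
      push_cast
      have : (m : ℝ) + 1 ≠ 0 := by positivity
      field_simp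
    refine (add_le_add ih h4).trans (le_of_eq ?_)
    rw [tp_succ]
    have h7 : (m : ℝ) + 1 ≠ 0 := by positivity
    have h8 : 1 - g ≠ 0 := by linarith
    push_cast
    field_simp
    ring

lemma tp_pos {g : ℝ} (hg1 : g < 1) (m : ℕ) : 0 < tp g m := by
  unfold tp
  refine prod_pos fun j _ => ?_
  rw [sub_pos, div_lt_one (by positivity)]
  have : (0 : ℝ) ≤ j := Nat.cast_nonneg j
  linarith

lemma tp_le_two {g : ℝ} (hg0 : 0 < g) (hg1 : g < 1) {m : ℕ} (hm : 2 ≤ m) :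
    tp g m ≤ (1 - g) * (1 - g / 2) := by
  induction m, hm using Nat.le_induction with
  | base =>
    have e1 : tp g 1 = 1 - g := by
      have := tp_succ g 0
      rw [tp_zero] at this
      simpa using this
    have e2 : tp g 2 = (1 - g) * (1 - g / 2) := by
      have := tp_succ g 1
      rw [e1] at this
      rw [show (2 : ℕ) = 1 + 1 from rfl, this]
      push_cast
      norm_num
    exact e2.le
  | succ m _ ih => exact (tp_anti hg0.le hg1.le m).trans ih

/-- Brannan's inequality for exponents in `(0, 1)` and odd index at least three. -/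
theorem lt_one {g : ℝ} (hg0 : 0 < g) (hg1 : g < 1) {m : ℕ} (hm : Odd m) (hm3 : 3 ≤ m) {x : ℂ}
    (hx : ‖x‖ = 1) : ‖ps g m x‖ ≤ ps1 g m := by
  obtain ⟨hS0, hS1⟩ := ps1_bounds hg0 hg1 hm
  have htp := tp_pos hg1 m
  have hm1 : (0 : ℝ) < (m : ℝ) + 1 := by positivity
  have h2g : 1 + g / 2 ≤ (2 : ℝ) ^ g := by
    rw [Real.rpow_def_of_pos (by norm_num)]
    have h1 := Real.add_one_le_exp (Real.log 2 * g)
    have h2 := Real.log_two_gt_d9
    nlinarith
  have h2pos : (0 : ℝ) < 2 ^ g := by linarith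
  have hcle : ‖1 + x‖ / 2 ≤ 1 := by
    have := norm_add_le (1 : ℂ) x
    rw [norm_one, hx] at this
    linarith
  by_cases hc : tp g m / ((m + 1) * 2 ^ g) ≤ ‖1 + x‖ / 2
  · -- away from `-1`
    have hcpos : 0 < ‖1 + x‖ / 2 := lt_of_lt_of_le (by positivity) hc
    refine (star hg0 hg1 hm hx hcpos).trans ?_
    set c := ‖1 + x‖ / 2 with hcdef
    set S := ps1 g m - 2 ^ g with hS
    have e1 : ‖1 + x‖ = 2 * c := by rw [hcdef]; ring
    have h3 : ‖1 + x‖ ^ g ≤ 2 ^ g * (1 - g * (1 - c)) := by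
      rw [e1, Real.mul_rpow (by norm_num) hcpos.le]
      refine mul_le_mul_of_nonneg_left ?_ h2pos.le
      have := rpow_one_add_le_one_add_mul_self (s := c - 1) (by linarith) hg0.le hg1.le
      rw [show 1 + (c - 1) = c by ring] at this
      linarith
    have h4 : S ≤ 2 ^ g * g * c := by
      refine hS1.trans ?_
      rw [div_le_iff₀ (by positivity)] at hc
      rw [div_mul_eq_mul_div, div_le_iff₀ hm1]
      nlinarith [mul_le_mul_of_nonneg_left hc hg0.le]
    have h5 : S / c ≤ S + 2 ^ g * g * (1 - c) := by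
      rw [div_le_iff₀ hcpos]
      nlinarith [mul_le_mul_of_nonneg_right h4 (sub_nonneg.2 hcle)]
    have h6 : ps1 g m = S + 2 ^ g := by rw [hS]; ring
    rw [h6]
    linarith
  · -- near `-1`
    push Not at hc
    have h1 := near hg0 hg1 hx m
    have h2 : ‖ps g m x‖ ≤ tp g m + ‖1 + x‖ * (g * (m * tp g m / (1 - g))) := by
      have h3 : ps g m x = (tp g m : ℂ) + (ps g m x - tp g m) := by ring
      rw [h3]
      refine (norm_add_le _ _).trans (add_le_add (le_of_eq ?_) h1)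
      rw [Complex.norm_real, Real.norm_eq_abs, abs_of_pos htp]
    have h4 : ‖1 + x‖ ≤ 2 * (tp g m / (m + 1)) := by
      have h5 : tp g m / ((m + 1) * 2 ^ g) ≤ tp g m / (m + 1) := by
        apply div_le_div_of_nonneg_left htp.le hm1
        nlinarith
      linarith
    have h1g : 0 < 1 - g := by linarith
    have htp2 := tp_le_two hg0 hg1 (m := m) (by omega)
    have h6 : ‖1 + x‖ * (g * (m * tp g m / (1 - g))) ≤ 2 * g * tp g m := by
      have h7 : 0 ≤ g * (m * tp g m / (1 - g)) := by positivity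
      refine (mul_le_mul_of_nonneg_right h4 h7).trans ?_
      have h8 : 2 * (tp g m / (m + 1)) * (g * (m * tp g m / (1 - g))) =
          2 * g * tp g m * ((m / (m + 1)) * (tp g m / (1 - g))) := by
        field_simp
      rw [h8]
      have h9 : (m : ℝ) / (m + 1) ≤ 1 := by rw [div_le_one hm1]; linarith
      have h10 : tp g m / (1 - g) ≤ 1 := by
        rw [div_le_one h1g]
        nlinarith
      have h11 : (m : ℝ) / (m + 1) * (tp g m / (1 - g)) ≤ 1 * 1 :=
        mul_le_mul h9 h10 (by positivity) zero_le_one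
      have h12 : 0 ≤ 2 * g * tp g m := by positivity
      nlinarith
    have h13 : tp g m * (1 + 2 * g) ≤ 1 + g / 2 := by
      have h14 : (1 - g) * (1 - g / 2) * (1 + 2 * g) ≤ 1 + g / 2 := by
        nlinarith [mul_pos hg0 hg0, mul_pos (mul_pos hg0 hg0) h1g]
      have h15 : (0 : ℝ) < 1 + 2 * g := by linarith
      exact (mul_le_mul_of_nonneg_right htp2 h15.le).trans h14
    linarith

end Pool.Agent.TH220.Brannan
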