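import Pool.Agent.TH220.BergG

set_option autoImplicit false

/-!
The triangle.
-/

namespace Pool.Agent.TH220.Berg

open MeasureTheory

/-- primitive cube root of unity -/
noncomputable def om : ℂ := ⟨-1 / 2, Real.sqrt 3 / 2⟩

lemma om_re : om.re = -1 / 2 := rfl
lemma om_im : om.im = Real.sqrt 3 / 2 := rfl

lemma sq3 : Real.sqrt 3 * Real.sqrt 3 = 3 := Real.mul_self_sqrt (by norm_num)
lemma sq3pos : 0 < Real.sqrt 3 := Real.sqrt_pos.2 (by norm_num)

lemma om_sq : om ^ 2 = ⟨-1 / 2, -(Real.sqrt 3 / 2)⟩ := by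
  have h := sq3
  apply Complex.ext
  · rw [pow_two, Complex.mul_re, om_re, om_im]
    show -1 / 2 * (-1 / 2) - Real.sqrt 3 / 2 * (Real.sqrt 3 / 2) = -1 / 2
    linarith
  · rw [pow_two, Complex.mul_im, om_re, om_im]
    show -1 / 2 * (Real.sqrt 3 / 2) + Real.sqrt 3 / 2 * (-1 / 2) = -(Real.sqrt 3 / 2)
    ring

lemma om_cube : om ^ 3 = 1 := by
  have h := sq3
  have e : om ^ 3 = om ^ 2 * om := by ring
  rw [e, om_sq]
  apply Complex.ext
  · rw [Complex.mul_re, om_re, om_im, Complex.one_re]
    show -1 / 2 * (-1 / 2) - -(Real.sqrt 3 / 2) * (Real.sqrt 3 / 2) = 1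
    linarith
  · rw [Complex.mul_im, om_re, om_im, Complex.one_im]
    show -1 / 2 * (Real.sqrt 3 / 2) + -(Real.sqrt 3 / 2) * (-1 / 2) = 0
    ring

lemma om_im_ne : om.im ≠ 0 := by
  rw [om_im]; exact (div_pos sq3pos two_pos).ne'

lemma om_norm : ‖om‖ = 1 := by
  have h : ‖om‖ ^ 3 = 1 := by rw [← norm_pow, om_cube, norm_one]
  exact (pow_eq_one_iff_of_nonneg (norm_nonneg _) (by norm_num)).1 h

lemma mem_S0_om (w : ℂ) : w ∈ S0 om ↔ 0 ≤ Real.sqrt 3 * w.re + w.im ∧ 0 < w.im := by
  have h := sq3
  have hp := sq3pos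
  rw [S0_eq _ om_im_ne, om_re, om_im]
  have e1 : w.re - w.im / (Real.sqrt 3 / 2) * (-1 / 2) = (Real.sqrt 3 * w.re + w.im) / Real.sqrt 3 := by
    field_simp
    ring
  constructor
  · rintro ⟨h1, h2⟩
    have h1' : 0 ≤ w.re - w.im / (Real.sqrt 3 / 2) * (-1 / 2) := h1
    have h2' : 0 < w.im / (Real.sqrt 3 / 2) := h2
    rw [e1] at h1'
    constructor
    · by_contra hcon
      push Not at hcon
      have := div_neg_of_neg_of_pos hcon hp
      linarith
    · by_contra hcon
      push Not at hcon
      have := div_nonpos_of_nonpos_of_nonneg hcon (by positivity : 0 ≤ Real.sqrt 3 / 2)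
      linarith
  · rintro ⟨h1, h2⟩
    constructor
    · show 0 ≤ w.re - w.im / (Real.sqrt 3 / 2) * (-1 / 2)
      rw [e1]
      positivity
    · show 0 < w.im / (Real.sqrt 3 / 2)
      positivity

lemma geo3 : Geo om 3 (KN 3) where
  hN := by norm_num
  him := om_im_ne
  hnorm := om_norm
  hK := KN_compact (by norm_num)
  hconv := convex_convexHull _ _
  hrot := KN_rot (by norm_num) om_cube
  hpart := by
    intro z hz
    have h3 := sq3
    have hp := sq3pos
    set u : ℝ := Real.sqrt 3 * z.re with hu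
    set y : ℝ := z.im with hy
    have h0 : (om ^ 0 * z ∈ S0 om ↔ 0 ≤ u + y ∧ 0 < y) := by
      rw [mem_S0_om]; simp [hu, hy]
    have h1 : (om ^ 1 * z ∈ S0 om ↔ y ≤ 0 ∧ 0 < u - y) := by
      rw [mem_S0_om, pow_one, Complex.mul_re, Complex.mul_im, om_re, om_im]
      have e1 : Real.sqrt 3 * (-1 / 2 * z.re - Real.sqrt 3 / 2 * z.im) +
          (-1 / 2 * z.im + Real.sqrt 3 / 2 * z.re) = -2 * y := by
        rw [hy]; linear_combination (-z.im / 2) * h3
      have e2 : -1 / 2 * z.im + Real.sqrt 3 / 2 * z.re = (u - y) / 2 := by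
        rw [hu, hy]; ring
      rw [e1, e2]
      constructor
      · rintro ⟨a, b⟩; exact ⟨by linarith, by linarith⟩
      · rintro ⟨a, b⟩; exact ⟨by linarith, by linarith⟩
    have h2 : (om ^ 2 * z ∈ S0 om ↔ 0 ≤ y - u ∧ 0 < -u - y) := by
      rw [mem_S0_om, om_sq, Complex.mul_re, Complex.mul_im]
      have e1 : Real.sqrt 3 * (-1 / 2 * z.re - -(Real.sqrt 3 / 2) * z.im) +
          (-1 / 2 * z.im + -(Real.sqrt 3 / 2) * z.re) = y - u := by
        rw [hy, hu]; linear_combination (z.im / 2) * h3
      have e2 : -1 / 2 * z.im + -(Real.sqrt 3 / 2) * z.re = (-u - y) / 2 := by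
        rw [hu, hy]; ring
      rw [e1, e2]
      constructor
      · rintro ⟨a, b⟩; exact ⟨by linarith, by linarith⟩
      · rintro ⟨a, b⟩; exact ⟨by linarith, by linarith⟩
    have hne : u ≠ 0 ∨ y ≠ 0 := by
      by_contra hcon
      push Not at hcon
      have hre : z.re = 0 := by
        rcases mul_eq_zero.1 (hu.symm.trans hcon.1) with h | h
        · exact absurd h hp.ne'
        · exact h
      exact hz (Complex.ext hre hcon.2)
    have fin : ∀ s0 : ℕ, s0 < 3 →
        ((s0 = 0 ∧ 0 ≤ u + y ∧ 0 < y) ∨ (s0 = 1 ∧ y ≤ 0 ∧ 0 < u - y) ∨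
          (s0 = 2 ∧ 0 ≤ y - u ∧ 0 < -u - y)) →
        ∃ s, s < 3 ∧ ∀ s', s' < 3 → (om ^ s' * z ∈ S0 om ↔ s' = s) := by
      intro s0 hs0 hcase
      refine ⟨s0, hs0, fun s hs => ?_⟩
      rcases hcase with ⟨e, a, b⟩ | ⟨e, a, b⟩ | ⟨e, a, b⟩
      · subst e
        interval_cases s
        · rw [h0]; exact ⟨fun _ => rfl, fun _ => ⟨a, b⟩⟩
        · rw [h1]; exact ⟨fun h => by linarith [h.1], fun h => by omega⟩
        · rw [h2]; exact ⟨fun h => by linarith [h.2], fun h => by omega⟩
      · subst e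
        interval_cases s
        · rw [h0]; exact ⟨fun h => by linarith [h.2], fun h => by omega⟩
        · rw [h1]; exact ⟨fun _ => rfl, fun _ => ⟨a, b⟩⟩
        · rw [h2]; exact ⟨fun h => by linarith [h.1], fun h => by omega⟩
      · subst e
        interval_cases s
        · rw [h0]; exact ⟨fun h => by linarith [h.1], fun h => by omega⟩
        · rw [h1]; exact ⟨fun h => by linarith [h.2], fun h => by omega⟩
        · rw [h2]; exact ⟨fun _ => rfl, fun _ => ⟨a, b⟩⟩
    rcases lt_or_ge 0 y with hy0 | hy0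
    · rcases lt_or_ge (u + y) 0 with h | h
      · exact fin 2 (by norm_num) (Or.inr (Or.inr ⟨rfl, by linarith, by linarith⟩))
      · exact fin 0 (by norm_num) (Or.inl ⟨rfl, h, hy0⟩)
    · rcases lt_or_ge 0 (u - y) with h | h
      · exact fin 1 (by norm_num) (Or.inr (Or.inl ⟨rfl, hy0, h⟩))
      · refine fin 2 (by norm_num) (Or.inr (Or.inr ⟨rfl, by linarith, ?_⟩))
        rcases eq_or_lt_of_le hy0 with h' | h'
        · rcases hne with h'' | h''
          · have : u < 0 := lt_of_le_of_ne (by linarith) h''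
            linarith
          · exact absurd h' h''
        · linarith
  hsec := by
    intro a b ha hb
    have h3 := sq3
    have hp := sq3pos
    constructor
    · intro h
      have h1 := KN_half (N := 3) 1 (Real.sqrt 3) (fun w hw => by
        have h2 : (w - 1) * (w - om) * (w - om ^ 2) = 0 := by
          have h4 : om + om ^ 2 = -1 := by
            apply Complex.ext
            · rw [Complex.add_re, om_sq, om_re, Complex.neg_re, Complex.one_re]; norm_num
            · rw [Complex.add_im, om_sq, om_im, Complex.neg_im, Complex.one_im]; ring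
          have : (w - 1) * (w - om) * (w - om ^ 2) =
              (w - 1) * (w ^ 2 - (om + om ^ 2) * w + om ^ 3) := by ring
          rw [this, h4, om_cube]
          have h5 : (w - 1) * (w ^ 2 - -1 * w + 1) = w ^ 3 - 1 := by ring
          rw [h5, hw, sub_self]
        rcases mul_eq_zero.1 h2 with h2 | h2
        · rcases mul_eq_zero.1 h2 with h2 | h2
          · have : w = 1 := sub_eq_zero.1 h2
            rw [this]; simp
          · have : w = om := sub_eq_zero.1 h2
            rw [this, om_re, om_im]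
            nlinarith
        · have : w = om ^ 2 := sub_eq_zero.1 h2
          rw [this, om_sq]
          show 1 * (-1 / 2) + Real.sqrt 3 * (-(Real.sqrt 3 / 2)) ≤ 1
          nlinarith) h
      have e1 : ((a : ℂ) + b * om).re = a + b * (-1 / 2) := by
        rw [Complex.add_re, Complex.ofReal_re, Complex.re_ofReal_mul, om_re]
      have e2 : ((a : ℂ) + b * om).im = b * (Real.sqrt 3 / 2) := by
        rw [Complex.add_im, Complex.ofReal_im, Complex.im_ofReal_mul, om_im, zero_add]
      rw [e1, e2] at h1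
      have e3 : Real.sqrt 3 * (b * (Real.sqrt 3 / 2)) = b * (3 / 2) := by
        linear_combination (b / 2) * h3
      rw [e3] at h1
      linarith
    · intro h
      exact KN_sec1 (by norm_num) om_cube om_im_ne a b ha hb.le h

lemma good3 : Good om 3 where
  hN := by norm_num
  hω := om_cube
  hc := by
    rw [mul_comm, Complex.mul_conj, Complex.normSq_eq_norm_sq, om_norm]; simp
  him := by
    have : ({0} : Finset ℕ) ⊆ (Finset.range 3).filter fun a => (om ^ a).im = 0 := by
      intro a ha
      rw [Finset.mem_singleton] at ha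
      rw [Finset.mem_filter, Finset.mem_range, ha]
      simp
    exact Finset.card_le_card this
  hpos := by
    intro r h1 h2 s hs0 hs1
    rw [g_eval]
    have h3 := sq3
    have hp := sq3pos
    have hsq : om ^ 2 = -1 - om := by
      apply Complex.ext
      · rw [om_sq, Complex.sub_re, Complex.neg_re, Complex.one_re, om_re]; norm_num
      · rw [om_sq, Complex.sub_im, Complex.neg_im, Complex.one_im, om_im]; ring
    interval_cases r
    · have e : (om ^ 0 * (1 + om * (s : ℂ)) ^ 1) = ((1 : ℝ) : ℂ) + (s : ℂ) * om := by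
        push_cast; ring
      rw [e, Complex.add_im, Complex.ofReal_im, Complex.im_ofReal_mul, om_im]
      positivity
    · have e : (om ^ 0 * (1 + om * (s : ℂ)) ^ 2) = ((1 - s ^ 2 : ℝ) : ℂ) + ((2 * s - s ^ 2 : ℝ) : ℂ) * om := by
        push_cast
        linear_combination (s : ℂ) ^ 2 * hsq
      rw [e, Complex.add_im, Complex.ofReal_im, Complex.im_ofReal_mul, om_im]
      have : 0 < s * (2 - s) := mul_pos hs0 (by linarith)
      have : 0 < (2 * s - s ^ 2) := by nlinarith
      positivity
    · have e : (om ^ 0 * (1 + om * (s : ℂ)) ^ 3) = ((1 - 3 * s ^ 2 + s ^ 3 : ℝ) : ℂ) +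
          ((3 * s - 3 * s ^ 2 : ℝ) : ℂ) * om := by
        push_cast
        linear_combination (3 * (s : ℂ) ^ 2) * hsq + (s : ℂ) ^ 3 * om_cube
      rw [e, Complex.add_im, Complex.ofReal_im, Complex.im_ofReal_mul, om_im]
      have : 0 < s * (1 - s) := mul_pos hs0 (by linarith)
      have : 0 < (3 * s - 3 * s ^ 2) := by nlinarith
      positivity

end Pool.Agent.TH220.Berg
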