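import Pool.Agent.TH220.BergE

set_option autoImplicit false

/-!
The double integral over the triangle as a one-dimensional integral.
-/

namespace Pool.Agent.TH220.Berg

open MeasureTheory Polynomial

lemma tri_bdd_integrable (G : ℝ × ℝ → ℂ) (hG : Continuous G) :
    Integrable (Tri.indicator G) ((volume : Measure ℝ).prod (volume : Measure ℝ)) := by
  have hsub : Tri ⊆ Set.Icc (0 : ℝ) 1 ×ˢ Set.Icc (0 : ℝ) 1 := by
    rintro p ⟨h1, h2, h3⟩
    exact ⟨⟨h1, by linarith⟩, ⟨h2.le, by linarith⟩⟩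
  have h1 : IntegrableOn G (Set.Icc (0 : ℝ) 1 ×ˢ Set.Icc (0 : ℝ) 1)
      ((volume : Measure ℝ).prod (volume : Measure ℝ)) :=
    hG.continuousOn.integrableOn_compact (isCompact_Icc.prod isCompact_Icc)
  rw [integrable_indicator_iff Tri_meas]
  exact h1.mono_set hsub

lemma tri_iter1 (G : ℝ × ℝ → ℂ) (hG : Continuous G) :
    ∫ p in Tri, G p = ∫ a in (0 : ℝ)..1, ∫ b in (0 : ℝ)..(1 - a), G (a, b) := by
  rw [← integral_indicator Tri_meas, Measure.volume_eq_prod,
    integral_prod _ (tri_bdd_integrable G hG), intervalIntegral.integral_of_le zero_le_one,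
    ← integral_Icc_eq_integral_Ioc, ← integral_indicator measurableSet_Icc]
  congr 1
  funext a
  by_cases ha : a ∈ Set.Icc (0 : ℝ) 1
  · rw [Set.indicator_of_mem ha, intervalIntegral.integral_of_le (by linarith [ha.2]),
      ← integral_indicator measurableSet_Ioc]
    congr 1
    funext b
    by_cases hb : b ∈ Set.Ioc (0 : ℝ) (1 - a)
    · rw [Set.indicator_of_mem hb, Set.indicator_of_mem]
      exact ⟨ha.1, hb.1, by show a + b ≤ 1; linarith [hb.2]⟩
    · rw [Set.indicator_of_notMem hb, Set.indicator_of_notMem]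
      rintro ⟨_, h2, h3⟩
      apply hb
      refine ⟨h2, ?_⟩
      have : a + b ≤ 1 := h3
      linarith
  · rw [Set.indicator_of_notMem ha]
    have : ∀ b : ℝ, Tri.indicator G (a, b) = 0 := by
      intro b
      rw [Set.indicator_of_notMem]
      rintro ⟨h1, h2, h3⟩
      have h1' : 0 ≤ a := h1
      have h2' : 0 < b := h2
      have h3' : a + b ≤ 1 := h3
      exact ha ⟨h1', by linarith⟩
    simp only [this, integral_zero]

lemma tri_iter2 (G : ℝ × ℝ → ℂ) (hG : Continuous G) :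
    ∫ p in Tri, G p = ∫ b in (0 : ℝ)..1, ∫ a in (0 : ℝ)..(1 - b), G (a, b) := by
  rw [← integral_indicator Tri_meas, Measure.volume_eq_prod,
    integral_prod_symm _ (tri_bdd_integrable G hG), intervalIntegral.integral_of_le zero_le_one,
    ← integral_indicator measurableSet_Ioc]
  congr 1
  funext b
  by_cases hb : b ∈ Set.Ioc (0 : ℝ) 1
  · rw [Set.indicator_of_mem hb, intervalIntegral.integral_of_le (by linarith [hb.2]),
      ← integral_Icc_eq_integral_Ioc, ← integral_indicator measurableSet_Icc]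
    congr 1
    funext a
    by_cases ha : a ∈ Set.Icc (0 : ℝ) (1 - b)
    · rw [Set.indicator_of_mem ha, Set.indicator_of_mem]
      exact ⟨ha.1, hb.1, by show a + b ≤ 1; linarith [ha.2]⟩
    · rw [Set.indicator_of_notMem ha, Set.indicator_of_notMem]
      rintro ⟨h1, _, h3⟩
      apply ha
      refine ⟨h1, ?_⟩
      have : a + b ≤ 1 := h3
      linarith
  · rw [Set.indicator_of_notMem hb]
    have : ∀ a : ℝ, Tri.indicator G (a, b) = 0 := by
      intro a
      rw [Set.indicator_of_notMem]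
      rintro ⟨h1, h2, h3⟩
      have h1' : 0 ≤ a := h1
      have h2' : 0 < b := h2
      have h3' : a + b ≤ 1 := h3
      exact hb ⟨h2', by linarith⟩
    simp only [this, integral_zero]

lemma exists_antideriv (Q : ℂ[X]) : ∃ A : ℂ[X], derivative A = Q := by
  induction Q using Polynomial.induction_on' with
  | add p q hp hq =>
    obtain ⟨A, hA⟩ := hp
    obtain ⟨B, hB⟩ := hq
    exact ⟨A + B, by rw [derivative_add, hA, hB]⟩
  | monomial n a =>
    refine ⟨monomial (n + 1) (a / (n + 1)), ?_⟩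
    rw [derivative_monomial]
    have h : (n : ℂ) + 1 ≠ 0 := Nat.cast_add_one_ne_zero n
    congr 1
    push_cast
    field_simp

/-- integral of a polynomial along a segment -/
lemma seg_integral (Q A : ℂ[X]) (hA : derivative A = Q) (u v : ℂ) :
    v * ∫ t in (0 : ℝ)..1, Q.eval (u + (t : ℂ) * v) = A.eval (u + v) - A.eval u := by
  have hd : ∀ t ∈ Set.uIcc (0 : ℝ) 1, HasDerivAt (fun t : ℝ => A.eval (u + (t : ℂ) * v))
      (v * Q.eval (u + (t : ℂ) * v)) t := by
    intro t _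
    have h1 : HasDerivAt (fun t : ℝ => u + (t : ℂ) * v) v t := by
      have h2 : HasDerivAt (fun t : ℝ => (t : ℂ)) 1 t := Complex.ofRealCLM.hasDerivAt
      have h3 := (h2.mul_const v).const_add u
      simpa using h3
    have h4 : HasDerivAt (fun z : ℂ => A.eval z) (Q.eval (u + (t : ℂ) * v)) (u + (t : ℂ) * v) := by
      rw [← hA]; exact A.hasDerivAt _
    have h5 := h4.comp t h1
    rw [mul_comm] at h5
    exact h5
  have h := intervalIntegral.integral_eq_sub_of_hasDerivAt hd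
    ((by fun_prop : Continuous fun t : ℝ => v * Q.eval (u + (t : ℂ) * v)).intervalIntegrable _ _)
  rw [intervalIntegral.integral_const_mul] at h
  rw [h]
  simp

/-- The main identity. -/
lemma tri_identity (ω ω' : ℂ) (hωω : ω' * ω = 1) (P : ℂ[X]) (l : ℕ)
    (hP : ∀ z : ℂ, P.eval (ω * z) = ω ^ l * P.eval z) :
    ((l : ℂ) + 1) * (ω - ω') *
      ∫ p in Tri, P.eval ((p.1 : ℂ) + (p.2 : ℂ) * ω) * ((p.1 : ℂ) + (p.2 : ℂ) * ω') ^ l =
    ∫ t in (0 : ℝ)..1, P.eval (t : ℂ) * ((1 + ω * (1 - (t : ℂ))) ^ (l + 1) -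
      (1 + ω' * (1 - (t : ℂ))) ^ (l + 1)) := by
  -- the function F and its partial derivatives
  set F : ℝ → ℝ → ℂ := fun a b =>
    P.eval ((a : ℂ) + (b : ℂ) * ω) * ((a : ℂ) + (b : ℂ) * ω') ^ (l + 1) with hF
  set Fa : ℝ → ℝ → ℂ := fun a b =>
    (derivative P).eval ((a : ℂ) + (b : ℂ) * ω) * ((a : ℂ) + (b : ℂ) * ω') ^ (l + 1) +
      P.eval ((a : ℂ) + (b : ℂ) * ω) * (((l : ℂ) + 1) * ((a : ℂ) + (b : ℂ) * ω') ^ l) with hFa
  set Fb : ℝ → ℝ → ℂ := fun a b =>
    (derivative P).eval ((a : ℂ) + (b : ℂ) * ω) * ω * ((a : ℂ) + (b : ℂ) * ω') ^ (l + 1) +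
      P.eval ((a : ℂ) + (b : ℂ) * ω) * (((l : ℂ) + 1) * ((a : ℂ) + (b : ℂ) * ω') ^ l * ω') with hFb
  have hof : ∀ t : ℝ, HasDerivAt (fun t : ℝ => (t : ℂ)) 1 t := fun t =>
    Complex.ofRealCLM.hasDerivAt
  have hda : ∀ a b : ℝ, HasDerivAt (fun a => F a b) (Fa a b) a := by
    intro a b
    have h1 : HasDerivAt (fun a : ℝ => (a : ℂ) + (b : ℂ) * ω) 1 a := (hof a).add_const _
    have h2 : HasDerivAt (fun a : ℝ => (a : ℂ) + (b : ℂ) * ω') 1 a := (hof a).add_const _
    have h3 := (P.hasDerivAt ((a : ℂ) + (b : ℂ) * ω)).comp a h1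
    have h4 := h3.mul (h2.pow (l + 1))
    refine h4.congr_deriv ?_
    simp only [hFa, Function.comp_def, Pi.pow_apply, Nat.add_sub_cancel]
    push_cast
    ring
  have hdb : ∀ a b : ℝ, HasDerivAt (fun b => F a b) (Fb a b) b := by
    intro a b
    have h1 : HasDerivAt (fun b : ℝ => (a : ℂ) + (b : ℂ) * ω) ω b := by
      have := ((hof b).mul_const ω).const_add (a : ℂ)
      simpa using this
    have h2 : HasDerivAt (fun b : ℝ => (a : ℂ) + (b : ℂ) * ω') ω' b := by
      have := ((hof b).mul_const ω').const_add (a : ℂ)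
      simpa using this
    have h3 := (P.hasDerivAt ((a : ℂ) + (b : ℂ) * ω)).comp b h1
    have h4 := h3.mul (h2.pow (l + 1))
    refine h4.congr_deriv ?_
    simp only [hFb, Function.comp_def, Pi.pow_apply, Nat.add_sub_cancel]
    push_cast
    ring
  have hca : Continuous fun p : ℝ × ℝ => Fa p.1 p.2 := by
    simp only [hFa]; fun_prop
  have hcb : Continuous fun p : ℝ × ℝ => Fb p.1 p.2 := by
    simp only [hFb]; fun_prop
  have hIa : ∫ p in Tri, Fa p.1 p.2 = ∫ b in (0 : ℝ)..1, (F (1 - b) b - F 0 b) := by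
    rw [tri_iter2 (fun p => Fa p.1 p.2) hca]
    refine intervalIntegral.integral_congr fun b _ => ?_
    exact intervalIntegral.integral_eq_sub_of_hasDerivAt (fun a _ => hda a b)
      ((hca.comp (by fun_prop : Continuous fun a : ℝ => (a, b))).intervalIntegrable _ _)
  have hIb : ∫ p in Tri, Fb p.1 p.2 = ∫ a in (0 : ℝ)..1, (F a (1 - a) - F a 0) := by
    rw [tri_iter1 (fun p => Fb p.1 p.2) hcb]
    refine intervalIntegral.integral_congr fun a _ => ?_
    exact intervalIntegral.integral_eq_sub_of_hasDerivAt (fun b _ => hdb a b)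
      ((hcb.comp (by fun_prop : Continuous fun b : ℝ => (a, b))).intervalIntegrable _ _)
  have hTa : IntegrableOn (fun p : ℝ × ℝ => Fa p.1 p.2) Tri := by
    have := tri_bdd_integrable _ hca
    rwa [integrable_indicator_iff Tri_meas] at this
  have hTb : IntegrableOn (fun p : ℝ × ℝ => Fb p.1 p.2) Tri := by
    have := tri_bdd_integrable _ hcb
    rwa [integrable_indicator_iff Tri_meas] at this
  have hcomb : ((l : ℂ) + 1) * (ω - ω') *
      ∫ p in Tri, P.eval ((p.1 : ℂ) + (p.2 : ℂ) * ω) * ((p.1 : ℂ) + (p.2 : ℂ) * ω') ^ l =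
      ω * (∫ p in Tri, Fa p.1 p.2) - ∫ p in Tri, Fb p.1 p.2 := by
    rw [← integral_const_mul, ← integral_const_mul, ← integral_sub (hTa.const_mul ω) hTb]
    congr 1
    funext p
    simp only [hFa, hFb]
    ring
  rw [hcomb, hIa, hIb]
  have hcF : Continuous fun p : ℝ × ℝ => F p.1 p.2 := by
    simp only [hF]; fun_prop
  have i1 : IntervalIntegrable (fun b : ℝ => F (1 - b) b) volume 0 1 :=
    (hcF.comp (by fun_prop : Continuous fun b : ℝ => (1 - b, b))).intervalIntegrable _ _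
  have i2 : IntervalIntegrable (fun b : ℝ => F 0 b) volume 0 1 :=
    (hcF.comp (by fun_prop : Continuous fun b : ℝ => ((0 : ℝ), b))).intervalIntegrable _ _
  have i3 : IntervalIntegrable (fun a : ℝ => F a (1 - a)) volume 0 1 :=
    (hcF.comp (by fun_prop : Continuous fun a : ℝ => (a, 1 - a))).intervalIntegrable _ _
  have i4 : IntervalIntegrable (fun a : ℝ => F a 0) volume 0 1 :=
    (hcF.comp (by fun_prop : Continuous fun a : ℝ => (a, (0 : ℝ)))).intervalIntegrable _ _
  rw [intervalIntegral.integral_sub i1 i2, intervalIntegral.integral_sub i3 i4]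
  have h31 : ∫ a in (0 : ℝ)..1, F a (1 - a) = ∫ b in (0 : ℝ)..1, F (1 - b) b := by
    have := intervalIntegral.integral_comp_sub_left (a := 0) (b := 1) (fun b => F (1 - b) b) 1
    simpa using this
  have h24 : ω * ∫ b in (0 : ℝ)..1, F 0 b = ∫ a in (0 : ℝ)..1, F a 0 := by
    rw [← intervalIntegral.integral_const_mul]
    refine intervalIntegral.integral_congr fun b _ => ?_
    simp only [hF]
    have e1 := hP (b : ℂ)
    have e2 : P.eval (((0 : ℝ) : ℂ) + (b : ℂ) * ω) = ω ^ l * P.eval (b : ℂ) := by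
      rw [← e1, Complex.ofReal_zero, zero_add, mul_comm]
    rw [e2, Complex.ofReal_zero, zero_add, zero_mul, add_zero, mul_pow]
    have e3 : ω * (ω ^ l * P.eval (b : ℂ) * ((b : ℂ) ^ (l + 1) * ω' ^ (l + 1))) =
        (ω' * ω) ^ (l + 1) * (P.eval (b : ℂ) * (b : ℂ) ^ (l + 1)) := by ring
    rw [e3, hωω, one_pow, one_mul]
    ring_nf
  set Q : ℂ[X] := P * (C (1 + ω') - C ω' * X) ^ (l + 1) with hQ
  obtain ⟨A, hA⟩ := exists_antideriv Q
  have s1 := seg_integral Q A hA 1 (ω - 1)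
  have s2 := seg_integral Q A hA 0 1
  have s3 := seg_integral Q A hA 0 ω
  have q1 : ∫ b in (0 : ℝ)..1, F (1 - b) b = ∫ t in (0 : ℝ)..1, Q.eval (1 + (t : ℂ) * (ω - 1)) := by
    refine intervalIntegral.integral_congr fun b _ => ?_
    simp only [hF, hQ, eval_mul, eval_pow, eval_sub, eval_C, eval_X, Complex.ofReal_sub,
      Complex.ofReal_one]
    have e1 : 1 - (b : ℂ) + (b : ℂ) * ω = 1 + (b : ℂ) * (ω - 1) := by ring
    have e2 : 1 - (b : ℂ) + (b : ℂ) * ω' = 1 + ω' - ω' * (1 + (b : ℂ) * (ω - 1)) := by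
      have : ω' * (1 + (b : ℂ) * (ω - 1)) = ω' + (b : ℂ) * (ω' * ω) - b * ω' := by ring
      rw [this, hωω]; ring
    rw [e1, e2]
  have hc1 : Continuous fun t : ℝ => ω * Q.eval (0 + (t : ℂ) * ω) := by fun_prop
  have hc2 : Continuous fun t : ℝ => Q.eval (0 + (t : ℂ) * 1) := by fun_prop
  have q2 : ∫ t in (0 : ℝ)..1, P.eval (t : ℂ) * ((1 + ω * (1 - (t : ℂ))) ^ (l + 1) -
      (1 + ω' * (1 - (t : ℂ))) ^ (l + 1)) =
      ω * (∫ t in (0 : ℝ)..1, Q.eval (0 + (t : ℂ) * ω)) -
        1 * ∫ t in (0 : ℝ)..1, Q.eval (0 + (t : ℂ) * 1) := by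
    rw [one_mul, ← intervalIntegral.integral_const_mul, ← intervalIntegral.integral_sub
      (hc1.intervalIntegrable _ _) (hc2.intervalIntegrable _ _)]
    refine intervalIntegral.integral_congr fun t _ => ?_
    simp only [hQ, eval_mul, eval_pow, eval_sub, eval_C, eval_X, zero_add, mul_one]
    have e0 : P.eval ((t : ℂ) * ω) = ω ^ l * P.eval (t : ℂ) := by rw [← hP, mul_comm]
    rw [e0]
    have e1 : ω * (ω ^ l * P.eval (t : ℂ) * (1 + ω' - ω' * ((t : ℂ) * ω)) ^ (l + 1)) =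
        P.eval (t : ℂ) * (ω * (1 + ω' - ω' * ((t : ℂ) * ω))) ^ (l + 1) := by
      rw [mul_pow ω]; ring
    have e2 : ω * (1 + ω' - ω' * ((t : ℂ) * ω)) = 1 + ω * (1 - (t : ℂ)) := by
      have : ω * (1 + ω' - ω' * ((t : ℂ) * ω)) = ω + (ω' * ω) - (t : ℂ) * (ω' * ω) * ω := by ring
      rw [this, hωω]; ring
    have e3 : 1 + ω' - ω' * (t : ℂ) = 1 + ω' * (1 - (t : ℂ)) := by ring
    rw [e1, e2, e3]
    ring
  rw [q2, s2, s3, h31, mul_sub, h24, q1]
  have e4 : (1 : ℂ) + (ω - 1) = ω := by ring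
  rw [e4] at s1
  rw [zero_add, zero_add]
  linear_combination s1

end Pool.Agent.TH220.Berg
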