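import Mathlib

set_option autoImplicit false

/-!
Reduction of the area integral over the polygon to a double integral over a triangle.
-/

namespace Pool.Agent.TH220.Berg

open MeasureTheory

/-- coordinates with respect to `1, ω` -/
noncomputable def eL (ω : ℂ) (h : ω.im ≠ 0) : (ℝ × ℝ) ≃ₗ[ℝ] ℂ where
  toFun p := (p.1 : ℂ) + (p.2 : ℂ) * ω
  map_add' p q := by
    simp only [Prod.fst_add, Prod.snd_add]
    push_cast; ring
  map_smul' r p := by
    simp only [Prod.smul_fst, Prod.smul_snd, smul_eq_mul, RingHom.id_apply, Complex.real_smul]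
    push_cast; ring
  invFun z := (z.re - z.im / ω.im * ω.re, z.im / ω.im)
  left_inv p := by
    ext
    · simp [h]
    · simp [h]
  right_inv z := by
    apply Complex.ext
    · simp
    · simp [h]

lemma eL_apply (ω : ℂ) (h : ω.im ≠ 0) (p : ℝ × ℝ) : eL ω h p = (p.1 : ℂ) + (p.2 : ℂ) * ω := rfl

lemma integral_eL (ω : ℂ) (h : ω.im ≠ 0) :
    ∃ c : ℝ, c ≠ 0 ∧ ∀ F : ℂ → ℂ, ∫ p : ℝ × ℝ, F ((p.1 : ℂ) + (p.2 : ℂ) * ω) = c • ∫ z, F z := by
  set e : (ℝ × ℝ) ≃L[ℝ] ℂ := (eL ω h).toContinuousLinearEquiv with he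
  have : (Measure.map e (volume : Measure (ℝ × ℝ))).IsAddHaarMeasure :=
    e.isAddHaarMeasure_map _
  have h1 := Measure.isAddLeftInvariant_eq_smul (Measure.map e (volume : Measure (ℝ × ℝ)))
    (volume : Measure ℂ)
  have h2 := Measure.addHaarScalarFactor_pos_of_isAddHaarMeasure
    (Measure.map e (volume : Measure (ℝ × ℝ))) (volume : Measure ℂ)
  refine ⟨_, (NNReal.coe_pos.2 h2).ne', fun F => ?_⟩
  have h3 : ∫ z, F z ∂(Measure.map e (volume : Measure (ℝ × ℝ))) = ∫ p : ℝ × ℝ, F (e p) := by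
    have hme : MeasurableEmbedding e := e.toHomeomorph.measurableEmbedding
    exact hme.integral_map F
  have h4 : ∀ p : ℝ × ℝ, e p = (p.1 : ℂ) + (p.2 : ℂ) * ω := fun p => rfl
  simp only [h4] at h3
  rw [← h3]
  conv_lhs => rw [h1]
  rw [integral_smul_nnreal_measure]
  rfl

/-- the half-open sector spanned by `1, ω` -/
def S0 (ω : ℂ) : Set ℂ := {z | ∃ a b : ℝ, 0 ≤ a ∧ 0 < b ∧ z = a + b * ω}

lemma S0_coord (ω : ℂ) (h : ω.im ≠ 0) (a b : ℝ) : ((a : ℂ) + b * ω) ∈ S0 ω ↔ 0 ≤ a ∧ 0 < b := by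
  constructor
  · rintro ⟨a', b', ha, hb, heq⟩
    have h1 := (eL ω h).injective (a₁ := (a, b)) (a₂ := (a', b')) (by
      rw [eL_apply, eL_apply]; exact heq)
    rw [Prod.mk.injEq] at h1
    rw [h1.1, h1.2]; exact ⟨ha, hb⟩
  · rintro ⟨ha, hb⟩
    exact ⟨a, b, ha, hb, rfl⟩

lemma S0_eq (ω : ℂ) (h : ω.im ≠ 0) : S0 ω =
    {z : ℂ | 0 ≤ z.re - z.im / ω.im * ω.re} ∩ {z : ℂ | 0 < z.im / ω.im} := by
  ext z
  have h1 : z = ((z.re - z.im / ω.im * ω.re : ℝ) : ℂ) + ((z.im / ω.im : ℝ) : ℂ) * ω :=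
    ((eL ω h).right_inv z).symm
  constructor
  · intro hz
    rw [h1, S0_coord ω h] at hz
    exact hz
  · rintro ⟨ha, hb⟩
    rw [h1, S0_coord ω h]
    exact ⟨ha, hb⟩

lemma S0_meas (ω : ℂ) (h : ω.im ≠ 0) : MeasurableSet (S0 ω) := by
  rw [S0_eq ω h]
  apply MeasurableSet.inter
  · exact (isClosed_le continuous_const (by fun_prop)).measurableSet
  · exact (isOpen_lt continuous_const (by fun_prop)).measurableSet

/-- The geometric facts that are used. -/
structure Geo (ω : ℂ) (N : ℕ) (K : Set ℂ) : Prop where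
  hN : 0 < N
  him : ω.im ≠ 0
  hnorm : ‖ω‖ = 1
  hK : IsCompact K
  hconv : Convex ℝ K
  hrot : ∀ z, ω * z ∈ K ↔ z ∈ K
  hpart : ∀ z : ℂ, z ≠ 0 → ∃ s, s < N ∧ ∀ s', s' < N → (ω ^ s' * z ∈ S0 ω ↔ s' = s)
  hsec : ∀ a b : ℝ, 0 ≤ a → 0 < b → (((a : ℂ) + b * ω) ∈ K ↔ a + b ≤ 1)

lemma rot_mp (ω : ℂ) (hw : ‖ω‖ = 1) : MeasurePreserving (fun z : ℂ => ω * z) :=
  (rotation ⟨ω, by simpa [Submonoid.unitSphere] using hw⟩).measurePreserving

lemma rot_me (ω : ℂ) (hw : ‖ω‖ = 1) : MeasurableEmbedding (fun z : ℂ => ω * z) :=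
  (rotation ⟨ω, by simpa [Submonoid.unitSphere] using hw⟩).toHomeomorph.measurableEmbedding

lemma rot_mp_pow (ω : ℂ) (hw : ‖ω‖ = 1) (s : ℕ) : MeasurePreserving (fun z : ℂ => ω ^ s * z) :=
  rot_mp (ω ^ s) (by rw [norm_pow, hw, one_pow])

lemma rot_me_pow (ω : ℂ) (hw : ‖ω‖ = 1) (s : ℕ) : MeasurableEmbedding (fun z : ℂ => ω ^ s * z) :=
  rot_me (ω ^ s) (by rw [norm_pow, hw, one_pow])

lemma interior_integral {ω : ℂ} {N : ℕ} {K : Set ℂ} (hG : Geo ω N K) (f : ℂ → ℂ) :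
    ∫ z in interior K, f z = ∫ z in K, f z := by
  apply setIntegral_congr_set
  refine (interior_subset.eventuallyLE).antisymm ?_
  have h1 : volume (frontier K) = 0 := hG.hconv.addHaar_frontier volume
  have h2 : K ⊆ interior K ∪ frontier K := by
    intro z hz
    by_cases h : z ∈ interior K
    · exact Or.inl h
    · exact Or.inr ⟨subset_closure hz, h⟩
  refine (h2.eventuallyLE).trans ?_
  have h3 : (interior K ∪ frontier K : Set ℂ) =ᵐ[volume] interior K :=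
    union_ae_eq_left_of_ae_eq_empty (ae_eq_empty.2 h1)
  exact h3.le

lemma sector_integral {ω : ℂ} {N : ℕ} {K : Set ℂ} (hG : Geo ω N K) (f : ℂ → ℂ)
    (hf : Continuous f) (hrot : ∀ z, f (ω * z) = f z) :
    ∫ z in K, f z = N * ∫ z in K ∩ S0 ω, f z := by
  have hKm : MeasurableSet K := hG.hK.isClosed.measurableSet
  have hSm := S0_meas ω hG.him
  set A : ℂ → ℂ := (K ∩ S0 ω).indicator f with hA
  have hAint : Integrable A := by
    rw [hA, integrable_indicator_iff (hKm.inter hSm)]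
    exact (hf.continuousOn.integrableOn_compact hG.hK).mono_set Set.inter_subset_left
  have hrots : ∀ s : ℕ, ∀ z, f (ω ^ s * z) = f z := by
    intro s
    induction s with
    | zero => intro z; simp
    | succ s ih => intro z; rw [pow_succ', mul_assoc, hrot, ih]
  have hKs : ∀ s : ℕ, ∀ z, ω ^ s * z ∈ K ↔ z ∈ K := by
    intro s
    induction s with
    | zero => intro z; simp
    | succ s ih => intro z; rw [pow_succ', mul_assoc, hG.hrot, ih]
  have h1 : ∀ s : ℕ, ∫ z, A (ω ^ s * z) = ∫ z, A z := fun s =>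
    (rot_mp_pow ω hG.hnorm s).integral_comp (rot_me_pow ω hG.hnorm s) A
  have h1i : ∀ s : ℕ, Integrable (fun z => A (ω ^ s * z)) := fun s =>
    ((rot_mp_pow ω hG.hnorm s).integrable_comp_emb (rot_me_pow ω hG.hnorm s)).2 hAint
  have h2 : ∀ᵐ z : ℂ, K.indicator f z = ∑ s ∈ Finset.range N, A (ω ^ s * z) := by
    have hz : ∀ᵐ z : ℂ, z ≠ 0 := by
      rw [ae_iff]
      simp
    filter_upwards [hz] with z hz
    obtain ⟨s0, hs0, hs⟩ := hG.hpart z hz
    by_cases hzK : z ∈ K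
    · rw [Set.indicator_of_mem hzK, Finset.sum_eq_single s0]
      · rw [hA, Set.indicator_of_mem, hrots]
        exact ⟨(hKs s0 z).2 hzK, (hs s0 hs0).2 rfl⟩
      · intro s hs' hne
        rw [hA, Set.indicator_of_notMem]
        rintro ⟨_, h⟩
        exact hne ((hs s (Finset.mem_range.1 hs')).1 h)
      · intro h; exact absurd (Finset.mem_range.2 hs0) h
    · rw [Set.indicator_of_notMem hzK]
      symm
      apply Finset.sum_eq_zero
      intro s _
      rw [hA, Set.indicator_of_notMem]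
      rintro ⟨h, _⟩
      exact hzK ((hKs s z).1 h)
  rw [← integral_indicator hKm, integral_congr_ae h2, integral_finsetSum _ fun s _ => h1i s]
  simp only [h1]
  rw [Finset.sum_const, Finset.card_range, nsmul_eq_mul, hA, integral_indicator (hKm.inter hSm)]

/-- the half-open triangle -/
def Tri : Set (ℝ × ℝ) := {p | 0 ≤ p.1 ∧ 0 < p.2 ∧ p.1 + p.2 ≤ 1}

lemma Tri_meas : MeasurableSet Tri := by
  have h : Tri = {p : ℝ × ℝ | 0 ≤ p.1} ∩ ({p : ℝ × ℝ | 0 < p.2} ∩ {p : ℝ × ℝ | p.1 + p.2 ≤ 1}) := by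
    ext p; rfl
  rw [h]
  refine ((isClosed_le continuous_const continuous_fst).measurableSet).inter
    (((isOpen_lt continuous_const continuous_snd).measurableSet).inter
      (isClosed_le (by fun_prop) continuous_const).measurableSet)

lemma tri_integral {ω : ℂ} {N : ℕ} {K : Set ℂ} (hG : Geo ω N K) :
    ∃ c : ℝ, c ≠ 0 ∧ ∀ f : ℂ → ℂ,
      ∫ p in Tri, f ((p.1 : ℂ) + (p.2 : ℂ) * ω) = c • ∫ z in K ∩ S0 ω, f z := by
  obtain ⟨c, hc, h⟩ := integral_eL ω hG.him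
  refine ⟨c, hc, fun f => ?_⟩
  have hKm : MeasurableSet K := hG.hK.isClosed.measurableSet
  have hSm := S0_meas ω hG.him
  rw [← integral_indicator (hKm.inter hSm), ← h, ← integral_indicator Tri_meas]
  congr 1
  funext p
  have hiff : p ∈ Tri ↔ ((p.1 : ℂ) + (p.2 : ℂ) * ω) ∈ K ∩ S0 ω := by
    rw [Set.mem_inter_iff, S0_coord ω hG.him]
    constructor
    · rintro ⟨h1, h2, h3⟩
      exact ⟨(hG.hsec p.1 p.2 h1 h2).2 h3, h1, h2⟩
    · rintro ⟨h3, h1, h2⟩
      exact ⟨h1, h2, (hG.hsec p.1 p.2 h1 h2).1 h3⟩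
  by_cases hp : p ∈ Tri
  · rw [Set.indicator_of_mem hp, Set.indicator_of_mem (hiff.1 hp)]
  · rw [Set.indicator_of_notMem hp, Set.indicator_of_notMem fun h => hp (hiff.2 h)]

end Pool.Agent.TH220.Berg
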