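import Pool.Agent.TH220.BergB
import Pool.Agent.TH220.BergE

set_option autoImplicit false

/-!
The two polygons.
-/

namespace Pool.Agent.TH220.Berg

open MeasureTheory

/-- the closed polygon -/
def KN (N : ℕ) : Set ℂ := convexHull ℝ {w : ℂ | w ^ N = 1}

lemma KN_root {N : ℕ} {w : ℂ} (h : w ^ N = 1) : w ∈ KN N := subset_convexHull ℝ _ h

lemma KN_mul {N : ℕ} {w : ℂ} (h : w ^ N = 1) {z : ℂ} (hz : z ∈ KN N) : w * z ∈ KN N := by
  have h1 : KN N ⊆ {z : ℂ | w * z ∈ KN N} := by
    apply convexHull_min
    · intro v hv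
      apply KN_root
      rw [mul_pow, h, one_mul]
      exact hv
    · intro x hx y hy a b ha hb hab
      show w * (a • x + b • y) ∈ KN N
      have h2 := (convex_convexHull ℝ {w : ℂ | w ^ N = 1}) hx hy ha hb hab
      have e : w * (a • x + b • y) = a • (w * x) + b • (w * y) := by
        rw [mul_add, mul_smul_comm, mul_smul_comm]
      rw [e]; exact h2
  exact h1 hz

lemma KN_compact {N : ℕ} (hN : 0 < N) : IsCompact (KN N) := by
  apply Set.Finite.isCompact_convexHull
  have : {w : ℂ | w ^ N = 1} =
      {w : ℂ | (Polynomial.X ^ N - Polynomial.C 1 : Polynomial ℂ).IsRoot w} := by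
    ext w
    simp [Polynomial.IsRoot, sub_eq_zero]
  rw [this]
  exact Polynomial.finite_setOfPred_isRoot (Polynomial.X_pow_sub_C_ne_zero hN 1)

lemma KN_rot {N : ℕ} (hN : 0 < N) {w : ℂ} (h : w ^ N = 1) (z : ℂ) : w * z ∈ KN N ↔ z ∈ KN N := by
  constructor
  · intro hz
    have hw : w ≠ 0 := by
      rintro rfl
      rw [zero_pow hN.ne'] at h
      exact zero_ne_one h
    have h1 : (w⁻¹) ^ N = 1 := by rw [inv_pow, h, inv_one]
    have h2 := KN_mul h1 hz
    rwa [← mul_assoc, inv_mul_cancel₀ hw, one_mul] at h2
  · exact KN_mul h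

lemma KN_zero {N : ℕ} (hN : 0 < N) {w : ℂ} (h : w ^ N = 1) (him : w.im ≠ 0) : (0 : ℂ) ∈ KN N := by
  have hN' : (N : ℝ) ≠ 0 := by exact_mod_cast hN.ne'
  have h1 : ∑ s ∈ Finset.range N, ((1 : ℝ) / N) • w ^ s ∈ KN N := by
    apply (convex_convexHull ℝ {w : ℂ | w ^ N = 1}).sum_mem
    · intro i _; positivity
    · rw [Finset.sum_const, Finset.card_range, nsmul_eq_mul]; field_simp
    · intro i _
      apply KN_root
      rw [← pow_mul, mul_comm, pow_mul, h, one_pow]
  have h2 : ∑ s ∈ Finset.range N, ((1 : ℝ) / N) • w ^ s = 0 := by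
    rw [← Finset.smul_sum]
    have h3 := geom_sum_mul w N
    rw [h, sub_self] at h3
    have h4 : w - 1 ≠ 0 := by
      intro h5
      apply him
      have : w = 1 := sub_eq_zero.1 h5
      rw [this]; simp
    rcases mul_eq_zero.1 h3 with h5 | h5
    · rw [h5, smul_zero]
    · exact absurd h5 h4
  rwa [h2] at h1

lemma KN_sec1 {N : ℕ} (hN : 0 < N) {w : ℂ} (h : w ^ N = 1) (him : w.im ≠ 0) (a b : ℝ) (ha : 0 ≤ a)
    (hb : 0 ≤ b) (hab : a + b ≤ 1) : (a : ℂ) + b * w ∈ KN N := by
  have h0 := KN_zero hN h him
  have h1 : (1 : ℂ) ∈ KN N := KN_root (one_pow N)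
  have h2 : w ∈ KN N := KN_root h
  have hmem := (convex_convexHull ℝ {w : ℂ | w ^ N = 1}).sum_mem (t := Finset.univ)
    (w := ![a, b, 1 - a - b]) (z := ![(1 : ℂ), w, 0]) (by
      intro i _
      fin_cases i
      · exact ha
      · exact hb
      · show 0 ≤ 1 - a - b; linarith) (by
      rw [Fin.sum_univ_three]; simp) (by
      intro i _
      fin_cases i
      · exact h1
      · exact h2
      · exact h0)
  rw [Fin.sum_univ_three] at hmem
  have e : (![a, b, 1 - a - b] : Fin 3 → ℝ) 0 • (![(1 : ℂ), w, 0] : Fin 3 → ℂ) 0 +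
      (![a, b, 1 - a - b] : Fin 3 → ℝ) 1 • (![(1 : ℂ), w, 0] : Fin 3 → ℂ) 1 +
      (![a, b, 1 - a - b] : Fin 3 → ℝ) 2 • (![(1 : ℂ), w, 0] : Fin 3 → ℂ) 2 = (a : ℂ) + b * w := by
    simp [Complex.real_smul]
  rw [e] at hmem
  exact hmem

lemma KN_half {N : ℕ} (α β : ℝ) (hroot : ∀ w : ℂ, w ^ N = 1 → α * w.re + β * w.im ≤ 1)
    {z : ℂ} (hz : z ∈ KN N) : α * z.re + β * z.im ≤ 1 := by
  have h1 : KN N ⊆ {z : ℂ | α * z.re + β * z.im ≤ 1} := by
    apply convexHull_min
    · exact fun w hw => hroot w hw
    · apply convex_halfSpace_le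
      constructor
      · intro x y; simp only [Complex.add_re, Complex.add_im]; ring
      · intro c x; simp only [Complex.real_smul, Complex.re_ofReal_mul, Complex.im_ofReal_mul,
          smul_eq_mul]; ring
  exact h1 hz

/-! ### The square -/

lemma geo4 : Geo Complex.I 4 (KN 4) where
  hN := by norm_num
  him := by simp
  hnorm := by simp
  hK := KN_compact (by norm_num)
  hconv := convex_convexHull _ _
  hrot := KN_rot (by norm_num) Complex.I_pow_four
  hpart := by
    intro z hz
    have hS : ∀ w : ℂ, w ∈ S0 Complex.I ↔ 0 ≤ w.re ∧ 0 < w.im := by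
      intro w
      rw [S0_eq _ (by simp)]
      simp
    have h0 : (Complex.I ^ 0 * z ∈ S0 Complex.I ↔ 0 ≤ z.re ∧ 0 < z.im) := by
      rw [hS]; simp
    have h1 : (Complex.I ^ 1 * z ∈ S0 Complex.I ↔ z.im ≤ 0 ∧ 0 < z.re) := by
      rw [hS]; simp
    have h2 : (Complex.I ^ 2 * z ∈ S0 Complex.I ↔ z.re ≤ 0 ∧ z.im < 0) := by
      rw [hS]; simp
    have h3 : (Complex.I ^ 3 * z ∈ S0 Complex.I ↔ 0 ≤ z.im ∧ z.re < 0) := by
      rw [hS, Complex.I_pow_three]; simp
    have hne : z.re ≠ 0 ∨ z.im ≠ 0 := by
      by_contra hcon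
      push Not at hcon
      exact hz (Complex.ext hcon.1 hcon.2)
    rcases lt_trichotomy z.re 0 with hr | hr | hr
    · rcases lt_or_ge z.im 0 with hi | hi
      · refine ⟨2, by norm_num, fun s hs => ?_⟩
        interval_cases s
        · rw [h0]; constructor
          · rintro ⟨a, b⟩; linarith
          · intro h; omega
        · rw [h1]; constructor
          · rintro ⟨a, b⟩; linarith
          · intro h; omega
        · rw [h2]; exact ⟨fun _ => rfl, fun _ => ⟨hr.le, hi⟩⟩
        · rw [h3]; constructor
          · rintro ⟨a, b⟩; linarith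
          · intro h; omega
      · refine ⟨3, by norm_num, fun s hs => ?_⟩
        interval_cases s
        · rw [h0]; constructor
          · rintro ⟨a, b⟩; linarith
          · intro h; omega
        · rw [h1]; constructor
          · rintro ⟨a, b⟩; linarith
          · intro h; omega
        · rw [h2]; constructor
          · rintro ⟨a, b⟩; linarith
          · intro h; omega
        · rw [h3]; exact ⟨fun _ => rfl, fun _ => ⟨hi, hr⟩⟩
    · have hi' : z.im ≠ 0 := by
        rcases hne with h | h
        · exact absurd hr h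
        · exact h
      rcases lt_or_gt_of_ne hi' with hi | hi
      · refine ⟨2, by norm_num, fun s hs => ?_⟩
        interval_cases s
        · rw [h0]; constructor
          · rintro ⟨a, b⟩; linarith
          · intro h; omega
        · rw [h1]; constructor
          · rintro ⟨a, b⟩; linarith
          · intro h; omega
        · rw [h2]; exact ⟨fun _ => rfl, fun _ => ⟨hr.le, hi⟩⟩
        · rw [h3]; constructor
          · rintro ⟨a, b⟩; linarith
          · intro h; omega
      · refine ⟨0, by norm_num, fun s hs => ?_⟩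
        interval_cases s
        · rw [h0]; exact ⟨fun _ => rfl, fun _ => ⟨hr.ge, hi⟩⟩
        · rw [h1]; constructor
          · rintro ⟨a, b⟩; linarith
          · intro h; omega
        · rw [h2]; constructor
          · rintro ⟨a, b⟩; linarith
          · intro h; omega
        · rw [h3]; constructor
          · rintro ⟨a, b⟩; linarith
          · intro h; omega
    · rcases lt_or_ge 0 z.im with hi | hi
      · refine ⟨0, by norm_num, fun s hs => ?_⟩
        interval_cases s
        · rw [h0]; exact ⟨fun _ => rfl, fun _ => ⟨hr.le, hi⟩⟩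
        · rw [h1]; constructor
          · rintro ⟨a, b⟩; linarith
          · intro h; omega
        · rw [h2]; constructor
          · rintro ⟨a, b⟩; linarith
          · intro h; omega
        · rw [h3]; constructor
          · rintro ⟨a, b⟩; linarith
          · intro h; omega
      · refine ⟨1, by norm_num, fun s hs => ?_⟩
        interval_cases s
        · rw [h0]; constructor
          · rintro ⟨a, b⟩; linarith
          · intro h; omega
        · rw [h1]; exact ⟨fun _ => rfl, fun _ => ⟨hi, hr⟩⟩
        · rw [h2]; constructor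
          · rintro ⟨a, b⟩; linarith
          · intro h; omega
        · rw [h3]; constructor
          · rintro ⟨a, b⟩; linarith
          · intro h; omega
  hsec := by
    intro a b ha hb
    constructor
    · intro h
      have h1 := KN_half (N := 4) 1 1 (fun w hw => by
        have h2 : (w - 1) * (w + 1) * (w - Complex.I) * (w + Complex.I) = 0 := by
          have : (w - 1) * (w + 1) * (w - Complex.I) * (w + Complex.I) =
              (w ^ 2 - 1) * (w ^ 2 - Complex.I ^ 2) := by ring
          rw [this, Complex.I_sq]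
          have h3 : (w ^ 2 - 1) * (w ^ 2 - -1) = w ^ 4 - 1 := by ring
          rw [h3, hw, sub_self]
        rcases mul_eq_zero.1 h2 with h2 | h2
        · rcases mul_eq_zero.1 h2 with h2 | h2
          · rcases mul_eq_zero.1 h2 with h2 | h2
            · have : w = 1 := sub_eq_zero.1 h2
              rw [this]; simp
            · have : w = -1 := eq_neg_of_add_eq_zero_left h2
              rw [this]; norm_num
          · have : w = Complex.I := sub_eq_zero.1 h2
            rw [this]; simp
        · have : w = -Complex.I := eq_neg_of_add_eq_zero_left h2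
          rw [this]; norm_num) h
      simpa using h1
    · intro h
      exact KN_sec1 (by norm_num) Complex.I_pow_four (by simp) a b ha hb.le h

lemma good4 : Good Complex.I 4 where
  hN := by norm_num
  hω := Complex.I_pow_four
  hc := by simp
  him := by
    have : ({0, 2} : Finset ℕ) ⊆ (Finset.range 4).filter fun a => (Complex.I ^ a).im = 0 := by
      intro a ha
      rw [Finset.mem_insert, Finset.mem_singleton] at ha
      rw [Finset.mem_filter, Finset.mem_range]
      rcases ha with h | h
      · rw [h]; simp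
      · rw [h]; simp
    exact Finset.card_le_card this
  hpos := by
    intro r h1 h2 s hs0 hs1
    rw [g_eval]
    interval_cases r
    · simp [hs0]
    · have e : (Complex.I ^ 0 * (1 + Complex.I * (s : ℂ)) ^ 2) = ((1 - s ^ 2 : ℝ) : ℂ) + ((2 * s : ℝ) : ℂ) * Complex.I := by
        push_cast
        linear_combination (s : ℂ) ^ 2 * Complex.I_sq
      rw [e, Complex.add_im, Complex.ofReal_im, Complex.im_ofReal_mul, Complex.I_im]
      linarith
    · have e : (Complex.I ^ 0 * (1 + Complex.I * (s : ℂ)) ^ 3) = ((1 - 3 * s ^ 2 : ℝ) : ℂ) + ((3 * s - s ^ 3 : ℝ) : ℂ) * Complex.I := by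
        push_cast
        linear_combination (3 * (s : ℂ) ^ 2 + (s : ℂ) ^ 3 * Complex.I) * Complex.I_sq
      rw [e, Complex.add_im, Complex.ofReal_im, Complex.im_ofReal_mul, Complex.I_im]
      have : 0 < s * (3 - s ^ 2) := by
        apply mul_pos hs0
        nlinarith
      nlinarith
    · have e : (Complex.I ^ 0 * (1 + Complex.I * (s : ℂ)) ^ 4) = ((1 - 6 * s ^ 2 + s ^ 4 : ℝ) : ℂ) + ((4 * s - 4 * s ^ 3 : ℝ) : ℂ) * Complex.I := by
        push_cast
        linear_combination (6 * (s : ℂ) ^ 2 + 4 * (s : ℂ) ^ 3 * Complex.I + (s : ℂ) ^ 4 * (Complex.I ^ 2 - 1)) * Complex.I_sq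
      rw [e, Complex.add_im, Complex.ofReal_im, Complex.im_ofReal_mul, Complex.I_im]
      have : 0 < s * (1 - s ^ 2) := by
        apply mul_pos hs0
        nlinarith
      nlinarith

end Pool.Agent.TH220.Berg
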