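import Pool.Agent.TH220.BergD
import Pool.Agent.TH220.BergF
import Pool.Agent.TH220.BergG

set_option autoImplicit false

/-!
From the planar orthogonality to the one-dimensional one.
-/

namespace Pool.Agent.TH220.Berg

open MeasureTheory Polynomial

lemma rot_integral {ω : ℂ} {N : ℕ} {K : Set ℂ} (hG : Geo ω N K) (f : ℂ → ℂ) :
    ∫ z in K, f (ω * z) = ∫ z in K, f z := by
  have h := (rot_mp ω hG.hnorm).setIntegral_preimage_emb (rot_me ω hG.hnorm) f K
  have h2 : (fun z : ℂ => ω * z) ⁻¹' K = K := by
    ext z; exact hG.hrot z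
  rwa [h2] at h

lemma interior_ne {ω : ℂ} {N : ℕ} {K : Set ℂ} (hG : Geo ω N K) : (interior K).Nonempty := by
  set U : Set ℂ := ({z : ℂ | 0 < z.re - z.im / ω.im * ω.re} ∩ {z : ℂ | 0 < z.im / ω.im}) ∩
    {z : ℂ | (z.re - z.im / ω.im * ω.re) + z.im / ω.im < 1} with hU
  have hUo : IsOpen U := by
    refine (IsOpen.inter ?_ ?_).inter ?_
    · exact isOpen_lt continuous_const (by fun_prop)
    · exact isOpen_lt continuous_const (by fun_prop)
    · exact isOpen_lt (by fun_prop) continuous_const
  have hUK : U ⊆ K := by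
    rintro z ⟨⟨h1, h2⟩, h3⟩
    have h4 : z = ((z.re - z.im / ω.im * ω.re : ℝ) : ℂ) + ((z.im / ω.im : ℝ) : ℂ) * ω :=
      ((eL ω hG.him).right_inv z).symm
    rw [h4]
    exact (hG.hsec _ _ (le_of_lt h1) h2).2 (le_of_lt h3)
  have hUne : ((((1 / 4 : ℝ) : ℂ) + ((1 / 4 : ℝ) : ℂ) * ω)) ∈ U := by
    have h5 := (eL ω hG.him).left_inv ((1 / 4 : ℝ), (1 / 4 : ℝ))
    have h6 : ((((1 / 4 : ℝ) : ℂ) + ((1 / 4 : ℝ) : ℂ) * ω).re -
        (((1 / 4 : ℝ) : ℂ) + ((1 / 4 : ℝ) : ℂ) * ω).im / ω.im * ω.re,
        (((1 / 4 : ℝ) : ℂ) + ((1 / 4 : ℝ) : ℂ) * ω).im / ω.im) = ((1 / 4 : ℝ), (1 / 4 : ℝ)) := h5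
    rw [Prod.mk.injEq] at h6
    refine ⟨⟨?_, ?_⟩, ?_⟩
    · rw [Set.mem_ofPred_eq, h6.1]; norm_num
    · rw [Set.mem_ofPred_eq, h6.2]; norm_num
    · rw [Set.mem_ofPred_eq, h6.1, h6.2]; norm_num
  exact ⟨_, interior_maximal hUK hUo hUne⟩

lemma zero_of_L2 {ω : ℂ} {N : ℕ} {K : Set ℂ} (hG : Geo ω N K) (D : ℂ[X])
    (h : ∫ z in interior K, D.eval z * (starRingEnd ℂ) (D.eval z) = 0) : D = 0 := by
  have e1 : ∀ z : ℂ, D.eval z * (starRingEnd ℂ) (D.eval z) = ((Complex.normSq (D.eval z) : ℝ) : ℂ) :=
    fun z => Complex.mul_conj _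
  simp only [e1] at h
  rw [integral_complex_ofReal] at h
  have h0 : ∫ z in interior K, Complex.normSq (D.eval z) = 0 := by exact_mod_cast h
  by_contra hne
  have hcont : Continuous fun z : ℂ => Complex.normSq (D.eval z) :=
    Complex.continuous_normSq.comp D.continuous
  have hex : ∃ z ∈ interior K, D.eval z ≠ 0 := by
    by_contra hcon
    push Not at hcon
    apply hne
    apply eq_zero_of_infinite_isRoot
    obtain ⟨z0, hz0⟩ := interior_ne hG
    exact (infinite_of_mem_nhds z0 (isOpen_interior.mem_nhds hz0)).mono hcon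
  obtain ⟨z0, hz0, hDz0⟩ := hex
  have hi : IntegrableOn (fun z : ℂ => Complex.normSq (D.eval z)) (interior K) :=
    (hcont.continuousOn.integrableOn_compact hG.hK).mono_set interior_subset
  have hpos : 0 < ∫ z in interior K, Complex.normSq (D.eval z) := by
    rw [setIntegral_pos_iff_support_of_nonneg_ae _ hi]
    · apply IsOpen.measure_pos
      · exact (hcont.isOpen_support).inter isOpen_interior
      · exact ⟨z0, by rw [Function.mem_support]; exact (Complex.normSq_pos.2 hDz0).ne', hz0⟩
    · exact Filter.Eventually.of_forall fun z => Complex.normSq_nonneg _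
  linarith

/-- rotation symmetry of the orthogonal polynomial -/
lemma rot_sym {ω : ℂ} {N : ℕ} {K : Set ℂ} (hG : Geo ω N K) (p : ℂ[X]) (m : ℕ)
    (hd : p.natDegree = m)
    (horth : ∀ r : ℂ[X], r.natDegree < m →
      ∫ z in interior K, p.eval z * (starRingEnd ℂ) (r.eval z) = 0) (z : ℂ) :
    p.eval (ω * z) = ω ^ m * p.eval z := by
  have hω0 : ω ≠ 0 := by
    intro h
    apply hG.him
    rw [h]; simp
  set D : ℂ[X] := p.comp (C ω * X) - C (ω ^ m) * p with hD
  have hDeval : ∀ z, D.eval z = p.eval (ω * z) - ω ^ m * p.eval z := by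
    intro z
    rw [hD]; simp
  have hpc : ∀ n, (p.comp (C ω * X)).coeff n = p.coeff n * ω ^ n := by
    intro n
    exact comp_C_mul_X_coeff
  have hDc : ∀ n, D.coeff n = p.coeff n * ω ^ n - ω ^ m * p.coeff n := by
    intro n
    rw [hD, coeff_sub, hpc, coeff_C_mul]
  suffices hD0 : D = 0 by
    have := hDeval z
    rw [hD0, eval_zero] at this
    exact (sub_eq_zero.1 this.symm)
  by_contra hDne
  have hDd : D.natDegree < m := by
    have h1 : D.natDegree ≤ m := by
      rw [natDegree_le_iff_coeff_eq_zero]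
      intro n hn
      rw [hDc, coeff_eq_zero_of_natDegree_lt (by omega)]; simp
    rcases Nat.lt_or_eq_of_le h1 with h2 | h2
    · exact h2
    · exfalso
      have h3 : D.coeff D.natDegree ≠ 0 := by
        rw [coeff_natDegree]; exact leadingCoeff_ne_zero.2 hDne
      apply h3
      rw [h2, hDc]; ring
  apply hDne
  apply zero_of_L2 hG
  -- the two integrals
  have hcont1 : Continuous fun z : ℂ => p.eval (ω * z) * (starRingEnd ℂ) (D.eval z) :=
    (p.continuous.comp (continuous_const.mul continuous_id)).mul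
      (Complex.continuous_conj.comp D.continuous)
  have hcont2 : Continuous fun z : ℂ => ω ^ m * (p.eval z * (starRingEnd ℂ) (D.eval z)) :=
    continuous_const.mul (p.continuous.mul (Complex.continuous_conj.comp D.continuous))
  have hi1 : IntegrableOn (fun z : ℂ => p.eval (ω * z) * (starRingEnd ℂ) (D.eval z))
      (interior K) :=
    (hcont1.continuousOn.integrableOn_compact hG.hK).mono_set interior_subset
  have hi2 : IntegrableOn (fun z : ℂ => ω ^ m * (p.eval z * (starRingEnd ℂ) (D.eval z)))
      (interior K) :=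
    (hcont2.continuousOn.integrableOn_compact hG.hK).mono_set interior_subset
  have h1 : ∫ z in interior K, D.eval z * (starRingEnd ℂ) (D.eval z) =
      (∫ z in interior K, p.eval (ω * z) * (starRingEnd ℂ) (D.eval z)) -
        ∫ z in interior K, ω ^ m * (p.eval z * (starRingEnd ℂ) (D.eval z)) := by
    rw [← integral_sub hi1 hi2]
    congr 1
    funext z
    rw [hDeval z]; ring
  have h2 : ∫ z in interior K, ω ^ m * (p.eval z * (starRingEnd ℂ) (D.eval z)) = 0 := by
    rw [integral_const_mul, horth D hDd, mul_zero]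
  have h3 : ∫ z in interior K, p.eval (ω * z) * (starRingEnd ℂ) (D.eval z) = 0 := by
    set D' : ℂ[X] := D.comp (C ω⁻¹ * X) with hD'
    have hD'd : D'.natDegree < m := by
      refine lt_of_le_of_lt ?_ hDd
      rw [hD', natDegree_comp]
      calc D.natDegree * (C ω⁻¹ * X : ℂ[X]).natDegree ≤ D.natDegree * 1 :=
            Nat.mul_le_mul_left _ ((natDegree_C_mul_le _ _).trans natDegree_X_le)
        _ = D.natDegree := mul_one _
    have h4 : ∀ z : ℂ, p.eval (ω * z) * (starRingEnd ℂ) (D.eval z) =
        (fun w => p.eval w * (starRingEnd ℂ) (D'.eval w)) (ω * z) := by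
      intro z
      simp only [hD', eval_comp, eval_mul, eval_C, eval_X]
      rw [← mul_assoc, inv_mul_cancel₀ hω0, one_mul]
    simp only [h4]
    rw [interior_integral hG, rot_integral hG (fun w => p.eval w * (starRingEnd ℂ) (D'.eval w)),
      ← interior_integral hG]
    exact horth D' hD'd
  rw [h1, h2, h3, sub_zero]

lemma struct_of_sym {ω : ℂ} {N : ℕ} (hN : 0 < N) (hprim : IsPrimitiveRoot ω N) (p : ℂ[X])
    (k j : ℕ) (hk : k < N) (hd : p.natDegree = j * N + k)
    (hsym : ∀ z, p.eval (ω * z) = ω ^ (j * N + k) * p.eval z) :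
    ∃ q : ℂ[X], (∀ i, j < i → q.coeff i = 0) ∧ (∀ i, i ≤ j → q.coeff i = p.coeff (k + N * i)) ∧
      p = X ^ k * q.comp (X ^ N) := by
  have hco : ∀ n, p.coeff n ≠ 0 → n % N = k := by
    intro n hn
    have h1 : p.comp (C ω * X) = C (ω ^ (j * N + k)) * p := by
      apply Polynomial.funext
      intro z
      rw [eval_comp, eval_mul, eval_C, eval_X, eval_mul, eval_C]
      exact hsym z
    have h2 := congrArg (fun f => f.coeff n) h1
    simp only [comp_C_mul_X_coeff, coeff_C_mul] at h2
    have h3 : ω ^ n = ω ^ (j * N + k) := by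
      apply mul_left_cancel₀ hn
      rw [h2]; ring
    have h4 : ω ^ (j * N + k) = ω ^ k := by
      rw [pow_add, mul_comm j N, pow_mul, hprim.pow_eq_one, one_pow, one_mul]
    have h5 : ω ^ n = ω ^ (n % N) := by
      conv_lhs => rw [← Nat.div_add_mod n N]
      rw [pow_add, pow_mul, hprim.pow_eq_one, one_pow, one_mul]
    rw [h4, h5] at h3
    exact hprim.pow_inj (Nat.mod_lt _ hN) hk h3
  set q : ℂ[X] := ∑ i ∈ Finset.range (j + 1), monomial i (p.coeff (k + N * i)) with hq
  have hqc : ∀ i, q.coeff i = if i ∈ Finset.range (j + 1) then p.coeff (k + N * i) else 0 := by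
    intro i
    rw [hq, finsetSum_coeff]
    simp only [coeff_monomial]
    rw [Finset.sum_ite_eq' (Finset.range (j + 1)) i]
  refine ⟨q, ?_, ?_, ?_⟩
  · intro i hi
    rw [hqc, if_neg]
    rw [Finset.mem_range]; omega
  · intro i hi
    rw [hqc, if_pos]
    rw [Finset.mem_range]; omega
  · have hex : q.comp (X ^ N) = expand ℂ N q := (expand_eq_comp_X_pow N).symm
    rw [hex]
    ext n
    rw [coeff_X_pow_mul']
    by_cases hkn : k ≤ n
    · rw [if_pos hkn, coeff_expand hN]
      by_cases hdvd : N ∣ n - k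
      · rw [if_pos hdvd, hqc]
        obtain ⟨c, hc⟩ := hdvd
        have hn : n = k + N * c := by omega
        have hdiv : (n - k) / N = c := by rw [hc]; exact Nat.mul_div_cancel_left c hN
        rw [hdiv]
        split_ifs with h
        · rw [hn]
        · rw [Finset.mem_range, not_lt] at h
          apply coeff_eq_zero_of_natDegree_lt
          rw [hd, hn]
          nlinarith
      · rw [if_neg hdvd]
        by_contra hne
        apply hdvd
        have h1 := hco n hne
        refine ⟨n / N, ?_⟩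
        have h2 := Nat.div_add_mod n N
        omega
    · rw [if_neg hkn]
      by_contra hne
      have h1 := hco n hne
      have h2 := Nat.mod_le n N
      omega

lemma real_im_split (q : ℂ[X]) (j : ℕ) (hq : ∀ i, j < i → q.coeff i = 0) (x : ℝ) :
    q.eval (x : ℂ) =
      (((∑ i ∈ Finset.range (j + 1), monomial i (q.coeff i).re : ℝ[X]).eval x : ℝ) : ℂ) +
      (((∑ i ∈ Finset.range (j + 1), monomial i (q.coeff i).im : ℝ[X]).eval x : ℝ) : ℂ) *
        Complex.I := by
  have hd : q.natDegree < j + 1 := by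
    rw [Nat.lt_succ_iff, natDegree_le_iff_coeff_eq_zero]
    exact hq
  rw [eval_eq_sum_range' hd, eval_finsetSum, eval_finsetSum]
  push_cast
  rw [Finset.sum_mul, ← Finset.sum_add_distrib]
  refine Finset.sum_congr rfl fun i _ => ?_
  rw [eval_monomial, eval_monomial]
  push_cast
  conv_lhs => rw [← Complex.re_add_im (q.coeff i)]
  ring

lemma sum_monomial_coeff (c : ℕ → ℝ) (j i : ℕ) :
    (∑ i ∈ Finset.range (j + 1), monomial i (c i) : ℝ[X]).coeff i = if i ≤ j then c i else 0 := by
  rw [finsetSum_coeff]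
  simp only [coeff_monomial]
  rw [Finset.sum_ite_eq' (Finset.range (j + 1)) i]
  simp only [Finset.mem_range, Nat.lt_succ_iff]

/-- Reduction to one dimension. -/
theorem reduce {ω : ℂ} {N : ℕ} {K : Set ℂ} (hgeo : Geo ω N K) (hG : Good ω N)
    (hprim : IsPrimitiveRoot ω N) (k j : ℕ) (hk : k < N) (p : ℂ[X]) (hp : p.Monic)
    (hd : p.natDegree = j * N + k)
    (horth : ∀ r : ℂ[X], r.natDegree < j * N + k →
      ∫ z in interior K, p.eval z * (starRingEnd ℂ) (r.eval z) = 0) :
    ∃ q : ℝ[X], q.Monic ∧ q.natDegree = j ∧ Orth ω N k j q ∧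
      p = X ^ k * (q.map Complex.ofRealHom).comp (X ^ N) := by
  have hsym := rot_sym hgeo p (j * N + k) hd horth
  obtain ⟨qc, hqc0, hqc, hpq⟩ := struct_of_sym hG.hN hprim p k j hk hd hsym
  set qr : ℝ[X] := ∑ i ∈ Finset.range (j + 1), monomial i (qc.coeff i).re with hqr
  set qi : ℝ[X] := ∑ i ∈ Finset.range (j + 1), monomial i (qc.coeff i).im with hqi
  have hsplit : ∀ x : ℝ, qc.eval (x : ℂ) = ((qr.eval x : ℝ) : ℂ) + ((qi.eval x : ℝ) : ℂ) * Complex.I :=
    real_im_split qc j hqc0
  have hqrc : ∀ i, qr.coeff i = if i ≤ j then (qc.coeff i).re else 0 :=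
    fun i => sum_monomial_coeff (fun i => (qc.coeff i).re) j i
  have hqic : ∀ i, qi.coeff i = if i ≤ j then (qc.coeff i).im else 0 :=
    fun i => sum_monomial_coeff (fun i => (qc.coeff i).im) j i
  have hlead : qc.coeff j = 1 := by
    rw [hqc j le_rfl]
    have : k + N * j = p.natDegree := by rw [hd]; ring
    rw [this]
    exact hp.coeff_natDegree
  -- one-dimensional orthogonality
  have hone : ∀ i < j, (∫ t in (0 : ℝ)..1,
      (X ^ k * qr.comp (X ^ N) * (g ω (k + 1 + N * i) 0).comp (1 - X)).eval t) = 0 ∧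
      (∫ t in (0 : ℝ)..1,
      (X ^ k * qi.comp (X ^ N) * (g ω (k + 1 + N * i) 0).comp (1 - X)).eval t) = 0 := by
    intro i hi
    set l : ℕ := k + N * i with hl
    have hlm : l < j * N + k := by
      have : N * i < N * j := Nat.mul_lt_mul_of_pos_left hi hG.hN
      rw [hl, mul_comm j N]; omega
    have h1 := horth (X ^ l) (by rw [natDegree_X_pow]; exact hlm)
    set f : ℂ → ℂ := fun z => p.eval z * (starRingEnd ℂ) z ^ l with hf
    have hωl : ω ^ (j * N + k) = ω ^ l := by
      rw [hl, pow_add, pow_add, mul_comm j N, pow_mul, pow_mul, hG.hω, one_pow, one_pow, one_mul,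
        mul_one]
    have hfc : Continuous f := p.continuous.mul (Complex.continuous_conj.pow l)
    have hfr : ∀ z, f (ω * z) = f z := by
      intro z
      simp only [hf]
      rw [hsym, hωl, map_mul, mul_pow]
      have : ω ^ l * p.eval z * ((starRingEnd ℂ) ω ^ l * (starRingEnd ℂ) z ^ l) =
          ((starRingEnd ℂ) ω * ω) ^ l * (p.eval z * (starRingEnd ℂ) z ^ l) := by
        rw [mul_pow]; ring
      rw [this, hG.hc, one_pow, one_mul]
    have h2 : ∫ z in interior K, f z = 0 := by
      rw [← h1]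
      congr 1
      funext z
      simp only [hf, eval_pow, eval_X, map_pow]
    rw [interior_integral hgeo, sector_integral hgeo f hfc hfr] at h2
    have h3 : ∫ z in K ∩ S0 ω, f z = 0 := by
      rcases mul_eq_zero.1 h2 with h | h
      · have hN : (N : ℂ) ≠ 0 := by exact_mod_cast hG.hN.ne'
        exact absurd h hN
      · exact h
    obtain ⟨c, _, htri⟩ := tri_integral hgeo
    have h4 := htri f
    rw [h3, smul_zero] at h4
    have h5 := tri_identity ω ((starRingEnd ℂ) ω) hG.hc p l (fun z => by rw [hsym, hωl])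
    have h6 : ∫ q in Tri, p.eval ((q.1 : ℂ) + (q.2 : ℂ) * ω) *
        ((q.1 : ℂ) + (q.2 : ℂ) * (starRingEnd ℂ) ω) ^ l = 0 := by
      rw [← h4]
      congr 1
      funext q
      simp only [hf, map_add, map_mul, Complex.conj_ofReal]
    rw [h6, mul_zero] at h5
    -- rewrite the integrand
    set A : ℝ → ℝ := fun t =>
      (X ^ k * qr.comp (X ^ N) * (g ω (k + 1 + N * i) 0).comp (1 - X)).eval t with hA
    set B : ℝ → ℝ := fun t =>
      (X ^ k * qi.comp (X ^ N) * (g ω (k + 1 + N * i) 0).comp (1 - X)).eval t with hB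
    have hAc : Continuous A := Polynomial.continuous _
    have hBc : Continuous B := Polynomial.continuous _
    have h7 : ∀ t : ℝ, p.eval (t : ℂ) * ((1 + ω * (1 - (t : ℂ))) ^ (l + 1) -
        (1 + (starRingEnd ℂ) ω * (1 - (t : ℂ))) ^ (l + 1)) =
        2 * Complex.I * ((A t : ℂ) + (B t : ℂ) * Complex.I) := by
      intro t
      have e1 : (1 + (starRingEnd ℂ) ω * (1 - (t : ℂ))) ^ (l + 1) =
          (starRingEnd ℂ) ((1 + ω * (1 - (t : ℂ))) ^ (l + 1)) := by
        simp only [map_pow, map_add, map_mul, map_one, map_sub, Complex.conj_ofReal]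
      have e2 : (g ω (k + 1 + N * i) 0).eval (1 - t) = ((1 + ω * (1 - (t : ℂ))) ^ (l + 1)).im := by
        rw [g_eval, pow_zero, one_mul]
        push_cast
        congr 2
        rw [hl]; ring
      have e3 : p.eval (t : ℂ) = (t : ℂ) ^ k * (((qr.eval (t ^ N) : ℝ) : ℂ) +
          ((qi.eval (t ^ N) : ℝ) : ℂ) * Complex.I) := by
        conv_lhs => rw [hpq]
        rw [eval_mul, eval_pow, eval_X, eval_comp, eval_pow, eval_X]
        have := hsplit (t ^ N)
        rw [Complex.ofReal_pow] at this
        rw [this]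
      rw [e1, Complex.sub_conj, ← e2, e3]
      simp only [hA, hB, eval_mul, eval_pow, eval_X, eval_comp, eval_sub, Polynomial.eval_one]
      push_cast
      ring
    simp only [h7] at h5
    rw [intervalIntegral.integral_const_mul, intervalIntegral.integral_add,
      intervalIntegral.integral_mul_const, intervalIntegral.integral_ofReal,
      intervalIntegral.integral_ofReal] at h5
    · have h8 : (((∫ t in (0 : ℝ)..1, A t : ℝ) : ℂ) + ((∫ t in (0 : ℝ)..1, B t : ℝ) : ℂ) *
          Complex.I) = 0 := by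
        rcases mul_eq_zero.1 h5.symm with h | h
        · exact absurd h (mul_ne_zero two_ne_zero Complex.I_ne_zero)
        · exact h
      have h9 := congrArg Complex.re h8
      have h10 := congrArg Complex.im h8
      simp only [Complex.add_re, Complex.ofReal_re, Complex.re_ofReal_mul, Complex.I_re,
        mul_zero, add_zero, Complex.zero_re] at h9
      simp only [Complex.add_im, Complex.ofReal_im, Complex.im_ofReal_mul, Complex.I_im,
        mul_one, zero_add, Complex.zero_im] at h10
      exact ⟨h9, h10⟩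
    · exact (Complex.continuous_ofReal.comp hAc).intervalIntegrable _ _
    · exact ((Complex.continuous_ofReal.comp hBc).mul continuous_const).intervalIntegrable _ _
  -- the imaginary part vanishes
  have hqi0 : qi = 0 := by
    by_contra hne
    have hdeg : qi.natDegree ≤ j := by
      rw [natDegree_le_iff_coeff_eq_zero]
      intro n hn
      rw [hqic, if_neg (by omega)]
    obtain ⟨D, hD, u1, hu1, hcs⟩ := sign_struct j qi hne hdeg
    have h1 := orth_card hG k hk j qi hne (fun i hi => (hone i hi).2) D hD u1 hu1 hcs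
    have h2 : (∏ x ∈ D, (X - C x)).Monic := monic_prod_X_sub_C _ _
    have h3 : (∏ x ∈ D, (X - C x)).natDegree = D.card := by
      rw [natDegree_prod_of_monic _ _ fun x _ => monic_X_sub_C x]
      simp
    have hu10 : u1 ≠ 0 := by
      intro h
      rw [h, mul_zero] at hu1
      exact hne hu1
    have h4 : qi.natDegree = D.card + u1.natDegree := by
      conv_lhs => rw [hu1]
      rw [natDegree_mul h2.ne_zero hu10, h3]
    have h5 : qi.natDegree = j := by omega
    have h6 : qi.coeff qi.natDegree ≠ 0 := by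
      rw [coeff_natDegree]; exact leadingCoeff_ne_zero.2 hne
    apply h6
    rw [h5, hqic, if_pos le_rfl, hlead, Complex.one_im]
  have hqrd : qr.natDegree ≤ j := by
    rw [natDegree_le_iff_coeff_eq_zero]
    intro n hn
    rw [hqrc, if_neg (by omega)]
  have hqrl : qr.coeff j = 1 := by rw [hqrc, if_pos le_rfl, hlead, Complex.one_re]
  have hqrm : qr.Monic := monic_of_natDegree_le_of_coeff_eq_one j hqrd hqrl
  refine ⟨qr, hqrm, ?_, fun i hi => (hone i hi).1, ?_⟩
  · apply le_antisymm hqrd
    apply le_natDegree_of_ne_zero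
    rw [hqrl]; exact one_ne_zero
  · have : qr.map Complex.ofRealHom = qc := by
      ext n
      rw [coeff_map, hqrc]
      by_cases hn : n ≤ j
      · rw [if_pos hn]
        have him : (qc.coeff n).im = 0 := by
          have := hqic n
          rw [hqi0, coeff_zero, if_pos hn] at this
          exact this.symm
        apply Complex.ext
        · simp
        · simp [him]
      · rw [if_neg hn, hqc0 n (by omega)]; simp
    rw [this]
    exact hpq

end Pool.Agent.TH220.Berg
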