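import Mathlib

set_option autoImplicit false

/-!
Counting zeros in the open unit interval (with multiplicity), Rolle with boundary zeros.
-/

namespace Pool.Agent.TH220.Berg

open Polynomial

/-- number of zeros in `(0,1)`, counted with multiplicity -/
noncomputable def Z (f : ℝ[X]) : ℕ := by
  classical exact Multiset.card (f.roots.filter fun x => 0 < x ∧ x < 1)

/-- boundary indicator -/
noncomputable def bd (f : ℝ[X]) : ℕ := by
  classical exact (if f.eval 0 = 0 then 1 else 0) + (if f.eval 1 = 0 then 1 else 0)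

lemma Z_eq_sum (f : ℝ[X]) (s : Finset ℝ) (hs : ∀ x ∈ s, 0 < x ∧ x < 1)
    (hs2 : ∀ x, f ≠ 0 → f.IsRoot x → 0 < x → x < 1 → x ∈ s) :
    Z f = ∑ x ∈ s, f.rootMultiplicity x := by
  classical
  unfold Z
  rw [← Multiset.sum_count_eq_card (s := s)]
  · refine Finset.sum_congr rfl fun x hx => ?_
    rw [Multiset.count_filter, if_pos (hs x hx), count_roots]
  · intro x hx
    rw [Multiset.mem_filter] at hx
    rcases eq_or_ne f 0 with h0 | h0
    · rw [h0] at hx; simp at hx
    · rw [mem_roots h0] at hx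
      exact hs2 x h0 hx.1 hx.2.1 hx.2.2

/-- Rolle with multiplicities and boundary zeros. -/
lemma rolle (f : ℝ[X]) (hf' : derivative f ≠ 0) : Z f + bd f ≤ Z (derivative f) + 1 := by
  classical
  have hf : f ≠ 0 := ne_of_apply_ne derivative (by rwa [derivative_zero])
  set A : Finset ℝ := f.roots.toFinset.filter fun x => 0 < x ∧ x < 1 with hA
  set A' : Finset ℝ := f.roots.toFinset.filter fun x => 0 ≤ x ∧ x ≤ 1 with hA'
  set B : Finset ℝ := (derivative f).roots.toFinset.filter fun x => 0 < x ∧ x < 1 with hB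
  have memA : ∀ x, x ∈ A ↔ f.eval x = 0 ∧ 0 < x ∧ x < 1 := by
    intro x
    rw [hA, Finset.mem_filter, Multiset.mem_toFinset, mem_roots hf, IsRoot]
  have memA' : ∀ x, x ∈ A' ↔ f.eval x = 0 ∧ 0 ≤ x ∧ x ≤ 1 := by
    intro x
    rw [hA', Finset.mem_filter, Multiset.mem_toFinset, mem_roots hf, IsRoot]
  have memB : ∀ x, x ∈ B ↔ (derivative f).eval x = 0 ∧ 0 < x ∧ x < 1 := by
    intro x
    rw [hB, Finset.mem_filter, Multiset.mem_toFinset, mem_roots hf', IsRoot]
  -- interleaving
  have h1 : A'.card ≤ (B \ A').card + 1 := by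
    refine Finset.card_le_sdiff_of_interleaved fun x hx y hy hxy hxy' => ?_
    rw [memA'] at hx hy
    obtain ⟨z, hz1, hz2⟩ := exists_deriv_eq_zero hxy f.continuousOn (hx.1.trans hy.1.symm)
    refine ⟨z, ?_, hz1⟩
    rw [memB, ← f.deriv]
    exact ⟨hz2, lt_of_le_of_lt hx.2.1 hz1.1, lt_of_lt_of_le hz1.2 hy.2.2⟩
  -- boundary
  have h2 : A'.card = A.card + bd f := by
    have h3 : A' = A ∪ (({0, 1} : Finset ℝ).filter fun x => f.eval x = 0) := by
      ext x
      rw [Finset.mem_union, memA', memA, Finset.mem_filter, Finset.mem_insert,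
        Finset.mem_singleton]
      constructor
      · rintro ⟨h, h0, h1⟩
        rcases eq_or_lt_of_le h0 with e | e
        · right; exact ⟨Or.inl e.symm, h⟩
        rcases eq_or_lt_of_le h1 with e' | e'
        · right; exact ⟨Or.inr e', h⟩
        left; exact ⟨h, e, e'⟩
      · rintro (⟨h, h0, h1⟩ | ⟨h | h, h'⟩)
        · exact ⟨h, h0.le, h1.le⟩
        · exact ⟨h', by rw [h], by rw [h]; norm_num⟩
        · exact ⟨h', by rw [h]; norm_num, by rw [h]⟩
    rw [h3, Finset.card_union_of_disjoint]
    · congr 1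
      rw [Finset.filter_insert, Finset.filter_singleton]
      unfold bd
      by_cases c0 : f.eval 0 = 0 <;> by_cases c1 : f.eval 1 = 0 <;> simp [c0, c1]
    · rw [Finset.disjoint_left]
      intro x hx hx'
      rw [memA] at hx
      rw [Finset.mem_filter, Finset.mem_insert, Finset.mem_singleton] at hx'
      rcases hx'.1 with h | h
      · linarith
      · linarith
  have h3 : Z f = ∑ x ∈ A, f.rootMultiplicity x :=
    Z_eq_sum f A (fun x hx => ((memA x).1 hx).2) fun x _ hx h0 h1 => (memA x).2 ⟨hx, h0, h1⟩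
  have hBA : B \ A = B \ A' := by
    ext x
    rw [Finset.mem_sdiff, Finset.mem_sdiff, memA, memA', memB]
    constructor
    · rintro ⟨h, h'⟩
      exact ⟨h, fun hh => h' ⟨hh.1, h.2⟩⟩
    · rintro ⟨h, h'⟩
      exact ⟨h, fun hh => h' ⟨hh.1, hh.2.1.le, hh.2.2.le⟩⟩
  have h4 : Z (derivative f) = ∑ x ∈ A ∪ B, (derivative f).rootMultiplicity x := by
    refine Z_eq_sum _ _ ?_ ?_
    · intro x hx
      rcases Finset.mem_union.1 hx with h | h
      · exact ((memA x).1 h).2
      · exact ((memB x).1 h).2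
    · intro x _ hx h0 h1
      exact Finset.mem_union_right _ ((memB x).2 ⟨hx, h0, h1⟩)
  have h5 : ∑ x ∈ A ∪ B, (derivative f).rootMultiplicity x =
      ∑ x ∈ A, (derivative f).rootMultiplicity x +
        ∑ x ∈ B \ A, (derivative f).rootMultiplicity x := by
    rw [← Finset.union_sdiff_self_eq_union, Finset.sum_union Finset.disjoint_sdiff]
  have h6 : (B \ A').card ≤ ∑ x ∈ B \ A, (derivative f).rootMultiplicity x := by
    rw [← hBA, Finset.card_eq_sum_ones]
    refine Finset.sum_le_sum fun x hx => ?_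
    have := (memB x).1 (Finset.mem_sdiff.1 hx).1
    exact (rootMultiplicity_pos hf').2 this.1
  have h7 : ∑ x ∈ A, f.rootMultiplicity x ≤ ∑ x ∈ A, (derivative f).rootMultiplicity x + A.card := by
    rw [Finset.card_eq_sum_ones, ← Finset.sum_add_distrib]
    refine Finset.sum_le_sum fun x _ => ?_
    have := rootMultiplicity_sub_one_le_derivative_rootMultiplicity f x
    omega
  omega

/-- Iterated Rolle. -/
lemma rolle_iter (f : ℝ[X]) (M : ℕ) (hf : derivative^[M] f ≠ 0) :
    Z f + ∑ a ∈ Finset.range M, bd (derivative^[a] f) ≤ Z (derivative^[M] f) + M := by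
  induction M with
  | zero => simp
  | succ M ih =>
    rw [Function.iterate_succ_apply'] at hf ⊢
    have h1 : derivative^[M] f ≠ 0 := ne_of_apply_ne derivative (by rwa [derivative_zero])
    have h2 := ih h1
    have h3 := rolle _ hf
    rw [Finset.sum_range_succ]
    omega

end Pool.Agent.TH220.Berg
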