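import Pool.Agent.TH220.BergA

set_option autoImplicit false

/-!
The Chebyshev system `Im (1 + ω s)^(r + N i)`.
-/

namespace Pool.Agent.TH220.Berg

open Polynomial

/-- the real polynomial `Im (ω^c (1 + ω s)^n)` -/
noncomputable def g (ω : ℂ) (n c : ℕ) : ℝ[X] :=
  ∑ l ∈ Finset.range (n + 1), monomial l ((n.choose l : ℝ) * (ω ^ (l + c)).im)

lemma g_coeff (ω : ℂ) (n c l : ℕ) : (g ω n c).coeff l = (n.choose l : ℝ) * (ω ^ (l + c)).im := by
  unfold g
  rw [finsetSum_coeff]
  simp only [coeff_monomial]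
  rw [Finset.sum_ite_eq' (Finset.range (n + 1)) l]
  split_ifs with h
  · rfl
  · rw [Finset.mem_range] at h
    rw [Nat.choose_eq_zero_of_lt (by omega)]; simp

lemma g_eval (ω : ℂ) (n c : ℕ) (s : ℝ) :
    (g ω n c).eval s = (ω ^ c * (1 + ω * s) ^ n).im := by
  unfold g
  rw [eval_finsetSum, add_comm (1 : ℂ), add_pow, Finset.mul_sum, Complex.im_sum]
  refine Finset.sum_congr rfl fun l _ => ?_
  rw [eval_monomial]
  have e : ω ^ c * ((ω * (s : ℂ)) ^ l * 1 ^ (n - l) * (n.choose l : ℂ)) =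
      (((n.choose l : ℝ) * s ^ l : ℝ) : ℂ) * ω ^ (l + c) := by
    push_cast
    rw [one_pow, mul_pow, pow_add]
    ring
  rw [e, Complex.im_ofReal_mul]
  ring

lemma g_derivative (ω : ℂ) (n c : ℕ) :
    derivative (g ω n c) = C (n : ℝ) * g ω (n - 1) (c + 1) := by
  ext l
  rw [coeff_derivative, coeff_C_mul, g_coeff, g_coeff]
  rcases n with _ | n
  · simp [Nat.choose_eq_zero_of_lt (Nat.succ_pos l)]
  · have h := Nat.add_one_mul_choose_eq n l
    have h' : ((n : ℝ) + 1) * (n.choose l : ℝ) = ((n + 1).choose (l + 1) : ℝ) * ((l : ℝ) + 1) := by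
      exact_mod_cast h
    have e1 : l + 1 + c = l + (c + 1) := by ring
    rw [Nat.add_sub_cancel, e1]
    push_cast
    rw [← mul_assoc, h']
    ring

lemma g_iterate (ω : ℂ) (n a : ℕ) :
    derivative^[a] (g ω n 0) = C (n.descFactorial a : ℝ) * g ω (n - a) a := by
  induction a with
  | zero => simp
  | succ a ih =>
    rw [Function.iterate_succ_apply', ih, derivative_C_mul, g_derivative, Nat.descFactorial_succ,
      Nat.sub_sub, ← mul_assoc, ← C_mul]
    push_cast
    rw [mul_comm ((n.descFactorial a : ℕ) : ℝ)]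

/-- linear combinations -/
noncomputable def H (ω : ℂ) (N r j : ℕ) (c : ℕ → ℝ) : ℝ[X] :=
  ∑ i ∈ Finset.range j, C (c i) * g ω (r + N * i) 0

lemma H_iterate (ω : ℂ) (N r j : ℕ) (c : ℕ → ℝ) (a : ℕ) :
    derivative^[a] (H ω N r j c) = ∑ i ∈ Finset.range j,
      C (c i * ((r + N * i).descFactorial a : ℝ)) * g ω (r + N * i - a) a := by
  unfold H
  rw [iterate_derivative_sum]
  refine Finset.sum_congr rfl fun i _ => ?_
  rw [iterate_derivative_C_mul, g_iterate, ← mul_assoc, ← C_mul]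

/-- The properties of `(ω, N)` that are used. -/
structure Good (ω : ℂ) (N : ℕ) : Prop where
  hN : 0 < N
  hω : ω ^ N = 1
  hc : (starRingEnd ℂ) ω * ω = 1
  him : N - 2 ≤ ((Finset.range N).filter fun a => (ω ^ a).im = 0).card
  hpos : ∀ r, 1 ≤ r → r ≤ N → ∀ s : ℝ, 0 < s → s < 1 → 0 < (g ω r 0).eval s

lemma g_period {ω : ℂ} {N : ℕ} (hG : Good ω N) (n : ℕ) : g ω n N = g ω n 0 := by
  ext l
  rw [g_coeff, g_coeff, pow_add, hG.hω, mul_one, add_zero]

lemma H_iterate_N {ω : ℂ} {N : ℕ} (hG : Good ω N) (r : ℕ) (hr1 : 1 ≤ r) (hr : r ≤ N) (j : ℕ)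
    (c : ℕ → ℝ) :
    derivative^[N] (H ω N r (j + 1) c) =
      H ω N r j fun i => c (i + 1) * ((r + N * (i + 1)).descFactorial N : ℝ) := by
  rw [H_iterate, Finset.sum_range_succ']
  have h0 : C (c 0 * ((r + N * 0).descFactorial N : ℝ)) * g ω (r + N * 0 - N) N = 0 := by
    rw [mul_zero, add_zero]
    rcases Nat.lt_or_eq_of_le hr with h | h
    · rw [Nat.descFactorial_eq_zero_iff_lt.2 h]; simp
    · rw [h, Nat.sub_self, g_period hG]
      have : g ω 0 0 = 0 := by
        unfold g; simp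
      rw [this, mul_zero]
  rw [h0, add_zero]
  unfold H
  refine Finset.sum_congr rfl fun i _ => ?_
  have e : r + N * (i + 1) - N = r + N * i := by
    rw [mul_add, mul_one, ← add_assoc, Nat.add_sub_cancel]
  rw [e, g_period hG]

lemma eval_zero_of_im {ω : ℂ} {N : ℕ} (r j : ℕ) (c : ℕ → ℝ) (a : ℕ)
    (ha : (ω ^ a).im = 0) : (derivative^[a] (H ω N r j c)).eval 0 = 0 := by
  rw [H_iterate, eval_finsetSum]
  refine Finset.sum_eq_zero fun i _ => ?_
  rw [eval_mul, g_eval]
  simp [ha]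

lemma eval_one {ω : ℂ} {N : ℕ} (hG : Good ω N) (r : ℕ) (hr : r ≤ N) (j : ℕ) (c : ℕ → ℝ) :
    (derivative^[N - r] (H ω N r j c)).eval 1 = 0 := by
  rw [H_iterate, eval_finsetSum]
  refine Finset.sum_eq_zero fun i _ => ?_
  rw [eval_mul, g_eval]
  rcases Nat.lt_or_ge (r + N * i) (N - r) with h | h
  · rw [Nat.descFactorial_eq_zero_iff_lt.2 h]; simp
  · obtain ⟨m, hm⟩ := Nat.exists_eq_add_of_le h
    have hm' : r + N * i - (N - r) = m := by omega
    rw [hm']
    have him : (ω ^ (N - r) * (1 + ω * ((1 : ℝ) : ℂ)) ^ m).im = 0 := by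
      rw [Complex.ofReal_one, mul_one]
      have hpow : ω ^ (m + (N - r) + (N - r)) = 1 := by
        have : m + (N - r) + (N - r) = N * (i + 1) := by
          rw [mul_add, mul_one]; omega
        rw [this, pow_mul, hG.hω, one_pow]
      rw [← Complex.conj_eq_iff_im]
      rw [map_mul, map_pow, map_pow, map_add, map_one]
      have hc := hG.hc
      calc (starRingEnd ℂ) ω ^ (N - r) * (1 + (starRingEnd ℂ) ω) ^ m
          = (starRingEnd ℂ) ω ^ (N - r) * (1 + (starRingEnd ℂ) ω) ^ m *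
              ω ^ (m + (N - r) + (N - r)) := by rw [hpow, mul_one]
        _ = ((starRingEnd ℂ) ω * ω) ^ (N - r) * ((1 + (starRingEnd ℂ) ω) * ω) ^ m *
              ω ^ (N - r) := by
            rw [pow_add, pow_add, mul_pow, mul_pow]; ring
        _ = ω ^ (N - r) * (1 + ω) ^ m := by
            rw [add_mul, hc, one_pow, one_mul, one_mul]; ring
    rw [him, mul_zero]

lemma bd_sum {ω : ℂ} {N : ℕ} (hG : Good ω N) (r : ℕ) (hr1 : 1 ≤ r) (hr : r ≤ N) (j : ℕ)
    (c : ℕ → ℝ) :
    N ≤ ∑ a ∈ Finset.range N, bd (derivative^[a] (H ω N r j c)) + 1 := by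
  classical
  unfold bd
  rw [Finset.sum_add_distrib]
  have h1 : ((Finset.range N).filter fun a => (ω ^ a).im = 0).card ≤
      ∑ a ∈ Finset.range N, (if (derivative^[a] (H ω N r j c)).eval 0 = 0 then 1 else 0) := by
    rw [Finset.card_filter]
    refine Finset.sum_le_sum fun a _ => ?_
    split_ifs with h h'
    · exact le_rfl
    · exact absurd (eval_zero_of_im r j c a h) h'
    · exact Nat.zero_le _
    · exact le_rfl
  have h2 : 1 ≤ ∑ a ∈ Finset.range N,
      (if (derivative^[a] (H ω N r j c)).eval 1 = 0 then 1 else 0) := by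
    refine le_trans ?_ (Finset.single_le_sum (f := fun a =>
      (if (derivative^[a] (H ω N r j c)).eval 1 = 0 then 1 else 0)) (fun a _ => Nat.zero_le _)
      (Finset.mem_range.2 (show N - r < N by have := hG.hN; omega)))
    show 1 ≤ (if (derivative^[N - r] (H ω N r j c)).eval 1 = 0 then 1 else 0)
    rw [if_pos (eval_one hG r hr j c)]
  have := hG.him
  omega

/-- The system is a Chebyshev system on `(0,1)` (zeros counted with multiplicity). -/
theorem tsys {ω : ℂ} {N : ℕ} (hG : Good ω N) (r : ℕ) (hr1 : 1 ≤ r) (hr : r ≤ N) (j : ℕ) :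
    ∀ c : ℕ → ℝ, c j ≠ 0 → H ω N r (j + 1) c ≠ 0 ∧ Z (H ω N r (j + 1) c) ≤ j := by
  classical
  induction j with
  | zero =>
    intro c hc
    have h1 : H ω N r (0 + 1) c = C (c 0) * g ω r 0 := by
      unfold H; simp
    rw [h1]
    have hval : ∀ s : ℝ, 0 < s → s < 1 → (C (c 0) * g ω r 0).eval s ≠ 0 := by
      intro s hs0 hs1
      rw [eval_mul, eval_C]
      exact mul_ne_zero hc (hG.hpos r hr1 hr s hs0 hs1).ne'
    have hne : C (c 0) * g ω r 0 ≠ 0 := by
      intro h
      have := hval (1 / 2) (by norm_num) (by norm_num)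
      rw [h] at this
      simp at this
    refine ⟨hne, ?_⟩
    unfold Z
    rw [Nat.le_zero, Multiset.card_eq_zero, Multiset.filter_eq_nil]
    intro x hx h
    rw [mem_roots hne] at hx
    exact hval x h.1 h.2 hx
  | succ j ih =>
    intro c hc
    have h1 := H_iterate_N hG r hr1 hr (j + 1) c
    have h2 := ih (fun i => c (i + 1) * ((r + N * (i + 1)).descFactorial N : ℝ)) (by
      refine mul_ne_zero hc ?_
      have : 0 < (r + N * (j + 1)).descFactorial N := by
        rw [Nat.pos_iff_ne_zero, Ne, Nat.descFactorial_eq_zero_iff_lt, not_lt]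
        nlinarith
      exact_mod_cast this.ne')
    rw [← h1] at h2
    have h3 := rolle_iter _ N h2.1
    have h4 := bd_sum hG r hr1 hr (j + 1 + 1) c
    refine ⟨?_, by omega⟩
    intro h
    rw [h] at h2
    have : derivative^[N] (0 : ℝ[X]) = 0 := iterate_derivative_zero
    exact h2.1 this

/-- Version for arbitrary nonzero coefficient vectors. -/
theorem tsys' {ω : ℂ} {N : ℕ} (hG : Good ω N) (r : ℕ) (hr1 : 1 ≤ r) (hr : r ≤ N) (j : ℕ)
    (c : ℕ → ℝ) (hc : ∃ i ≤ j, c i ≠ 0) :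
    H ω N r (j + 1) c ≠ 0 ∧ Z (H ω N r (j + 1) c) ≤ j := by
  induction j with
  | zero =>
    obtain ⟨i, hi, hci⟩ := hc
    have : i = 0 := by omega
    rw [this] at hci
    exact tsys hG r hr1 hr 0 c hci
  | succ j ih =>
    by_cases h : c (j + 1) = 0
    · have h1 : H ω N r (j + 1 + 1) c = H ω N r (j + 1) c := by
        unfold H
        rw [Finset.sum_range_succ, h]; simp
      rw [h1]
      have h2 : ∃ i ≤ j, c i ≠ 0 := by
        obtain ⟨i, hi, hci⟩ := hc
        refine ⟨i, ?_, hci⟩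
        rcases Nat.lt_or_eq_of_le hi with h3 | h3
        · omega
        · rw [h3] at hci; exact absurd h hci
      have h3 := ih h2
      exact ⟨h3.1, by omega⟩
    · exact tsys hG r hr1 hr (j + 1) c h

end Pool.Agent.TH220.Berg
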