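import Pool.Agent.TH220.BergB

set_option autoImplicit false

/-!
Sign changes of polynomials orthogonal to the Chebyshev system.
-/

namespace Pool.Agent.TH220.Berg

open Polynomial

/-- constant (weak) sign on `(0,1)` -/
def Cs (f : ℝ[X]) : Prop :=
  (∀ x : ℝ, 0 < x → x < 1 → 0 ≤ f.eval x) ∨ (∀ x : ℝ, 0 < x → x < 1 → f.eval x ≤ 0)

lemma cs_of_no_root (f : ℝ[X]) (h : ∀ x : ℝ, 0 < x → x < 1 → f.eval x ≠ 0) : Cs f := by
  by_contra hcon
  unfold Cs at hcon
  push Not at hcon
  obtain ⟨⟨x, hx0, hx1, hx⟩, ⟨y, hy0, hy1, hy⟩⟩ := hcon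
  have h1 := intermediate_value_uIcc (a := x) (b := y) (f := fun t => f.eval t)
    (f.continuous.continuousOn)
  have h2 : (0 : ℝ) ∈ Set.uIcc (f.eval x) (f.eval y) := by
    rw [Set.mem_uIcc]; left; exact ⟨hx.le, hy.le⟩
  obtain ⟨z, hz, hz0⟩ := h1 h2
  rw [Set.mem_uIcc] at hz
  refine h z ?_ ?_ hz0
  · rcases hz with h | h <;> linarith [h.1, h.2]
  · rcases hz with h | h <;> linarith [h.1, h.2]

lemma sign_struct (n : ℕ) : ∀ u : ℝ[X], u ≠ 0 → u.natDegree ≤ n →
    ∃ D : Finset ℝ, (∀ x ∈ D, 0 < x ∧ x < 1) ∧ ∃ u1 : ℝ[X],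
      u = (∏ x ∈ D, (X - C x)) * u1 ∧ Cs u1 := by
  classical
  induction n with
  | zero =>
    intro u hu hd
    refine ⟨∅, by simp, u, by simp, ?_⟩
    apply cs_of_no_root
    intro x _ _ hx
    have h1 := eq_C_of_natDegree_le_zero hd
    rw [h1, eval_C] at hx
    rw [h1, hx, C_0] at hu
    exact hu rfl
  | succ n ih =>
    intro u hu hd
    by_cases h : ∀ x : ℝ, 0 < x → x < 1 → u.eval x ≠ 0
    · exact ⟨∅, by simp, u, by simp, cs_of_no_root u h⟩
    push Not at h
    obtain ⟨x0, h0, h1, hx0⟩ := h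
    obtain ⟨v, hv⟩ := dvd_iff_isRoot.2 (show u.IsRoot x0 from hx0)
    have hv0 : v ≠ 0 := by
      rintro rfl
      rw [mul_zero] at hv; exact hu hv
    have hdv : v.natDegree ≤ n := by
      rw [hv, natDegree_mul (X_sub_C_ne_zero x0) hv0, natDegree_X_sub_C] at hd
      omega
    obtain ⟨D, hD, u1, hu1, hcs⟩ := ih v hv0 hdv
    by_cases hx : x0 ∈ D
    · refine ⟨D.erase x0, fun x hx => hD x (Finset.mem_of_mem_erase hx), (X - C x0) ^ 2 * u1,
        ?_, ?_⟩
      · rw [hv, hu1, ← Finset.mul_prod_erase D (fun x => (X - C x)) hx]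
        ring
      · rcases hcs with h | h
        · left
          intro x hx0 hx1
          rw [eval_mul, eval_pow]
          exact mul_nonneg (sq_nonneg _) (h x hx0 hx1)
        · right
          intro x hx0 hx1
          rw [eval_mul, eval_pow]
          exact mul_nonpos_of_nonneg_of_nonpos (sq_nonneg _) (h x hx0 hx1)
    · refine ⟨insert x0 D, ?_, u1, ?_, hcs⟩
      · intro x hx
        rcases Finset.mem_insert.1 hx with h | h
        · rw [h]; exact ⟨h0, h1⟩
        · exact hD x h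
      · rw [Finset.prod_insert hx, hv, hu1]; ring

lemma Z_mul (f h : ℝ[X]) (hne : f * h ≠ 0) : Z (f * h) = Z f + Z h := by
  classical
  unfold Z
  rw [roots_mul hne, Multiset.filter_add, Multiset.card_add]

/-- factor out a set of distinct roots in `(0,1)` when there are no other ones -/
lemma factor_out (f : ℝ[X]) (hf : f ≠ 0) (S : Finset ℝ) (hS : ∀ s ∈ S, 0 < s ∧ s < 1)
    (hroot : ∀ s ∈ S, f.eval s = 0) (hZ : Z f ≤ S.card) :
    ∃ h : ℝ[X], f = (∏ s ∈ S, (X - C s)) * h ∧ Cs h := by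
  classical
  have h1 : S.val ≤ f.roots := by
    rw [Multiset.le_iff_subset S.nodup]
    intro s hs
    rw [mem_roots hf]
    exact hroot s hs
  rw [← Multiset.prod_X_sub_C_dvd_iff_le_roots hf] at h1
  obtain ⟨h, hh⟩ := h1
  have hh' : f = (∏ s ∈ S, (X - C s)) * h := hh
  refine ⟨h, hh', ?_⟩
  have h2 : Z (∏ s ∈ S, (X - C s)) = S.card := by
    unfold Z
    rw [roots_prod_X_sub_C, Multiset.filter_eq_self.2 hS]
    rfl
  have hne : (∏ s ∈ S, (X - C s)) * h ≠ 0 := by rw [← hh']; exact hf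
  have h3 := Z_mul _ _ hne
  rw [← hh', h2] at h3
  have h4 : Z h = 0 := by omega
  apply cs_of_no_root
  intro x h0 h1 hx
  unfold Z at h4
  rw [Multiset.card_eq_zero, Multiset.filter_eq_nil] at h4
  have hh0 : h ≠ 0 := right_ne_zero_of_mul hne
  exact h4 x ((mem_roots hh0).2 hx) ⟨h0, h1⟩

lemma zero_of_integral_zero (f : ℝ[X]) (hf : ∀ x : ℝ, 0 < x → x < 1 → 0 ≤ f.eval x)
    (hI : ∫ t in (0 : ℝ)..1, f.eval t = 0) : f = 0 := by
  by_contra hne
  have hcl : ∀ x ∈ Set.Icc (0 : ℝ) 1, 0 ≤ f.eval x := by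
    have h1 : IsClosed {x : ℝ | 0 ≤ f.eval x} := isClosed_le continuous_const f.continuous
    have h2 : Set.Ioo (0 : ℝ) 1 ⊆ {x : ℝ | 0 ≤ f.eval x} := fun x hx => hf x hx.1 hx.2
    have h3 := closure_minimal h2 h1
    rw [closure_Ioo (by norm_num)] at h3
    exact h3
  have hex : ∃ c ∈ Set.Ioo (0 : ℝ) 1, f.eval c ≠ 0 := by
    by_contra hcon
    push Not at hcon
    apply hne
    apply eq_zero_of_infinite_isRoot
    exact Set.Infinite.mono (fun x hx => hcon x hx) (Set.Ioo_infinite (by norm_num))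
  obtain ⟨c, hc, hc0⟩ := hex
  have hpos : 0 < f.eval c := lt_of_le_of_ne (hf c hc.1 hc.2) (Ne.symm hc0)
  have := intervalIntegral.integral_pos (a := 0) (b := 1) (f := fun t => f.eval t) one_pos
    f.continuous.continuousOn (fun x hx => hcl x ⟨hx.1.le, hx.2⟩) ⟨c, ⟨hc.1.le, hc.2.le⟩, hpos⟩
  linarith

lemma zero_of_integral_zero' (f : ℝ[X]) (hf : Cs f)
    (hI : ∫ t in (0 : ℝ)..1, f.eval t = 0) : f = 0 := by
  rcases hf with h | h
  · exact zero_of_integral_zero f h hI
  · have h1 := zero_of_integral_zero (-f) (fun x h0 h1 => by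
      rw [eval_neg]; have := h x h0 h1; linarith) (by
      simp only [eval_neg]
      rw [intervalIntegral.integral_neg, hI, neg_zero])
    exact neg_eq_zero.1 h1

lemma Cs.mul {f h : ℝ[X]} (hf : Cs f) (hh : Cs h) : Cs (f * h) := by
  rcases hf with a | a <;> rcases hh with b | b
  · left; intro x h0 h1; rw [eval_mul]; exact mul_nonneg (a x h0 h1) (b x h0 h1)
  · right; intro x h0 h1; rw [eval_mul]; exact mul_nonpos_of_nonneg_of_nonpos (a x h0 h1) (b x h0 h1)
  · right; intro x h0 h1; rw [eval_mul]; exact mul_nonpos_of_nonpos_of_nonneg (a x h0 h1) (b x h0 h1)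
  · left; intro x h0 h1; rw [eval_mul]; exact mul_nonneg_of_nonpos_of_nonpos (a x h0 h1) (b x h0 h1)

lemma Cs.prod {ι : Type*} (s : Finset ι) (f : ι → ℝ[X]) (h : ∀ i ∈ s, Cs (f i)) :
    Cs (∏ i ∈ s, f i) := by
  classical
  induction s using Finset.induction_on with
  | empty =>
    left; intro x _ _; simp
  | insert a s ha ih =>
    rw [Finset.prod_insert ha]
    exact Cs.mul (h a (Finset.mem_insert_self a s))
      (ih fun i hi => h i (Finset.mem_insert_of_mem hi))

lemma Cs.comp_pow {f : ℝ[X]} (hf : Cs f) {N : ℕ} (hN : 0 < N) : Cs (f.comp (X ^ N)) := by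
  have key : ∀ x : ℝ, 0 < x → x < 1 → 0 < x ^ N ∧ x ^ N < 1 := fun x h0 h1 =>
    ⟨by positivity, pow_lt_one₀ h0.le h1 hN.ne'⟩
  rcases hf with a | a
  · left; intro x h0 h1; rw [eval_comp, eval_pow, eval_X]; exact a _ (key x h0 h1).1 (key x h0 h1).2
  · right; intro x h0 h1; rw [eval_comp, eval_pow, eval_X]; exact a _ (key x h0 h1).1 (key x h0 h1).2

lemma Cs.comp_refl {f : ℝ[X]} (hf : Cs f) : Cs (f.comp (1 - X)) := by
  rcases hf with a | a
  · left; intro x h0 h1; rw [eval_comp, eval_sub, Polynomial.eval_one, eval_X]; exact a _ (by linarith) (by linarith)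
  · right; intro x h0 h1; rw [eval_comp, eval_sub, Polynomial.eval_one, eval_X]; exact a _ (by linarith) (by linarith)

/-- the weighted orthogonality relations of order `j` -/
def Orth (ω : ℂ) (N k j : ℕ) (u : ℝ[X]) : Prop :=
  ∀ i < j, ∫ t in (0 : ℝ)..1, (X ^ k * u.comp (X ^ N) * (g ω (k + 1 + N * i) 0).comp (1 - X)).eval t = 0

lemma Orth.lin {ω : ℂ} {N k j : ℕ} {u : ℝ[X]} (h : Orth ω N k j u) (m : ℕ) (hm : m ≤ j)
    (c : ℕ → ℝ) :
    ∫ t in (0 : ℝ)..1, (X ^ k * u.comp (X ^ N) * (H ω N (k + 1) m c).comp (1 - X)).eval t = 0 := by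
  have e : ∀ t : ℝ, (X ^ k * u.comp (X ^ N) * (H ω N (k + 1) m c).comp (1 - X)).eval t =
      ∑ i ∈ Finset.range m, c i *
        (X ^ k * u.comp (X ^ N) * (g ω (k + 1 + N * i) 0).comp (1 - X)).eval t := by
    intro t
    unfold H
    simp only [eval_mul, eval_comp, eval_finsetSum, eval_C, Finset.mul_sum]
    refine Finset.sum_congr rfl fun i _ => ?_
    ring
  simp only [e]
  rw [intervalIntegral.integral_finsetSum]
  · refine Finset.sum_eq_zero fun i hi => ?_
    rw [intervalIntegral.integral_const_mul, h i (by have := Finset.mem_range.1 hi; omega), mul_zero]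
  · intro i _
    exact (continuous_const.mul (Polynomial.continuous _)).intervalIntegrable _ _

/-- Number of sign changes of a polynomial satisfying the orthogonality relations. -/
theorem orth_card {ω : ℂ} {N : ℕ} (hG : Good ω N) (k : ℕ) (hk : k < N) (j : ℕ) (u : ℝ[X])
    (hu : u ≠ 0) (h : Orth ω N k j u) (D : Finset ℝ) (hD : ∀ x ∈ D, 0 < x ∧ x < 1) (u1 : ℝ[X])
    (hu1 : u = (∏ x ∈ D, (X - C x)) * u1) (hcs : Cs u1) : j ≤ D.card := by
  classical
  by_contra hlt
  push Not at hlt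
  have hN := hG.hN
  -- the `N`-th roots
  set ρ : ℝ → ℝ := fun x => x ^ ((N : ℝ)⁻¹) with hρ
  have hρN : ∀ x : ℝ, 0 < x → ρ x ^ N = x := fun x hx => Real.rpow_inv_natCast_pow hx.le hN.ne'
  have hρ0 : ∀ x : ℝ, 0 < x → 0 < ρ x := fun x hx => Real.rpow_pos_of_pos hx _
  have hρ1 : ∀ x : ℝ, 0 < x → x < 1 → ρ x < 1 := fun x hx hx1 =>
    Real.rpow_lt_one hx.le hx1 (by positivity)
  set S : Finset ℝ := D.image fun x => 1 - ρ x with hS
  have hinj : Set.InjOn (fun x => 1 - ρ x) (D : Set ℝ) := by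
    intro x hx y hy hxy
    have h1 : ρ x = ρ y := by simpa using hxy
    rw [← hρN x (hD x hx).1, ← hρN y (hD y hy).1, h1]
  have hScard : S.card = D.card := Finset.card_image_of_injOn hinj
  -- linear algebra
  let L : (Fin (D.card + 1) → ℝ) →ₗ[ℝ] (S → ℝ) :=
    { toFun := fun c s => ∑ i, c i * (g ω (k + 1 + N * i) 0).eval (s : ℝ)
      map_add' := by
        intro a b; funext s
        simp only [Pi.add_apply, add_mul, Finset.sum_add_distrib]
      map_smul' := by
        intro a b; funext s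
        simp only [Pi.smul_apply, smul_eq_mul, RingHom.id_apply, Finset.mul_sum, mul_assoc] }
  have hker : LinearMap.ker L ≠ ⊥ := by
    apply LinearMap.ker_ne_bot_of_finrank_lt
    rw [Module.finrank_fintype_fun_eq_card, Module.finrank_fintype_fun_eq_card, Fintype.card_coe,
      Fintype.card_fin, hScard]
    exact Nat.lt_succ_self _
  obtain ⟨c0, hc0, hc0ne⟩ := Submodule.exists_mem_ne_zero_of_ne_bot hker
  rw [LinearMap.mem_ker] at hc0
  set c : ℕ → ℝ := fun i => if h : i < D.card + 1 then c0 ⟨i, h⟩ else 0 with hc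
  have hcv : ∀ i : Fin (D.card + 1), c i = c0 i := by
    intro i
    simp only [hc]
    rw [dif_pos i.2]
  have hcne : ∃ i ≤ D.card, c i ≠ 0 := by
    by_contra hcon
    push Not at hcon
    apply hc0ne
    funext i
    have h1 := hcon i (Nat.lt_succ_iff.1 i.2)
    rw [hcv] at h1
    exact h1
  obtain ⟨hHne, hHZ⟩ := tsys' hG (k + 1) (by omega) (by omega) D.card c hcne
  have hroot : ∀ s ∈ S, (H ω N (k + 1) (D.card + 1) c).eval s = 0 := by
    intro s hs
    have h1 := congrFun hc0 ⟨s, hs⟩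
    have h2 : ∑ i : Fin (D.card + 1), c0 i * (g ω (k + 1 + N * i) 0).eval s = 0 := h1
    unfold H
    rw [eval_finsetSum, ← h2, Finset.sum_range]
    refine Finset.sum_congr rfl fun i _ => ?_
    rw [eval_mul, eval_C, hcv]
  have hS01 : ∀ s ∈ S, 0 < s ∧ s < 1 := by
    intro s hs
    rw [hS, Finset.mem_image] at hs
    obtain ⟨x, hx, rfl⟩ := hs
    have h0 := hρ0 x (hD x hx).1
    have h1 := hρ1 x (hD x hx).1 (hD x hx).2
    exact ⟨by linarith, by linarith⟩
  obtain ⟨h1, hh1, hcs1⟩ := factor_out _ hHne S hS01 hroot (by rw [hScard]; exact hHZ)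
  -- the product has constant sign
  set F : ℝ[X] := X ^ k * u.comp (X ^ N) * (H ω N (k + 1) (D.card + 1) c).comp (1 - X) with hF
  have hFI := h.lin (D.card + 1) hlt c
  have hFe : F = (X ^ k * (u1.comp (X ^ N)) * (h1.comp (1 - X))) *
      ∏ x ∈ D, ((X ^ N - C x) * (1 - X - C (1 - ρ x))) := by
    rw [hF, hh1, hu1, mul_comp, mul_comp, prod_comp, prod_comp, Finset.prod_mul_distrib, hS,
      Finset.prod_image hinj]
    simp only [sub_comp, X_comp, C_comp]
    ring
  have hFcs : Cs F := by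
    rw [hFe]
    refine Cs.mul (Cs.mul (Cs.mul ?_ (hcs.comp_pow hN)) hcs1.comp_refl) (Cs.prod _ _ ?_)
    · left; intro x hx0 _; rw [eval_pow, eval_X]; positivity
    · intro x hx
      right
      intro t ht0 ht1
      simp only [eval_mul, eval_sub, eval_pow, eval_X, eval_C, Polynomial.eval_one]
      have hx0 := (hD x hx).1
      have e1 := hρN x hx0
      rcases le_total t (ρ x) with h2 | h2
      · have h3 : t ^ N ≤ ρ x ^ N := pow_le_pow_left₀ ht0.le h2 N
        rw [e1] at h3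
        exact mul_nonpos_of_nonpos_of_nonneg (by linarith) (by linarith)
      · have h3 : ρ x ^ N ≤ t ^ N := pow_le_pow_left₀ (hρ0 x hx0).le h2 N
        rw [e1] at h3
        exact mul_nonpos_of_nonneg_of_nonpos (by linarith) (by linarith)
  have hF0 := zero_of_integral_zero' F hFcs hFI
  rw [hF] at hF0
  have hne1 : u.comp (X ^ N) ≠ 0 := by
    intro h0
    apply hu
    apply eq_zero_of_infinite_isRoot
    refine Set.Infinite.mono (s := Set.Ioo (0 : ℝ) 1) ?_ (Set.Ioo_infinite (by norm_num))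
    intro x hx
    have h2 : (u.comp (X ^ N)).eval (ρ x) = 0 := by rw [h0, eval_zero]
    rw [eval_comp, eval_pow, eval_X, hρN x hx.1] at h2
    exact h2
  have hne2 : (H ω N (k + 1) (D.card + 1) c).comp (1 - X) ≠ 0 := by
    intro h0
    apply hHne
    apply eq_zero_of_infinite_isRoot
    refine Set.Infinite.mono (s := Set.Ioo (0 : ℝ) 1) ?_ (Set.Ioo_infinite (by norm_num))
    intro x _
    have h2 : ((H ω N (k + 1) (D.card + 1) c).comp (1 - X)).eval (1 - x) = 0 := by
      rw [h0, eval_zero]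
    rw [eval_comp, eval_sub, Polynomial.eval_one, eval_X, sub_sub_cancel] at h2
    exact h2
  exact mul_ne_zero (mul_ne_zero (pow_ne_zero _ X_ne_zero) hne1) hne2 hF0

end Pool.Agent.TH220.Berg
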