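import Pool.Agent.TH220.BergC

set_option autoImplicit false

/-!
From one-dimensional orthogonality to real, simple, interlacing zeros.
-/

namespace Pool.Agent.TH220.Berg

open Polynomial

lemma Orth.mono {ω : ℂ} {N k j j' : ℕ} {u : ℝ[X]} (h : Orth ω N k j u) (hj : j' ≤ j) :
    Orth ω N k j' u := fun i hi => h i (lt_of_lt_of_le hi hj)

lemma Orth.comb {ω : ℂ} {N k j : ℕ} {u v : ℝ[X]} (hu : Orth ω N k j u) (hv : Orth ω N k j v)
    (a b : ℝ) : Orth ω N k j (C a * u + C b * v) := by
  intro i hi
  have e : ∀ t : ℝ, (X ^ k * (C a * u + C b * v).comp (X ^ N) *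
      (g ω (k + 1 + N * i) 0).comp (1 - X)).eval t =
      a * (X ^ k * u.comp (X ^ N) * (g ω (k + 1 + N * i) 0).comp (1 - X)).eval t +
      b * (X ^ k * v.comp (X ^ N) * (g ω (k + 1 + N * i) 0).comp (1 - X)).eval t := by
    intro t
    simp only [eval_mul, eval_comp, eval_add, eval_C]
    ring
  simp only [e]
  rw [intervalIntegral.integral_add, intervalIntegral.integral_const_mul,
    intervalIntegral.integral_const_mul, hu i hi, hv i hi]
  · simp
  · exact (continuous_const.mul (Polynomial.continuous _)).intervalIntegrable _ _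
  · exact (continuous_const.mul (Polynomial.continuous _)).intervalIntegrable _ _

/-- A monic polynomial of degree `n` with `n` sign changes. -/
lemma split_of_orth {ω : ℂ} {N : ℕ} (hG : Good ω N) (k : ℕ) (hk : k < N) (n : ℕ) (Q : ℝ[X])
    (hQ : Q.Monic) (hd : Q.natDegree = n) (h : Orth ω N k n Q) :
    ∃ D : Finset ℝ, (∀ x ∈ D, 0 < x ∧ x < 1) ∧ D.card = n ∧ Q = ∏ x ∈ D, (X - C x) := by
  obtain ⟨D, hD, u1, hu1, hcs⟩ := sign_struct n Q hQ.ne_zero hd.le
  have h1 := orth_card hG k hk n Q hQ.ne_zero h D hD u1 hu1 hcs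
  have h2 : (∏ x ∈ D, (X - C x)).Monic := monic_prod_X_sub_C _ _
  have h3 : (∏ x ∈ D, (X - C x)).natDegree = D.card := by
    rw [natDegree_prod_of_monic _ _ fun x _ => monic_X_sub_C x]
    simp
  have hu10 : u1 ≠ 0 := by
    rintro rfl
    rw [mul_zero] at hu1
    exact hQ.ne_zero hu1
  have h4 : Q.natDegree = D.card + u1.natDegree := by
    rw [hu1, natDegree_mul h2.ne_zero hu10, h3]
  have h5 : D.card = n := by omega
  refine ⟨D, hD, h5, ?_⟩
  have h6 : u1.Monic := by
    have := hQ
    rw [hu1] at this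
    exact h2.of_mul_monic_left this
  have h7 : u1.natDegree = 0 := by omega
  have h8 : u1 = 1 := h6.natDegree_eq_zero.1 h7
  rw [hu1, h8, mul_one]

/-- The Wronskian does not vanish. -/
lemma wronskian_ne {ω : ℂ} {N : ℕ} (hG : Good ω N) (k : ℕ) (hk : k < N) (j : ℕ) (q Q : ℝ[X])
    (hq : q.Monic) (hqd : q.natDegree = j) (hQ : Q.Monic) (hQd : Q.natDegree = j + 1)
    (hqo : Orth ω N k j q) (hQo : Orth ω N k j Q) (x0 : ℝ) :
    (derivative q).eval x0 * Q.eval x0 - q.eval x0 * (derivative Q).eval x0 ≠ 0 := by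
  intro hW
  have hex : ∃ a b : ℝ, (a ≠ 0 ∨ b ≠ 0) ∧ a * q.eval x0 + b * Q.eval x0 = 0 ∧
      a * (derivative q).eval x0 + b * (derivative Q).eval x0 = 0 := by
    by_cases h1 : Q.eval x0 ≠ 0 ∨ q.eval x0 ≠ 0
    · refine ⟨Q.eval x0, - q.eval x0, ?_, by ring, by linarith⟩
      rcases h1 with h | h
      · exact Or.inl h
      · exact Or.inr (neg_ne_zero.2 h)
    · push Not at h1
      by_cases h2 : (derivative Q).eval x0 ≠ 0 ∨ (derivative q).eval x0 ≠ 0
      · refine ⟨(derivative Q).eval x0, - (derivative q).eval x0, ?_, ?_, by ring⟩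
        · rcases h2 with h | h
          · exact Or.inl h
          · exact Or.inr (neg_ne_zero.2 h)
        · rw [h1.1, h1.2]; ring
      · push Not at h2
        refine ⟨1, 0, Or.inl one_ne_zero, ?_, ?_⟩
        · rw [h1.1, h1.2]; ring
        · rw [h2.1, h2.2]; ring
  obtain ⟨a, b, hab, h0, h0'⟩ := hex
  set u : ℝ[X] := C a * q + C b * Q with hu
  have hcj1 : u.coeff (j + 1) = b := by
    rw [hu, coeff_add, coeff_C_mul, coeff_C_mul, coeff_eq_zero_of_natDegree_lt (by omega : q.natDegree < j + 1)]
    have : Q.coeff (j + 1) = 1 := by rw [← hQd]; exact hQ.coeff_natDegree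
    rw [this]; ring
  have hune : u ≠ 0 := by
    intro h
    have hb : b = 0 := by rw [← hcj1, h, coeff_zero]
    rw [hb, C_0, zero_mul, add_zero] at hu
    rw [h] at hu
    have ha : a ≠ 0 := by
      rcases hab with h | h
      · exact h
      · exact absurd hb h
    have : C a * q ≠ 0 := mul_ne_zero (C_ne_zero.2 ha) hq.ne_zero
    exact this hu.symm
  have hud : u.natDegree ≤ j + 1 := by
    rw [hu]
    refine (natDegree_add_le _ _).trans (max_le ?_ ?_)
    · exact (natDegree_C_mul_le _ _).trans (by omega)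
    · exact (natDegree_C_mul_le _ _).trans (by omega)
  have hue : u.eval x0 = 0 := by rw [hu]; simpa using h0
  have hue' : (derivative u).eval x0 = 0 := by rw [hu]; simpa using h0'
  obtain ⟨D, hD, u1, hu1, hcs⟩ := sign_struct (j + 1) u hune hud
  have h1 := orth_card hG k hk j u hune (hqo.comb hQo a b) D hD u1 hu1 hcs
  have h2 : (∏ x ∈ D, (X - C x)).Monic := monic_prod_X_sub_C _ _
  have h3 : (∏ x ∈ D, (X - C x)).natDegree = D.card := by
    rw [natDegree_prod_of_monic _ _ fun x _ => monic_X_sub_C x]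
    simp
  have hu10 : u1 ≠ 0 := by
    intro h
    rw [h, mul_zero] at hu1
    exact hune hu1
  have h4 : u.natDegree = D.card + u1.natDegree := by
    rw [hu1, natDegree_mul h2.ne_zero hu10, h3]
  have h5 : u1.natDegree ≤ 1 := by omega
  obtain ⟨c, d, hcd⟩ := exists_eq_X_add_C_of_natDegree_le_one h5
  by_cases hx : x0 ∈ D
  · have h01 := hD x0 hx
    have h6 : u = (X - C x0) * ((∏ x ∈ D.erase x0, (X - C x)) * u1) := by
      rw [hu1, ← Finset.mul_prod_erase D (fun x => (X - C x)) hx]; ring
    have h7 : (derivative u).eval x0 = ((∏ x ∈ D.erase x0, (X - C x)) * u1).eval x0 := by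
      rw [h6, derivative_mul]; simp
    rw [h7, eval_mul, eval_prod] at hue'
    have h8 : ∏ x ∈ D.erase x0, (X - C x).eval x0 ≠ 0 := by
      rw [Finset.prod_ne_zero_iff]
      intro x hx'
      rw [eval_sub, eval_X, eval_C]
      exact sub_ne_zero.2 (Finset.ne_of_mem_erase hx').symm
    have h9 : u1.eval x0 = 0 := by
      rcases mul_eq_zero.1 hue' with h | h
      · exact absurd h h8
      · exact h
    rw [hcd] at h9
    simp only [eval_add, eval_mul, eval_C, eval_X] at h9
    have hc : c ≠ 0 := by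
      intro hc
      rw [hc, zero_mul, zero_add] at h9
      rw [hc, h9] at hcd
      apply hu10
      rw [hcd]; simp
    have hval : ∀ x, u1.eval x = c * (x - x0) := by
      intro x
      rw [hcd]
      simp only [eval_add, eval_mul, eval_C, eval_X]
      linarith
    have hs1 := hval (x0 / 2)
    have hs2 := hval ((1 + x0) / 2)
    have e1 : u1.eval (x0 / 2) = - (c * (x0 / 2)) := by rw [hs1]; ring
    have e2 : u1.eval ((1 + x0) / 2) = c * ((1 - x0) / 2) := by rw [hs2]; ring
    have p1 : 0 < x0 / 2 := by linarith [h01.1]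
    have p2 : 0 < (1 - x0) / 2 := by linarith [h01.2]
    rcases hcs with h | h
    · have a1 := h (x0 / 2) (by linarith) (by linarith [h01.2])
      have a2 := h ((1 + x0) / 2) (by linarith [h01.1]) (by linarith [h01.2])
      rw [e1] at a1
      rw [e2] at a2
      rcases lt_or_gt_of_ne hc with h | h
      · have := mul_neg_of_neg_of_pos h p2; linarith
      · have := mul_pos h p1; linarith
    · have a1 := h (x0 / 2) (by linarith) (by linarith [h01.2])
      have a2 := h ((1 + x0) / 2) (by linarith [h01.1]) (by linarith [h01.2])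
      rw [e1] at a1
      rw [e2] at a2
      rcases lt_or_gt_of_ne hc with h | h
      · have := mul_neg_of_neg_of_pos h p1; linarith
      · have := mul_pos h p2; linarith
  · have h8 : ∏ x ∈ D, (X - C x).eval x0 ≠ 0 := by
      rw [Finset.prod_ne_zero_iff]
      intro x hx'
      rw [eval_sub, eval_X, eval_C]
      exact sub_ne_zero.2 fun h => hx (h ▸ hx')
    have h9 : u1.eval x0 = 0 := by
      rw [hu1, eval_mul, eval_prod] at hue
      rcases mul_eq_zero.1 hue with h | h
      · exact absurd h h8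
      · exact h
    have h10 : (derivative u1).eval x0 = 0 := by
      rw [hu1, derivative_mul, eval_add, eval_mul, eval_mul, h9, mul_zero, zero_add,
        eval_prod] at hue'
      rcases mul_eq_zero.1 hue' with h | h
      · exact absurd h h8
      · exact h
    rw [hcd] at h9 h10
    simp only [derivative_add, derivative_mul, derivative_C, derivative_X, zero_mul, mul_one,
      zero_add, add_zero, eval_C] at h10
    simp only [eval_add, eval_mul, eval_C, eval_X] at h9
    rw [h10, zero_mul, zero_add] at h9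
    apply hu10
    rw [hcd, h10, h9]; simp

lemma between {q Q : ℝ[X]}
    (hW : ∀ x0 : ℝ, (derivative q).eval x0 * Q.eval x0 - q.eval x0 * (derivative Q).eval x0 ≠ 0)
    {a b : ℝ} (hab : a < b) (ha : Q.eval a = 0) (hb : Q.eval b = 0) :
    ∃ t, a < t ∧ t < b ∧ q.eval t = 0 := by
  by_contra hcon
  push Not at hcon
  have hqa : q.eval a ≠ 0 := by
    intro h
    apply hW a
    rw [h, ha]; ring
  have hqb : q.eval b ≠ 0 := by
    intro h
    apply hW b
    rw [h, hb]; ring
  have hq : ∀ x ∈ Set.Icc a b, q.eval x ≠ 0 := by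
    intro x hx
    rcases eq_or_lt_of_le hx.1 with h | h
    · rw [← h]; exact hqa
    rcases eq_or_lt_of_le hx.2 with h' | h'
    · rw [h']; exact hqb
    exact hcon x h h'
  obtain ⟨c, hc, hc0⟩ := exists_hasDerivAt_eq_zero (f := fun x => Q.eval x / q.eval x)
    (f' := fun x => ((derivative Q).eval x * q.eval x - Q.eval x * (derivative q).eval x) /
      q.eval x ^ 2) hab
    (ContinuousOn.div Q.continuous.continuousOn q.continuous.continuousOn hq)
    (by simp only [ha, hb, zero_div])
    (fun x hx => (Q.hasDerivAt x).div (q.hasDerivAt x) (hq x ⟨hx.1.le, hx.2.le⟩))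
  have hqc := hq c ⟨hc.1.le, hc.2.le⟩
  have h1 : (derivative Q).eval c * q.eval c - Q.eval c * (derivative q).eval c = 0 := by
    rcases div_eq_zero_iff.1 hc0 with h | h
    · exact h
    · exact absurd h (pow_ne_zero _ hqc)
  apply hW c
  linarith

/-- Final one-dimensional statement. -/
theorem interlace {ω : ℂ} {N : ℕ} (hG : Good ω N) (k : ℕ) (hk : k < N) (j : ℕ) (q Q : ℝ[X])
    (hq : q.Monic) (hqd : q.natDegree = j) (hQ : Q.Monic) (hQd : Q.natDegree = j + 1)
    (hqo : Orth ω N k j q) (hQo : Orth ω N k (j + 1) Q) :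
    ∃ t s : ℕ → ℝ, q = ∏ ν ∈ Finset.range j, (X - C (t ν)) ∧
      Q = ∏ ν ∈ Finset.range (j + 1), (X - C (s ν)) ∧
      0 < s 0 ∧ s j < 1 ∧ ∀ ν, ν < j → s ν < t ν ∧ t ν < s (ν + 1) := by
  classical
  obtain ⟨D, hD, hDc, hQD⟩ := split_of_orth hG k hk (j + 1) Q hQ hQd hQo
  have hW := wronskian_ne hG k hk j q Q hq hqd hQ hQd hqo (hQo.mono (Nat.le_succ j))
  set s : ℕ → ℝ := fun ν => if h : ν < j + 1 then D.orderEmbOfFin hDc ⟨ν, h⟩ else 0 with hs
  have hsv : ∀ ν (h : ν < j + 1), s ν = D.orderEmbOfFin hDc ⟨ν, h⟩ := by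
    intro ν h
    simp only [hs]
    rw [dif_pos h]
  have hsmem : ∀ ν, ν < j + 1 → s ν ∈ D := by
    intro ν h
    rw [hsv ν h]
    exact Finset.orderEmbOfFin_mem _ _ _
  have hsmono : ∀ ν, ν < j → s ν < s (ν + 1) := by
    intro ν h
    rw [hsv ν (by omega), hsv (ν + 1) (by omega)]
    apply (D.orderEmbOfFin hDc).strictMono
    rw [Fin.lt_def]
    exact Nat.lt_succ_self _
  have hsroot : ∀ ν, ν < j + 1 → Q.eval (s ν) = 0 := by
    intro ν h
    rw [hQD, eval_prod]
    apply Finset.prod_eq_zero (hsmem ν h)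
    simp
  have hbt : ∀ ν : ℕ, ∃ t : ℝ, ν < j → s ν < t ∧ t < s (ν + 1) ∧ q.eval t = 0 := by
    intro ν
    by_cases h : ν < j
    · obtain ⟨t, h1, h2, h3⟩ := between hW (hsmono ν h) (hsroot ν (by omega))
        (hsroot (ν + 1) (by omega))
      exact ⟨t, fun _ => ⟨h1, h2, h3⟩⟩
    · exact ⟨0, fun h' => absurd h' h⟩
  choose t ht using hbt
  have hsmono' : ∀ a b, a ≤ b → b < j + 1 → s a ≤ s b := by
    intro a b hab hb
    rw [hsv a (by omega), hsv b hb]
    apply (D.orderEmbOfFin hDc).monotone
    rw [Fin.le_def]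
    exact hab
  have htinj : Set.InjOn t (Finset.range j : Set ℕ) := by
    intro a ha b hb hab
    rw [Finset.mem_coe, Finset.mem_range] at ha hb
    by_contra hne
    rcases lt_or_gt_of_ne hne with h | h
    · have h1 := (ht a ha).2.1
      have h2 := (ht b hb).1
      have h3 := hsmono' (a + 1) b h (by omega)
      linarith
    · have h1 := (ht b hb).2.1
      have h2 := (ht a ha).1
      have h3 := hsmono' (b + 1) a h (by omega)
      linarith
  refine ⟨t, s, ?_, ?_, ?_, ?_, ?_⟩
  · set T : Finset ℝ := (Finset.range j).image t with hT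
    have hTc : T.card = j := by
      rw [hT, Finset.card_image_of_injOn htinj, Finset.card_range]
    have h1 : T.val ≤ q.roots := by
      rw [Multiset.le_iff_subset T.nodup]
      intro x hx
      rw [mem_roots hq.ne_zero]
      have hx' : x ∈ T := hx
      rw [hT, Finset.mem_image] at hx'
      obtain ⟨ν, hν, rfl⟩ := hx'
      exact (ht ν (Finset.mem_range.1 hν)).2.2
    rw [← Multiset.prod_X_sub_C_dvd_iff_le_roots hq.ne_zero] at h1
    have h2 : (∏ x ∈ T, (X - C x)) ∣ q := h1
    have h3 : (∏ x ∈ T, (X - C x)).Monic := monic_prod_X_sub_C _ _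
    have h4 : (∏ x ∈ T, (X - C x)).natDegree = j := by
      rw [natDegree_prod_of_monic _ _ fun x _ => monic_X_sub_C x]
      simp [hTc]
    have h5 := eq_of_monic_of_dvd_of_natDegree_le h3 hq h2 (by rw [h4, hqd])
    rw [h5, hT, Finset.prod_image htinj]
  · rw [hQD]
    have e : D = (Finset.range (j + 1)).image s := by
      symm
      apply Finset.eq_of_subset_of_card_le
      · intro x hx
        rw [Finset.mem_image] at hx
        obtain ⟨ν, hν, rfl⟩ := hx
        exact hsmem ν (Finset.mem_range.1 hν)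
      · rw [Finset.card_image_of_injOn, Finset.card_range, hDc]
        intro a ha b hb hab
        rw [Finset.mem_coe, Finset.mem_range] at ha hb
        rw [hsv a ha, hsv b hb] at hab
        have := (D.orderEmbOfFin hDc).injective hab
        simpa using this
    have hinj : Set.InjOn s (Finset.range (j + 1) : Set ℕ) := by
      intro a ha b hb hab
      rw [Finset.mem_coe, Finset.mem_range] at ha hb
      rw [hsv a ha, hsv b hb] at hab
      have := (D.orderEmbOfFin hDc).injective hab
      simpa using this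
    conv_lhs => rw [e]
    rw [Finset.prod_image hinj]
  · exact (hD _ (hsmem 0 (by omega))).1
  · exact (hD _ (hsmem j (by omega))).2
  · intro ν hν
    exact ⟨(ht ν hν).1, (ht ν hν).2.1⟩

end Pool.Agent.TH220.Berg
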