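import Mathlib

set_option autoImplicit false

/-!
Partial sums of the binomial series: elementary facts, and the case of exponents at least one of
the coefficient inequality.
-/

namespace Pool.Agent.TH220.Brannan

open Finset

/-- the binomial coefficient -/
noncomputable def bn (a : ℝ) (k : ℕ) : ℝ := (∏ j ∈ range k, (a - (j : ℝ))) / (k.factorial : ℝ)

lemma bn_zero (a : ℝ) : bn a 0 = 1 := by simp [bn]

lemma bn_succ (a : ℝ) (k : ℕ) : bn a (k + 1) = bn a k * ((a - k) / (k + 1)) := by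
  unfold bn
  rw [prod_range_succ, Nat.factorial_succ]
  have h : (k.factorial : ℝ) ≠ 0 := by positivity
  push_cast
  field_simp

lemma bn_one (a : ℝ) : bn a 1 = a := by
  rw [bn_succ, bn_zero]; simp

lemma bn_pascal (a : ℝ) (k : ℕ) : bn a (k + 1) = bn (a - 1) (k + 1) + bn (a - 1) k := by
  have key : ∀ k : ℕ, bn a (k + 1) = a / (k + 1) * bn (a - 1) k := by
    intro k
    induction k with
    | zero => simp [bn_one, bn_zero]
    | succ k ih =>
      rw [bn_succ, ih, bn_succ (a - 1)]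
      push_cast
      field_simp
      ring
  rw [key, bn_succ (a - 1)]
  have : (k : ℝ) + 1 ≠ 0 := by positivity
  field_simp
  ring

lemma succ_mul_bn (a : ℝ) (k : ℕ) : ((k : ℝ) + 1) * bn a (k + 1) = a * bn (a - 1) k := by
  rw [bn_pascal, bn_succ]
  have : (k : ℝ) + 1 ≠ 0 := by positivity
  field_simp
  ring

/-- partial sum of the binomial series -/
noncomputable def ps (a : ℝ) (m : ℕ) (x : ℂ) : ℂ := ∑ k ∈ range (m + 1), (bn a k : ℂ) * x ^ k

/-- partial sum at one -/
noncomputable def ps1 (a : ℝ) (m : ℕ) : ℝ := ∑ k ∈ range (m + 1), bn a k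

lemma ps_zero (a : ℝ) (x : ℂ) : ps a 0 x = 1 := by simp [ps, bn_zero]

lemma ps1_zero (a : ℝ) : ps1 a 0 = 1 := by simp [ps1, bn_zero]

lemma ps_succ (a : ℝ) (m : ℕ) (x : ℂ) :
    ps a (m + 1) x = ps a m x + (bn a (m + 1) : ℂ) * x ^ (m + 1) := by
  unfold ps; rw [sum_range_succ]

lemma ps1_succ (a : ℝ) (m : ℕ) : ps1 a (m + 1) = ps1 a m + bn a (m + 1) := by
  unfold ps1; rw [sum_range_succ]

lemma ps_pascal (a : ℝ) (m : ℕ) (x : ℂ) :
    ps a (m + 1) x = ps (a - 1) (m + 1) x + x * ps (a - 1) m x := by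
  induction m with
  | zero =>
    rw [ps_succ, ps_zero, ps_succ, ps_zero, bn_one, bn_one]
    push_cast; ring
  | succ m ih =>
    rw [ps_succ, ih, ps_succ (a - 1) (m + 1), ps_succ (a - 1) m, bn_pascal a (m + 1)]
    push_cast; ring

lemma ps1_pascal (a : ℝ) (m : ℕ) :
    ps1 a (m + 1) = ps1 (a - 1) (m + 1) + ps1 (a - 1) m := by
  induction m with
  | zero =>
    rw [ps1_succ, ps1_zero, ps1_succ, ps1_zero, bn_one, bn_one]
    ring
  | succ m ih =>
    rw [ps1_succ, ih, ps1_succ (a - 1) (m + 1), ps1_succ (a - 1) m, bn_pascal a (m + 1)]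
    ring

/-- For exponents in `[0,1)`: the partial product `∏ (1 - g/j)`. -/
noncomputable def tp (g : ℝ) (k : ℕ) : ℝ := ∏ j ∈ range k, (1 - g / ((j : ℝ) + 1))

lemma tp_succ (g : ℝ) (k : ℕ) : tp g (k + 1) = tp g k * (1 - g / ((k : ℝ) + 1)) := by
  unfold tp; rw [prod_range_succ]

lemma tp_zero (g : ℝ) : tp g 0 = 1 := by simp [tp]

lemma factor_nonneg {g : ℝ} (h1 : g ≤ 1) (k : ℕ) : 0 ≤ 1 - g / ((k : ℝ) + 1) := by
  rw [sub_nonneg, div_le_one (by positivity)]
  have : (0 : ℝ) ≤ k := Nat.cast_nonneg k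
  linarith

lemma tp_nonneg {g : ℝ} (h1 : g ≤ 1) (k : ℕ) : 0 ≤ tp g k :=
  prod_nonneg fun j _ => factor_nonneg h1 j

/-- `(-1)^k binom(g - 1, k) = ∏_{j=1}^k (1 - g/j)`. -/
lemma bn_sub_one (g : ℝ) (k : ℕ) : bn (g - 1) k = (-1) ^ k * tp g k := by
  induction k with
  | zero => simp [bn_zero, tp_zero]
  | succ k ih =>
    rw [bn_succ, ih, tp_succ]
    have : (k : ℝ) + 1 ≠ 0 := by positivity
    field_simp
    ring

/-- `bn g (k+1) = (-1)^k g/(k+1) tp g k` -/
lemma bn_succ_eq (g : ℝ) (k : ℕ) : bn g (k + 1) = (-1) ^ k * (g / (k + 1) * tp g k) := by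
  have h := succ_mul_bn g k
  rw [bn_sub_one] at h
  have h0 : (k : ℝ) + 1 ≠ 0 := by positivity
  field_simp
  linear_combination h

/-- telescoping: `tp g k - tp g (k+1) = g/(k+1) tp g k`. -/
lemma tp_sub (g : ℝ) (k : ℕ) : tp g k - tp g (k + 1) = g / (k + 1) * tp g k := by
  rw [tp_succ]; ring

/-- the elementary inequality for a pair of consecutive terms -/
lemma norm_one_sub_le {l : ℝ} (hl0 : 0 ≤ l) (hl1 : l < 1) {x : ℂ} (hx : ‖x‖ = 1) :
    ‖1 - (l : ℂ) * x‖ ≤ (1 - l) + l * (1 - x.re) / (1 - l) := by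
  have hre : x.re ≤ 1 := by rw [← hx]; exact Complex.re_le_norm x
  have hsq : x.re ^ 2 + x.im ^ 2 = 1 := by
    have := Complex.sq_norm x
    rw [hx, Complex.normSq_apply] at this
    nlinarith
  have hpos : 0 < 1 - l := by linarith
  have hnn : 0 ≤ (1 - l) + l * (1 - x.re) / (1 - l) := by
    have : 0 ≤ l * (1 - x.re) / (1 - l) := div_nonneg (mul_nonneg hl0 (by linarith)) hpos.le
    linarith
  apply le_of_sq_le_sq _ hnn
  rw [Complex.sq_norm, Complex.normSq_apply]
  simp only [Complex.sub_re, Complex.one_re, Complex.mul_re, Complex.ofReal_re, Complex.ofReal_im,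
    zero_mul, sub_zero, Complex.sub_im, Complex.one_im, Complex.mul_im, add_zero, zero_sub]
  have e : ((1 - l) + l * (1 - x.re) / (1 - l)) ^ 2 =
      (1 - l) ^ 2 + 2 * (l * (1 - x.re)) + (l * (1 - x.re) / (1 - l)) ^ 2 := by
    field_simp
    ring
  rw [e]
  nlinarith [sq_nonneg (l * (1 - x.re) / (1 - l))]

lemma norm_one_add_le {a : ℝ} (ha : 0 ≤ a) {x : ℂ} (hx : ‖x‖ = 1) :
    ‖1 + (a : ℂ) * x‖ ≤ (1 + a) - a * (1 - x.re) / (1 + a) := by
  have hre : x.re ≤ 1 := by rw [← hx]; exact Complex.re_le_norm x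
  have hre' : -1 ≤ x.re := by
    have := Complex.abs_re_le_norm x
    rw [hx, abs_le] at this
    exact this.1
  have hsq : x.re ^ 2 + x.im ^ 2 = 1 := by
    have := Complex.sq_norm x
    rw [hx, Complex.normSq_apply] at this
    nlinarith
  have hpos : 0 < 1 + a := by linarith
  have hnn : 0 ≤ (1 + a) - a * (1 - x.re) / (1 + a) := by
    rw [sub_nonneg, div_le_iff₀ hpos]
    nlinarith [sq_nonneg (1 - a)]
  apply le_of_sq_le_sq _ hnn
  rw [Complex.sq_norm, Complex.normSq_apply]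
  simp only [Complex.add_re, Complex.one_re, Complex.mul_re, Complex.ofReal_re, Complex.ofReal_im,
    zero_mul, sub_zero, Complex.add_im, Complex.one_im, Complex.mul_im, add_zero, zero_add]
  have e : ((1 + a) - a * (1 - x.re) / (1 + a)) ^ 2 =
      (1 + a) ^ 2 - 2 * (a * (1 - x.re)) + (a * (1 - x.re) / (1 + a)) ^ 2 := by
    field_simp
    ring
  rw [e]
  nlinarith [sq_nonneg (a * (1 - x.re) / (1 + a))]

lemma tp_anti {g : ℝ} (h0 : 0 ≤ g) (h1 : g ≤ 1) (k : ℕ) : tp g (k + 1) ≤ tp g k := by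
  have h := tp_sub g k
  have : 0 ≤ g / (k + 1) * tp g k := mul_nonneg (by positivity) (tp_nonneg h1 k)
  linarith

lemma bn_two (g : ℝ) (k : ℕ) :
    bn (g + 1) (k + 2) = (-1) ^ k * ((g + 1) / (k + 2) * (tp g k - tp g (k + 1))) := by
  have h := succ_mul_bn (g + 1) (k + 1)
  rw [add_sub_cancel_right, bn_succ_eq g k, ← tp_sub g k] at h
  have h0 : (k : ℝ) + 2 ≠ 0 := by positivity
  push_cast at h
  field_simp
  have e : (k : ℝ) + 1 + 1 = k + 2 := by ring
  rw [e] at h
  rw [mul_comm]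
  rw [h]
  ring

/-- Odd partial sums for exponents `a = g + 1` in `[1, 2)`. -/
lemma odd_bound {g : ℝ} (h0 : 0 ≤ g) (h1 : g < 1) {x : ℂ} (hx : ‖x‖ = 1) (J : ℕ) :
    ‖ps (g + 1) (2 * J + 1) x‖ ≤ ps1 (g + 1) (2 * J + 1) -
      (g + 1) * (1 - x.re) / (1 + (g + 1)) * tp g (2 * J) := by
  have hre : x.re ≤ 1 := by rw [← hx]; exact Complex.re_le_norm x
  induction J with
  | zero =>
    simp only [mul_zero, zero_add]
    have e1 : ps (g + 1) 1 x = 1 + ((g + 1 : ℝ) : ℂ) * x := by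
      rw [show (1 : ℕ) = 0 + 1 from rfl, ps_succ, ps_zero, zero_add, bn_one, pow_one]
    have e2 : ps1 (g + 1) 1 = 1 + (g + 1) := by
      rw [show (1 : ℕ) = 0 + 1 from rfl, ps1_succ, ps1_zero, zero_add, bn_one]
    rw [e1, e2, tp_zero, mul_one]
    exact norm_one_add_le (by linarith) hx
  | succ J ih =>
    have hJ : (0 : ℝ) ≤ J := Nat.cast_nonneg J
    set p : ℝ := bn (g + 1) (2 * J + 2) with hp
    set l : ℝ := ((2 * J + 2 : ℝ) - (g + 1)) / (2 * J + 3) with hl
    have hl0 : 0 ≤ l := div_nonneg (by linarith) (by linarith)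
    have hl1 : l < 1 := by rw [hl, div_lt_one (by linarith)]; linarith
    have hp0 : 0 ≤ p := by
      rw [hp, bn_two]
      rw [show (-1 : ℝ) ^ (2 * J) = 1 from by rw [pow_mul]; simp]
      rw [one_mul]
      exact mul_nonneg (by positivity) (by have := tp_anti h0 h1.le (2 * J); linarith)
    have hnext : bn (g + 1) (2 * J + 3) = -(l * p) := by
      rw [show 2 * J + 3 = (2 * J + 2) + 1 from rfl, bn_succ, ← hp, hl]
      push_cast
      have : (2 * J + 3 : ℝ) ≠ 0 := by positivity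
      have e : (2 * (J : ℝ) + 2 + 1) = 2 * J + 3 := by ring
      rw [e]
      field_simp
      ring
    have hbeta : (2 * J + 3 : ℝ) * (l * p) = (g + 1) * (tp g (2 * J + 1) - tp g (2 * J + 2)) := by
      have h := bn_two g (2 * J + 1)
      rw [show 2 * J + 1 + 2 = 2 * J + 3 from rfl, hnext,
        show (-1 : ℝ) ^ (2 * J + 1) = -1 from by rw [pow_succ, pow_mul]; simp] at h
      push_cast at h
      have e : (2 * (J : ℝ) + 1 + 2) = 2 * J + 3 := by ring
      rw [e] at h
      have h' : l * p = (g + 1) / (2 * J + 3) * (tp g (2 * J + 1) - tp g (2 * J + 2)) := by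
        linarith
      rw [h']
      field_simp
    have e1 : ps (g + 1) (2 * (J + 1) + 1) x =
        ps (g + 1) (2 * J + 1) x + x ^ (2 * J + 2) * ((p : ℂ) * (1 - (l : ℂ) * x)) := by
      rw [show 2 * (J + 1) + 1 = (2 * J + 2) + 1 from by ring, ps_succ,
        show 2 * J + 2 = (2 * J + 1) + 1 from rfl, ps_succ,
        show 2 * J + 1 + 1 + 1 = 2 * J + 3 from rfl, show 2 * J + 1 + 1 = 2 * J + 2 from rfl,
        hnext, ← hp]
      push_cast
      ring
    have e2 : ps1 (g + 1) (2 * (J + 1) + 1) = ps1 (g + 1) (2 * J + 1) + p * (1 - l) := by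
      rw [show 2 * (J + 1) + 1 = (2 * J + 2) + 1 from by ring, ps1_succ,
        show 2 * J + 2 = (2 * J + 1) + 1 from rfl, ps1_succ,
        show 2 * J + 1 + 1 + 1 = 2 * J + 3 from rfl, show 2 * J + 1 + 1 = 2 * J + 2 from rfl,
        hnext, ← hp]
      ring
    have hn : ‖x ^ (2 * J + 2) * ((p : ℂ) * (1 - (l : ℂ) * x))‖ ≤
        p * ((1 - l) + l * (1 - x.re) / (1 - l)) := by
      rw [norm_mul, norm_pow, hx, one_pow, one_mul, norm_mul, Complex.norm_real, Real.norm_eq_abs,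
        abs_of_nonneg hp0]
      exact mul_le_mul_of_nonneg_left (norm_one_sub_le hl0 hl1 hx) hp0
    have h1l : 1 - l = (1 + (g + 1)) / (2 * J + 3) := by
      rw [hl]; field_simp; ring
    have hex : p * (l * (1 - x.re) / (1 - l)) =
        (g + 1) * (1 - x.re) / (1 + (g + 1)) * (tp g (2 * J + 1) - tp g (2 * J + 2)) := by
      rw [h1l]
      have h3 : (2 * J + 3 : ℝ) ≠ 0 := by positivity
      have h4 : (1 + (g + 1) : ℝ) ≠ 0 := by positivity
      field_simp
      linear_combination (1 - x.re) * hbeta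
    rw [e1, e2]
    refine (norm_add_le _ _).trans ((add_le_add ih hn).trans ?_)
    have ht := tp_anti h0 h1.le (2 * J)
    have hK : 0 ≤ (g + 1) * (1 - x.re) / (1 + (g + 1)) :=
      div_nonneg (mul_nonneg (by linarith) (by linarith)) (by linarith)
    have e3 : tp g (2 * (J + 1)) = tp g (2 * J + 2) := by congr 1
    rw [e3]
    have h5 := mul_le_mul_of_nonneg_left ht hK
    rw [mul_add, hex]
    linarith

/-- All partial sums for exponents `a = g + 1` in `[1, 2)`. -/
lemma base_bound {g : ℝ} (h0 : 0 ≤ g) (h1 : g < 1) {x : ℂ} (hx : ‖x‖ = 1) (m : ℕ) :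
    ‖ps (g + 1) m x‖ ≤ ps1 (g + 1) m := by
  have hre : x.re ≤ 1 := by rw [← hx]; exact Complex.re_le_norm x
  have hodd : ∀ J : ℕ, ‖ps (g + 1) (2 * J + 1) x‖ ≤ ps1 (g + 1) (2 * J + 1) := by
    intro J
    refine (odd_bound h0 h1 hx J).trans ?_
    have hK : 0 ≤ (g + 1) * (1 - x.re) / (1 + (g + 1)) :=
      div_nonneg (mul_nonneg (by linarith) (by linarith)) (by linarith)
    have := mul_nonneg hK (tp_nonneg h1.le (2 * J))
    linarith
  rcases Nat.even_or_odd' m with ⟨J, rfl | rfl⟩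
  · rcases J with _ | J
    · simp [ps_zero, ps1_zero]
    · rw [show 2 * (J + 1) = (2 * J + 1) + 1 from by ring, ps_succ, ps1_succ]
      refine (norm_add_le _ _).trans (add_le_add (hodd J) ?_)
      have hp0 : 0 ≤ bn (g + 1) (2 * J + 2) := by
        rw [bn_two]
        rw [show (-1 : ℝ) ^ (2 * J) = 1 from by rw [pow_mul]; simp]
        rw [one_mul]
        exact mul_nonneg (by positivity) (by have := tp_anti h0 h1.le (2 * J); linarith)
      rw [norm_mul, norm_pow, hx, one_pow, mul_one, Complex.norm_real, Real.norm_eq_abs,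
        abs_of_nonneg hp0]
  · exact hodd J

/-- Brannan's inequality for exponents at least one. -/
theorem ge_one (n : ℕ) : ∀ a : ℝ, (n : ℝ) + 1 ≤ a → a < (n : ℝ) + 2 → ∀ m : ℕ, ∀ x : ℂ,
    ‖x‖ = 1 → ‖ps a m x‖ ≤ ps1 a m := by
  induction n with
  | zero =>
    intro a h1 h2 m x hx
    have := base_bound (g := a - 1) (by push_cast at h1; linarith) (by push_cast at h2; linarith)
      hx m
    rwa [sub_add_cancel] at this
  | succ n ih =>
    intro a h1 h2 m x hx
    push_cast at h1 h2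
    have ih' := ih (a - 1) (by linarith) (by linarith)
    rcases m with _ | m
    · simp [ps_zero, ps1_zero]
    · rw [ps_pascal, ps1_pascal]
      refine (norm_add_le _ _).trans (add_le_add (ih' _ x hx) ?_)
      rw [norm_mul, hx, one_mul]
      exact ih' _ x hx

end Pool.Agent.TH220.Brannan
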