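import Pool.Agent.TH220.BrannanA

set_option autoImplicit false

/-!
Stieltjes representation of the remainder of the binomial series, exponents in `(0, 1)`.
-/

namespace Pool.Agent.TH220.Brannan

open Finset MeasureTheory Filter Topology

/-- the (unnormalised) weight -/
noncomputable def wt (g : ℝ) (t : ℝ) : ℝ := t ^ (-g) * (1 - t) ^ g

/-- its moments -/
noncomputable def J (g : ℝ) (k : ℕ) : ℝ := ∫ t in (0 : ℝ)..1, wt g t * t ^ k

lemma wt_nonneg (g : ℝ) {t : ℝ} (h0 : 0 ≤ t) (h1 : t ≤ 1) : 0 ≤ wt g t :=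
  mul_nonneg (Real.rpow_nonneg h0 _) (Real.rpow_nonneg (by linarith) _)

lemma wt_integrable {g : ℝ} (hg0 : 0 < g) (hg1 : g < 1) :
    IntervalIntegrable (wt g) volume 0 1 := by
  have h1 : IntervalIntegrable (fun t : ℝ => t ^ (-g)) volume 0 1 :=
    intervalIntegral.intervalIntegrable_rpow' (by linarith)
  refine h1.mul_continuousOn ?_
  refine ContinuousOn.rpow_const (by fun_prop) ?_
  intro x _
  right; exact hg0.le

lemma J_eq_beta {g : ℝ} (hg0 : 0 < g) (hg1 : g < 1) (k : ℕ) :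
    (J g k : ℂ) = Complex.betaIntegral ((k : ℂ) + 1 - g) (1 + g) := by
  unfold J Complex.betaIntegral
  rw [← intervalIntegral.integral_ofReal]
  apply intervalIntegral.integral_congr
  intro t ht
  rw [Set.uIcc_of_le zero_le_one] at ht
  have hne : (k : ℝ) - g ≠ 0 := by
    intro h
    have h2 : (k : ℝ) = g := by linarith
    rcases Nat.eq_zero_or_pos k with h3 | h3
    · rw [h3] at h2; push_cast at h2; linarith
    · have : (1 : ℝ) ≤ k := by exact_mod_cast h3
      linarith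
  have e1 : t ^ (-g) * t ^ k = t ^ ((k : ℝ) - g) := by
    rcases ht.1.eq_or_lt with h | h
    · rw [← h]
      rw [Real.zero_rpow hne]
      rcases Nat.eq_zero_or_pos k with h3 | h3
      · subst h3
        rw [Real.zero_rpow (by linarith)]; simp
      · rw [zero_pow (by omega)]; simp
    · rw [← Real.rpow_natCast t k, ← Real.rpow_add h]
      congr 1; ring
  have e2 : wt g t * t ^ k = t ^ ((k : ℝ) - g) * (1 - t) ^ g := by
    unfold wt; rw [← e1]; ring
  simp only
  rw [e2]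
  push_cast
  rw [Complex.ofReal_cpow ht.1, Complex.ofReal_cpow (by linarith [ht.2])]
  push_cast
  congr 2 <;> ring

lemma J_pos {g : ℝ} (hg0 : 0 < g) (hg1 : g < 1) : 0 < J g 0 := by
  have h := J_eq_beta hg0 hg1 0
  rw [Complex.betaIntegral_eq_Gamma_mul_div _ _ (by simp; linarith) (by simp; linarith)] at h
  have e1 : ((0 : ℕ) : ℂ) + 1 - (g : ℂ) = ((1 - g : ℝ) : ℂ) := by push_cast; ring
  have e2 : (1 : ℂ) + (g : ℂ) = ((1 + g : ℝ) : ℂ) := by push_cast; ring
  have e3 : ((1 - g : ℝ) : ℂ) + ((1 + g : ℝ) : ℂ) = ((2 : ℝ) : ℂ) := by push_cast; ring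
  rw [e1, e2, e3, Complex.Gamma_ofReal, Complex.Gamma_ofReal, Complex.Gamma_ofReal] at h
  have h2 : J g 0 = Real.Gamma (1 - g) * Real.Gamma (1 + g) / Real.Gamma 2 := by exact_mod_cast h
  rw [h2]
  have g1 := Real.Gamma_pos_of_pos (show (0 : ℝ) < 1 - g by linarith)
  have g2 := Real.Gamma_pos_of_pos (show (0 : ℝ) < 1 + g by linarith)
  have g3 := Real.Gamma_pos_of_pos (show (0 : ℝ) < 2 by norm_num)
  positivity

lemma J_succ {g : ℝ} (hg0 : 0 < g) (hg1 : g < 1) (k : ℕ) :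
    J g (k + 1) = J g k * (((k : ℝ) + 1 - g) / (k + 2)) := by
  have hk : (0 : ℝ) ≤ k := Nat.cast_nonneg k
  have h := J_eq_beta hg0 hg1 k
  have h' := J_eq_beta hg0 hg1 (k + 1)
  rw [Complex.betaIntegral_eq_Gamma_mul_div _ _ (by simp; linarith) (by simp; linarith)] at h h'
  have e1 : ((k : ℕ) : ℂ) + 1 - (g : ℂ) = (((k : ℝ) + 1 - g : ℝ) : ℂ) := by push_cast; ring
  have e1' : ((k + 1 : ℕ) : ℂ) + 1 - (g : ℂ) = (((k : ℝ) + 1 - g + 1 : ℝ) : ℂ) := by
    push_cast; ring
  have e2 : (1 : ℂ) + (g : ℂ) = ((1 + g : ℝ) : ℂ) := by push_cast; ring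
  have e3 : (((k : ℝ) + 1 - g : ℝ) : ℂ) + ((1 + g : ℝ) : ℂ) = (((k : ℝ) + 2 : ℝ) : ℂ) := by
    push_cast; ring
  have e3' : (((k : ℝ) + 1 - g + 1 : ℝ) : ℂ) + ((1 + g : ℝ) : ℂ) = (((k : ℝ) + 2 + 1 : ℝ) : ℂ) := by
    push_cast; ring
  rw [e1, e2, e3, Complex.Gamma_ofReal, Complex.Gamma_ofReal, Complex.Gamma_ofReal] at h
  rw [e1', e2, e3', Complex.Gamma_ofReal, Complex.Gamma_ofReal, Complex.Gamma_ofReal] at h'
  have h2 : J g k = Real.Gamma ((k : ℝ) + 1 - g) * Real.Gamma (1 + g) / Real.Gamma (k + 2) := by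
    exact_mod_cast h
  have h2' : J g (k + 1) = Real.Gamma ((k : ℝ) + 1 - g + 1) * Real.Gamma (1 + g) /
      Real.Gamma (k + 2 + 1) := by exact_mod_cast h'
  rw [Real.Gamma_add_one (by linarith), Real.Gamma_add_one (by linarith)] at h2'
  rw [h2', h2]
  have g3 := Real.Gamma_pos_of_pos (show (0 : ℝ) < k + 2 by linarith)
  field_simp

/-- the normalised weight -/
noncomputable def w (g : ℝ) (t : ℝ) : ℝ := g / J g 0 * wt g t

lemma w_nonneg {g : ℝ} (hg0 : 0 < g) (hg1 : g < 1) {t : ℝ} (h0 : 0 ≤ t) (h1 : t ≤ 1) :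
    0 ≤ w g t :=
  mul_nonneg (div_pos hg0 (J_pos hg0 hg1)).le (wt_nonneg g h0 h1)

lemma w_integrable {g : ℝ} (hg0 : 0 < g) (hg1 : g < 1) :
    IntegrableOn (w g) (Set.Ioc 0 1) volume := by
  have h := (wt_integrable hg0 hg1).const_mul (g / J g 0)
  rw [intervalIntegrable_iff_integrableOn_Ioc_of_le zero_le_one] at h
  exact h

lemma w_scaled (g : ℝ) (k : ℕ) :
    ∫ t in Set.Ioc (0 : ℝ) 1, w g t * t ^ k = g / J g 0 * J g k := by
  have hJk : J g k = ∫ t in Set.Ioc (0 : ℝ) 1, wt g t * t ^ k := by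
    unfold J; rw [intervalIntegral.integral_of_le zero_le_one]
  rw [hJk]
  unfold w
  generalize g / J g 0 = c
  rw [← integral_const_mul]
  congr 1
  funext t
  ring

lemma w_moment {g : ℝ} (hg0 : 0 < g) (hg1 : g < 1) (k : ℕ) :
    ∫ t in Set.Ioc (0 : ℝ) 1, w g t * t ^ k = g / (k + 1) * tp g k := by
  rw [w_scaled]
  have hJ := J_pos hg0 hg1
  induction k with
  | zero => rw [tp_zero]; field_simp; simp
  | succ k ih =>
    rw [J_succ hg0 hg1, tp_succ]
    have hk : (0 : ℝ) ≤ k := Nat.cast_nonneg k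
    rw [← mul_assoc, ih]
    push_cast
    have e : (k : ℝ) + 1 + 1 = k + 2 := by ring
    rw [e]
    field_simp

/-- The remainder of the binomial series as a Stieltjes type integral. -/
lemma remainder {g : ℝ} (hg0 : 0 < g) (hg1 : g < 1) (m : ℕ) {z : ℂ} (hz : ‖z‖ < 1) :
    (1 + z) ^ (g : ℂ) - ps g m z =
      ∫ t in Set.Ioc (0 : ℝ) 1, (w g t : ℂ) * (z * (-((t : ℂ) * z)) ^ m / (1 + (t : ℂ) * z)) := by
  have hser : HasSum (fun k : ℕ => (bn g k : ℂ) * z ^ k) ((1 + z) ^ (g : ℂ)) := by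
    have h := (Complex.one_add_cpow_hasFPowerSeriesOnBall_zero (a := (g : ℂ))).hasSum
      (y := z) (by rw [← ENNReal.ofReal_one, Metric.eball_ofReal]; simpa using hz)
    rw [zero_add] at h
    have hfun : (fun k : ℕ => (bn g k : ℂ) * z ^ k) =
        fun n => (binomialSeries ℂ (g : ℂ) n) fun _ => z := by
     funext k
     rw [binomialSeries_apply, List.ofFn_const, List.prod_replicate, smul_eq_mul]
     congr 1
     rw [← Complex.ofReal_choose]
     congr 1
     unfold bn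
     rw [Ring.choose_eq_smul, smul_eq_mul]
     rw [div_eq_inv_mul]
     congr 1
     induction k with
     | zero => simp
     | succ k ih =>
       rw [prod_range_succ, ih, descPochhammer_succ_right]
       simp [Polynomial.smeval_mul, Polynomial.smeval_natCast]
    rw [hfun]
    exact h
  set F : ℕ → ℝ → ℂ := fun k t => (w g t : ℂ) * (z * (-((t : ℂ) * z)) ^ (k + m)) with hF
  have hFeq : ∀ k t, F k t = ((w g t * t ^ (k + m) : ℝ) : ℂ) * ((-1) ^ (k + m) * z ^ (k + m + 1)) := by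
    intro k t
    rw [hF]
    simp only
    push_cast
    rw [neg_pow, mul_pow]
    ring
  have hwk : ∀ k : ℕ, IntegrableOn (fun t => w g t * t ^ k) (Set.Ioc 0 1) volume := by
    intro k
    refine (w_integrable hg0 hg1).mul_bdd (c := 1) ?_ ?_
    · exact (by fun_prop : Continuous fun t : ℝ => t ^ k).aestronglyMeasurable
    · rw [ae_restrict_iff' measurableSet_Ioc]
      refine Eventually.of_forall fun t ht => ?_
      rw [norm_pow, Real.norm_eq_abs, abs_of_pos ht.1]
      exact pow_le_one₀ ht.1.le ht.2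
  have hFint : ∀ k, Integrable (F k) (volume.restrict (Set.Ioc 0 1)) := by
    intro k
    have : F k = fun t => ((w g t * t ^ (k + m) : ℝ) : ℂ) * ((-1) ^ (k + m) * z ^ (k + m + 1)) :=
      funext fun t => hFeq k t
    rw [this]
    exact ((hwk (k + m)).ofReal).mul_const _
  have hFval : ∀ k, ∫ t in Set.Ioc (0 : ℝ) 1, F k t = (bn g (k + (m + 1)) : ℂ) * z ^ (k + (m + 1)) := by
    intro k
    simp only [hFeq]
    rw [integral_mul_const, integral_complex_ofReal, w_moment hg0 hg1, ← add_assoc, bn_succ_eq]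
    push_cast
    ring
  have hnorm : ∀ k, ∀ t ∈ Set.Ioc (0 : ℝ) 1, ‖F k t‖ ≤ w g t * ‖z‖ ^ k := by
    intro k t ht
    have hw := w_nonneg hg0 hg1 ht.1.le ht.2
    rw [hF]
    simp only
    rw [norm_mul, Complex.norm_real, Real.norm_eq_abs, abs_of_nonneg hw]
    apply mul_le_mul_of_nonneg_left _ hw
    rw [norm_mul, norm_pow, norm_neg, norm_mul, Complex.norm_real, Real.norm_eq_abs,
      abs_of_pos ht.1]
    have h1 : t * ‖z‖ ≤ ‖z‖ := by nlinarith [norm_nonneg z, ht.2]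
    have h0 : 0 ≤ t * ‖z‖ := mul_nonneg ht.1.le (norm_nonneg z)
    calc ‖z‖ * (t * ‖z‖) ^ (k + m) ≤ 1 * ‖z‖ ^ (k + m) := by
          apply mul_le_mul hz.le (pow_le_pow_left₀ h0 h1 _) (by positivity) zero_le_one
      _ ≤ ‖z‖ ^ k := by
          rw [one_mul]
          exact pow_le_pow_of_le_one (norm_nonneg z) hz.le (by omega)
  have hsum : Summable fun k => ∫ t in Set.Ioc (0 : ℝ) 1, ‖F k t‖ := by
    have hgeo : Summable fun k : ℕ => (∫ t in Set.Ioc (0 : ℝ) 1, w g t) * ‖z‖ ^ k :=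
      (summable_geometric_of_lt_one (norm_nonneg z) hz).mul_left _
    refine Summable.of_nonneg_of_le (fun k => integral_nonneg fun t => norm_nonneg _) (fun k => ?_)
      hgeo
    rw [← integral_mul_const]
    refine setIntegral_mono_on (hFint k).norm ?_ measurableSet_Ioc (hnorm k)
    exact (w_integrable hg0 hg1).mul_const _
  have hmain := hasSum_integral_of_summable_integral_norm hFint hsum
  have htail : HasSum (fun k : ℕ => (bn g (k + (m + 1)) : ℂ) * z ^ (k + (m + 1)))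
      ((1 + z) ^ (g : ℂ) - ps g m z) := by
    exact (hasSum_nat_add_iff' (f := fun k : ℕ => (bn g k : ℂ) * z ^ k) (m + 1)).mpr hser
  have h1 : (fun k => ∫ t in Set.Ioc (0 : ℝ) 1, F k t) =
      fun k : ℕ => (bn g (k + (m + 1)) : ℂ) * z ^ (k + (m + 1)) := funext hFval
  rw [h1] at hmain
  rw [htail.unique hmain]
  refine setIntegral_congr_fun measurableSet_Ioc fun t ht => ?_
  have hlt : ‖-((t : ℂ) * z)‖ < 1 := by
    rw [norm_neg, norm_mul, Complex.norm_real, Real.norm_eq_abs, abs_of_pos ht.1]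
    nlinarith [norm_nonneg z, ht.2, ht.1]
  have h2 : ∀ k, F k t = (w g t : ℂ) * (z * (-((t : ℂ) * z)) ^ m) * (-((t : ℂ) * z)) ^ k := by
    intro k
    rw [hF]
    simp only
    rw [pow_add]
    ring
  simp only [h2]
  rw [tsum_mul_left, tsum_geometric_of_norm_lt_one hlt]
  rw [sub_neg_eq_add]
  ring

end Pool.Agent.TH220.Brannan
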