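import Mathlib

set_option autoImplicit false

/-!
Random signs: second and fourth moments, and the one-block lemma.
-/

namespace Pool.Agent.TH220.Orl

open Finset

/-- the sign attached to a set -/
noncomputable def sg (S : Finset ℕ) (i : ℕ) : ℝ := if i ∈ S then 1 else -1

/-- signed sum -/
noncomputable def X (v : ℕ → ℝ) (I S : Finset ℕ) : ℝ := ∑ i ∈ I, sg S i * v i

lemma X_insert_of_not_mem (v : ℕ → ℝ) {I S : Finset ℕ} {a : ℕ} (ha : a ∉ I) (hS : S ⊆ I) :
    X v (insert a I) S = X v I S - v a := by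
  unfold X
  rw [sum_insert ha]
  have : sg S a = -1 := by
    unfold sg; rw [if_neg]; exact fun h => ha (hS h)
  rw [this]; ring

lemma X_insert_of_mem (v : ℕ → ℝ) {I S : Finset ℕ} {a : ℕ} (ha : a ∉ I) :
    X v (insert a I) (insert a S) = X v I S + v a := by
  unfold X
  rw [sum_insert ha]
  have h1 : sg (insert a S) a = 1 := by unfold sg; rw [if_pos (mem_insert_self a S)]
  have h2 : ∀ i ∈ I, sg (insert a S) i * v i = sg S i * v i := by
    intro i hi
    have hne : i ≠ a := fun h => ha (h ▸ hi)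
    unfold sg
    simp [mem_insert, hne]
  rw [h1, sum_congr rfl h2]; ring

lemma sum_sq (v : ℕ → ℝ) (I : Finset ℕ) :
    ∑ S ∈ I.powerset, X v I S ^ 2 = 2 ^ I.card * ∑ i ∈ I, v i ^ 2 := by
  induction I using Finset.induction_on with
  | empty => simp [X]
  | insert a I ha ih =>
    rw [sum_powerset_insert ha, card_insert_of_notMem ha, sum_insert ha]
    have h1 : ∑ S ∈ I.powerset, X v (insert a I) S ^ 2 =
        ∑ S ∈ I.powerset, (X v I S - v a) ^ 2 :=
      sum_congr rfl fun S hS => by rw [X_insert_of_not_mem v ha (mem_powerset.1 hS)]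
    have h2 : ∑ S ∈ I.powerset, X v (insert a I) (insert a S) ^ 2 =
        ∑ S ∈ I.powerset, (X v I S + v a) ^ 2 :=
      sum_congr rfl fun S _ => by rw [X_insert_of_mem v ha]
    rw [h1, h2, ← sum_add_distrib]
    have h3 : ∀ S ∈ I.powerset, (X v I S - v a) ^ 2 + (X v I S + v a) ^ 2 =
        2 * X v I S ^ 2 + 2 * v a ^ 2 := fun S _ => by ring
    rw [sum_congr rfl h3, sum_add_distrib, ← mul_sum, ih, sum_const, card_powerset, nsmul_eq_mul]
    push_cast
    ring

lemma sum_four (v : ℕ → ℝ) (I : Finset ℕ) :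
    ∑ S ∈ I.powerset, X v I S ^ 4 ≤ 2 ^ I.card * (3 * (∑ i ∈ I, v i ^ 2) ^ 2) := by
  induction I using Finset.induction_on with
  | empty => simp [X]
  | insert a I ha ih =>
    rw [sum_powerset_insert ha, card_insert_of_notMem ha, sum_insert ha]
    have h1 : ∑ S ∈ I.powerset, X v (insert a I) S ^ 4 =
        ∑ S ∈ I.powerset, (X v I S - v a) ^ 4 :=
      sum_congr rfl fun S hS => by rw [X_insert_of_not_mem v ha (mem_powerset.1 hS)]
    have h2 : ∑ S ∈ I.powerset, X v (insert a I) (insert a S) ^ 4 =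
        ∑ S ∈ I.powerset, (X v I S + v a) ^ 4 :=
      sum_congr rfl fun S _ => by rw [X_insert_of_mem v ha]
    rw [h1, h2, ← sum_add_distrib]
    have h3 : ∀ S ∈ I.powerset, (X v I S - v a) ^ 4 + (X v I S + v a) ^ 4 =
        2 * X v I S ^ 4 + 12 * v a ^ 2 * X v I S ^ 2 + 2 * v a ^ 4 := fun S _ => by ring
    rw [sum_congr rfl h3, sum_add_distrib, sum_add_distrib, ← mul_sum, ← mul_sum, sum_sq, sum_const,
      card_powerset, nsmul_eq_mul]
    push_cast
    have h0 : 0 ≤ (2 : ℝ) ^ I.card * v a ^ 4 := by positivity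
    have e1 : (2 : ℝ) ^ (I.card + 1) * (3 * (v a ^ 2 + ∑ i ∈ I, v i ^ 2) ^ 2) =
        2 * (2 ^ I.card * (3 * (∑ i ∈ I, v i ^ 2) ^ 2)) +
          12 * v a ^ 2 * (2 ^ I.card * ∑ i ∈ I, v i ^ 2) + 6 * (2 ^ I.card * v a ^ 4) := by ring
    have e2 : (2 : ℝ) ^ I.card * (2 * v a ^ 4) = 2 * (2 ^ I.card * v a ^ 4) := by ring
    rw [e1, e2]
    linarith

/-- One block: for every finite set `G` of parameters there is a choice of signs such that at
least a quarter of the sums is not small. -/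
lemma one_block {γ : Type*} (v : γ → ℕ → ℝ) (I : Finset ℕ) (G : Finset γ) (V : ℝ) (hV : 0 < V)
    (hv : ∀ x ∈ G, ∑ i ∈ I, v x i ^ 2 = V) :
    ∃ S ∈ I.powerset, ((G.filter fun x => X (v x) I S ^ 2 < V / 8).card : ℝ) ≤ 3 / 4 * G.card := by
  classical
  have hkey : ∑ S ∈ I.powerset, (G.card : ℝ) / 4 ≤ ∑ S ∈ I.powerset,
      ∑ x ∈ G, (2 / 3 * (X (v x) I S ^ 2 / V) - 1 / 9 * (X (v x) I S ^ 4 / V ^ 2) - 1 / 12) := by
    rw [sum_comm, sum_const, card_powerset, nsmul_eq_mul]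
    have h1 : ∀ x ∈ G, (2 : ℝ) ^ I.card / 4 ≤ ∑ S ∈ I.powerset,
        (2 / 3 * (X (v x) I S ^ 2 / V) - 1 / 9 * (X (v x) I S ^ 4 / V ^ 2) - 1 / 12) := by
      intro x hx
      rw [sum_sub_distrib, sum_sub_distrib, ← mul_sum, ← mul_sum, ← sum_div, ← sum_div, sum_sq,
        sum_const, card_powerset, nsmul_eq_mul, hv x hx]
      have h2 := sum_four (v x) I
      rw [hv x hx] at h2
      have h3 : (∑ S ∈ I.powerset, X (v x) I S ^ 4) / V ^ 2 ≤ 2 ^ I.card * 3 := by
        rw [div_le_iff₀ (by positivity)]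
        linarith
      have h4 : (2 : ℝ) ^ I.card * V / V = 2 ^ I.card := by field_simp
      rw [h4]
      push_cast
      linarith
    have h5 := sum_le_sum h1
    rw [sum_const, nsmul_eq_mul] at h5
    push_cast
    linarith
  obtain ⟨S, hS, hle⟩ := exists_le_of_sum_le (Finset.powerset_nonempty I) hkey
  refine ⟨S, hS, ?_⟩
  have h6 : ∑ x ∈ G, (2 / 3 * (X (v x) I S ^ 2 / V) - 1 / 9 * (X (v x) I S ^ 4 / V ^ 2) - 1 / 12) ≤
      ∑ x ∈ G, (1 - if X (v x) I S ^ 2 < V / 8 then (1 : ℝ) else 0) := by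
    refine sum_le_sum fun x _ => ?_
    set y := X (v x) I S ^ 2 / V with hy
    have hy0 : 0 ≤ y := by positivity
    have e1 : X (v x) I S ^ 4 / V ^ 2 = y ^ 2 := by rw [hy]; ring
    rw [e1]
    split_ifs with h
    · have : y < 1 / 8 := by rw [hy, div_lt_iff₀ hV]; linarith
      nlinarith
    · nlinarith [sq_nonneg (y - 3)]
  have h7 : ∑ x ∈ G, (1 - if X (v x) I S ^ 2 < V / 8 then (1 : ℝ) else 0) =
      G.card - ((G.filter fun x => X (v x) I S ^ 2 < V / 8).card : ℝ) := by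
    rw [sum_sub_distrib, sum_const, nsmul_eq_mul, mul_one, sum_boole]
  rw [h7] at h6
  linarith

end Pool.Agent.TH220.Orl
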