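import Pool.Agent.TH220.OrlA

set_option autoImplicit false

/-!
Blocks, grid, iteration, and the final choice of signs.
-/

namespace Pool.Agent.TH220.Orl

open Finset

/-- block endpoints -/
def Nl (l : ℕ) : ℕ := (8 + l % 8) * 2 ^ (l / 8)

lemma Nl_succ (l : ℕ) : Nl (l + 1) = Nl l + 2 ^ (l / 8) := by
  unfold Nl
  rcases Nat.lt_or_ge (l % 8) 7 with h | h
  · have h1 : (l + 1) % 8 = l % 8 + 1 := by omega
    have h2 : (l + 1) / 8 = l / 8 := by omega
    rw [h1, h2]; ring
  · have h0 : l % 8 = 7 := by omega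
    have h1 : (l + 1) % 8 = 0 := by omega
    have h2 : (l + 1) / 8 = l / 8 + 1 := by omega
    rw [h0, h1, h2, pow_succ]; ring

lemma Nl_pos (l : ℕ) : 0 < Nl l := by unfold Nl; positivity

lemma Nl_le (l : ℕ) : Nl (l + 1) ≤ 16 * 2 ^ (l / 8) := by
  rw [Nl_succ]; unfold Nl
  have : l % 8 ≤ 7 := by omega
  have h2 : (8 + l % 8) * 2 ^ (l / 8) ≤ 15 * 2 ^ (l / 8) := Nat.mul_le_mul_right _ (by omega)
  omega

lemma Nl_mono : StrictMono Nl := by
  refine strictMono_nat_of_lt_succ fun l => ?_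
  rw [Nl_succ]
  have : 0 < 2 ^ (l / 8) := by positivity
  omega

/-- index block -/
def I (l : ℕ) : Finset ℕ := Ico (2 * Nl l) (2 * Nl (l + 1))

/-- the function attached to an index -/
noncomputable def v (x : ℝ) (i : ℕ) : ℝ :=
  (if i % 2 = 0 then Real.cos (((i / 2 : ℕ) : ℝ) * x) else Real.sin (((i / 2 : ℕ) : ℝ) * x)) /
    Real.sqrt ((i / 2 : ℕ) : ℝ)

lemma v_even (x : ℝ) (n : ℕ) : v x (2 * n) = Real.cos (n * x) / Real.sqrt n := by
  unfold v
  have h1 : 2 * n % 2 = 0 := by omega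
  have h2 : 2 * n / 2 = n := by omega
  rw [h1, h2, if_pos rfl]

lemma v_odd (x : ℝ) (n : ℕ) : v x (2 * n + 1) = Real.sin (n * x) / Real.sqrt n := by
  unfold v
  have h1 : (2 * n + 1) % 2 ≠ 0 := by omega
  have h2 : (2 * n + 1) / 2 = n := by omega
  rw [h2, if_neg h1]

lemma sum_pairs (f : ℕ → ℝ) (A B : ℕ) (h : A ≤ B) :
    ∑ i ∈ Ico (2 * A) (2 * B), f i = ∑ n ∈ Ico A B, (f (2 * n) + f (2 * n + 1)) := by
  induction B, h using Nat.le_induction with
  | base => simp
  | succ B hB ih =>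
    rw [Finset.sum_Ico_succ_top hB, ← ih]
    have h1 : 2 * (B + 1) = 2 * B + 1 + 1 := by ring
    rw [h1, Finset.sum_Ico_succ_top (by omega), Finset.sum_Ico_succ_top (by omega)]
    ring

/-- the variance of a block -/
noncomputable def Vl (l : ℕ) : ℝ := ∑ n ∈ Ico (Nl l) (Nl (l + 1)), 1 / (n : ℝ)

lemma sum_v_sq (x : ℝ) (l : ℕ) : ∑ i ∈ I l, v x i ^ 2 = Vl l := by
  unfold I Vl
  rw [sum_pairs _ _ _ (Nl_mono (Nat.lt_succ_self l)).le]
  refine sum_congr rfl fun n hn => ?_
  rw [v_even, v_odd]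
  have hn0 : (0 : ℝ) < n := by
    have := Nl_pos l
    have h2 := (mem_Ico.1 hn).1
    exact_mod_cast lt_of_lt_of_le this h2
  rw [div_pow, div_pow, Real.sq_sqrt hn0.le, ← add_div, Real.cos_sq_add_sin_sq]

lemma Vl_ge (l : ℕ) : 1 / 16 ≤ Vl l := by
  unfold Vl
  have h1 : ∀ n ∈ Ico (Nl l) (Nl (l + 1)), 1 / ((16 : ℝ) * 2 ^ (l / 8)) ≤ 1 / (n : ℝ) := by
    intro n hn
    have h2 := mem_Ico.1 hn
    have h3 := Nl_le l
    have hn0 : (0 : ℝ) < n := by
      have := Nl_pos l
      exact_mod_cast lt_of_lt_of_le this h2.1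
    apply one_div_le_one_div_of_le hn0
    have : n ≤ 16 * 2 ^ (l / 8) := by omega
    exact_mod_cast this
  have h2 := sum_le_sum h1
  rw [sum_const, Nat.card_Ico, Nl_succ, nsmul_eq_mul] at h2
  rw [Nl_succ]
  have h3 : Nl l + 2 ^ (l / 8) - Nl l = 2 ^ (l / 8) := Nat.add_sub_cancel_left _ _
  rw [h3] at h2
  refine le_trans (le_of_eq ?_) h2
  push_cast
  have : (2 : ℝ) ^ (l / 8) ≠ 0 := by positivity
  field_simp

lemma X_congr (w : ℕ → ℝ) (J S T : Finset ℕ) (h : ∀ i ∈ J, (i ∈ S ↔ i ∈ T)) :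
    X w J S = X w J T := by
  unfold X
  refine sum_congr rfl fun i hi => ?_
  unfold sg
  simp only [h i hi]

lemma iterate (M : ℝ) (p m : ℕ) (G : Finset ℕ) :
    ∃ S ⊆ Ico (2 * Nl p) (2 * Nl (p + m)),
      ((G.filter fun k : ℕ => ∀ l ∈ Ico p (p + m), X (v (k / M)) (I l) S ^ 2 < 1 / 128).card : ℝ) ≤
        (3 / 4) ^ m * G.card := by
  classical
  induction m with
  | zero =>
    refine ⟨∅, by simp, ?_⟩
    simp
  | succ m ih =>
    obtain ⟨S, hS, hc⟩ := ih
    set G' := G.filter fun k : ℕ => ∀ l ∈ Ico p (p + m), X (v (k / M)) (I l) S ^ 2 < 1 / 128 with hG'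
    obtain ⟨S', hS', hc'⟩ := one_block (fun k : ℕ => v (k / M)) (I (p + m)) G' (Vl (p + m))
      (by linarith [Vl_ge (p + m)]) (fun k _ => sum_v_sq _ _)
    rw [mem_powerset] at hS'
    have hmono : 2 * Nl p ≤ 2 * Nl (p + m) := Nat.mul_le_mul_left _ (Nl_mono.monotone (by omega))
    have hmono2 : 2 * Nl (p + m) ≤ 2 * Nl (p + (m + 1)) :=
      Nat.mul_le_mul_left _ (Nl_mono.monotone (by omega))
    refine ⟨S ∪ S', ?_, ?_⟩
    · intro i hi
      rcases mem_union.1 hi with h | h
      · have := mem_Ico.1 (hS h)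
        exact mem_Ico.2 ⟨this.1, by omega⟩
      · have h2 := hS' h
        unfold I at h2
        have h3 := mem_Ico.1 h2
        exact mem_Ico.2 ⟨by omega, h3.2⟩
    · have hsub : (G.filter fun k : ℕ => ∀ l ∈ Ico p (p + (m + 1)),
          X (v (k / M)) (I l) (S ∪ S') ^ 2 < 1 / 128) ⊆
          G'.filter fun k : ℕ => X (v (k / M)) (I (p + m)) S' ^ 2 < Vl (p + m) / 8 := by
        intro k hk
        rw [mem_filter] at hk
        rw [mem_filter, hG', mem_filter]
        refine ⟨⟨hk.1, ?_⟩, ?_⟩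
        · intro l hl
          have hl' := mem_Ico.1 hl
          have h1 := hk.2 l (mem_Ico.2 ⟨hl'.1, by omega⟩)
          rwa [X_congr _ _ (S ∪ S') S ?_] at h1
          intro i hi
          rw [mem_union]
          constructor
          · rintro (h | h)
            · exact h
            · exfalso
              have h2 := hS' h
              unfold I at h2 hi
              have h3 := mem_Ico.1 h2
              have h4 := mem_Ico.1 hi
              have h5 : Nl (l + 1) ≤ Nl (p + m) := Nl_mono.monotone (by omega)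
              omega
          · exact fun h => Or.inl h
        · have h1 := hk.2 (p + m) (mem_Ico.2 ⟨by omega, by omega⟩)
          rw [X_congr _ _ (S ∪ S') S' ?_] at h1
          · have := Vl_ge (p + m)
            linarith
          intro i hi
          rw [mem_union]
          constructor
          · rintro (h | h)
            · exfalso
              have h2 := mem_Ico.1 (hS h)
              unfold I at hi
              have h4 := mem_Ico.1 hi
              omega
            · exact h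
          · exact fun h => Or.inr h
      have h1 := card_le_card hsub
      have h2 : ((G.filter fun k : ℕ => ∀ l ∈ Ico p (p + (m + 1)),
          X (v (k / M)) (I l) (S ∪ S') ^ 2 < 1 / 128).card : ℝ) ≤
          ((G'.filter fun k : ℕ => X (v (k / M)) (I (p + m)) S' ^ 2 < Vl (p + m) / 8).card : ℝ) := by
        exact_mod_cast h1
      calc _ ≤ _ := h2
        _ ≤ 3 / 4 * G'.card := hc'
        _ ≤ 3 / 4 * ((3 / 4) ^ m * G.card) := by gcongr
        _ = (3 / 4) ^ (m + 1) * G.card := by ring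

lemma v_lip (x y : ℝ) (i : ℕ) : |v x i - v y i| ≤ Real.sqrt ((i / 2 : ℕ) : ℝ) * |x - y| := by
  unfold v
  set n : ℕ := i / 2
  rcases Nat.eq_zero_or_pos n with h0 | hpos
  · rw [h0]; simp
  have hn : (0 : ℝ) < n := by exact_mod_cast hpos
  have hs : 0 < Real.sqrt n := Real.sqrt_pos.2 hn
  rw [← sub_div, abs_div, abs_of_pos hs, div_le_iff₀ hs]
  have e1 : Real.sqrt n * |x - y| * Real.sqrt n = |n * x - n * y| := by
    rw [← mul_sub, abs_mul, abs_of_pos hn]
    have := Real.mul_self_sqrt hn.le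
    calc Real.sqrt n * |x - y| * Real.sqrt n = (Real.sqrt n * Real.sqrt n) * |x - y| := by ring
      _ = _ := by rw [this]
  rw [e1]
  split_ifs
  · exact Real.abs_cos_sub_cos_le _ _
  · exact Real.abs_sin_sub_sin_le _ _

end Pool.Agent.TH220.Orl
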