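import Pool.Agent.TH220.OrlB

set_option autoImplicit false

namespace Pool.Agent.TH220.Orl

open Finset

lemma X_lip (x y : ℝ) (l : ℕ) (S : Finset ℕ) :
    |X (v x) (I l) S - X (v y) (I l) S| ≤ 8 * 4 ^ (l / 8) * |x - y| := by
  unfold X
  rw [← sum_sub_distrib]
  have h1 : ∀ i ∈ I l, |sg S i * v x i - sg S i * v y i| ≤ 4 * 2 ^ (l / 8) * |x - y| := by
    intro i hi
    rw [← mul_sub, abs_mul]
    have h2 : |sg S i| = 1 := by
      unfold sg; split_ifs <;> simp
    rw [h2, one_mul]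
    refine le_trans (v_lip x y i) ?_
    refine mul_le_mul_of_nonneg_right ?_ (abs_nonneg _)
    rw [Real.sqrt_le_left (by positivity)]
    unfold I at hi
    have h3 := mem_Ico.1 hi
    have h4 := Nl_le l
    have h5 : i / 2 ≤ 16 * 2 ^ (l / 8) := by omega
    have h6 : ((i / 2 : ℕ) : ℝ) ≤ 16 * 2 ^ (l / 8) := by exact_mod_cast h5
    have h7 : (1 : ℝ) ≤ 2 ^ (l / 8) := one_le_pow₀ (by norm_num)
    nlinarith
  refine le_trans (abs_sum_le_sum_abs _ _) (le_trans (sum_le_sum h1) ?_)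
  rw [sum_const, nsmul_eq_mul]
  unfold I
  rw [Nat.card_Ico, Nl_succ]
  have h8 : 2 * (Nl l + 2 ^ (l / 8)) - 2 * Nl l = 2 * 2 ^ (l / 8) := by
    rw [mul_add]; exact Nat.add_sub_cancel_left _ _
  rw [h8]
  push_cast
  have h9 : (4 : ℝ) ^ (l / 8) = 2 ^ (l / 8) * 2 ^ (l / 8) := by
    rw [← mul_pow]; norm_num
  rw [h9]
  apply le_of_eq
  ring

lemma v_periodic (x : ℝ) (k : ℤ) (i : ℕ) : v (x + k * (2 * Real.pi)) i = v x i := by
  unfold v
  set n : ℕ := i / 2
  have e1 : (n : ℝ) * (x + k * (2 * Real.pi)) = n * x + ((n * k : ℤ) : ℝ) * (2 * Real.pi) := by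
    push_cast; ring
  rw [e1, Real.cos_add_int_mul_two_pi, Real.sin_add_int_mul_two_pi]

lemma superblock (q : ℕ) : ∃ S ⊆ Ico (2 * Nl (8 * q)) (2 * Nl (8 * (3 * q + 12))),
    ∀ x : ℝ, ∃ l ∈ Ico (8 * q) (8 * (3 * q + 12)), 1 / 24 ≤ |X (v x) (I l) S| := by
  classical
  set M : ℕ := 256 * 4 ^ (3 * q + 12) with hM
  have hMpos : (0 : ℝ) < M := by
    rw [hM]; push_cast; positivity
  obtain ⟨S, hS, hc⟩ := iterate (M : ℝ) (8 * q) (8 * (2 * q + 12)) (range (7 * M + 1))
  have hend : 8 * q + 8 * (2 * q + 12) = 8 * (3 * q + 12) := by ring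
  rw [hend] at hS hc
  refine ⟨S, hS, ?_⟩
  rw [card_range] at hc
  have hsmall : ((3 : ℝ) / 4) ^ (8 * (2 * q + 12)) * ((7 * M + 1 : ℕ) : ℝ) < 1 := by
    have h1 : ((7 * M + 1 : ℕ) : ℝ) ≤ 8 * (256 * 4 ^ (3 * q + 12)) := by
      have h2 : (1 : ℝ) ≤ M := by
        have : 1 ≤ M := by exact_mod_cast hMpos
        exact_mod_cast this
      have h3 : (M : ℝ) = 256 * 4 ^ (3 * q + 12) := by rw [hM]; push_cast; ring
      push_cast
      linarith
    have h2 : (((3 : ℝ) / 4) ^ 8) ^ (2 * q + 12) ≤ (1 / 8 : ℝ) ^ (2 * q + 12) := by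
      apply pow_le_pow_left₀ (by positivity)
      norm_num
    rw [pow_mul]
    have h3 : (1 / 8 : ℝ) ^ (2 * q + 12) * (8 * (256 * 4 ^ (3 * q + 12))) = 2048 * 4 ^ (3 * q + 12) / 8 ^ (2 * q + 12) := by
      rw [one_div, inv_pow]; field_simp; ring
    have h4 : (4 : ℝ) ^ (3 * q + 12) = 2 ^ (6 * q + 24) := by
      rw [show (4 : ℝ) = 2 ^ 2 by norm_num, ← pow_mul]; congr 1; ring
    have h5 : (8 : ℝ) ^ (2 * q + 12) = 2 ^ (6 * q + 24) * 2 ^ 12 := by
      rw [show (8 : ℝ) = 2 ^ 3 by norm_num, ← pow_mul, ← pow_add]; congr 1; ring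
    calc _ ≤ (1 / 8 : ℝ) ^ (2 * q + 12) * (8 * (256 * 4 ^ (3 * q + 12))) := by
          apply mul_le_mul h2 h1 (by positivity) (by positivity)
      _ = 2048 * 4 ^ (3 * q + 12) / 8 ^ (2 * q + 12) := h3
      _ < 1 := by
          rw [h4, h5, div_lt_one (by positivity)]
          have : (0 : ℝ) < 2 ^ (6 * q + 24) := by positivity
          nlinarith
  have hcard : ((range (7 * M + 1)).filter fun k : ℕ => ∀ l ∈ Ico (8 * q) (8 * (3 * q + 12)),
      X (v (k / M)) (I l) S ^ 2 < 1 / 128).card = 0 := by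
    have h1 := lt_of_le_of_lt hc hsmall
    have h2 : ((range (7 * M + 1)).filter fun k : ℕ => ∀ l ∈ Ico (8 * q) (8 * (3 * q + 12)),
      X (v (k / M)) (I l) S ^ 2 < 1 / 128).card < 1 := by exact_mod_cast h1
    omega
  rw [card_eq_zero, filter_eq_empty_iff] at hcard
  -- the case of `x ∈ [0, 7]`
  have hmain : ∀ x : ℝ, 0 ≤ x → x ≤ 7 → ∃ l ∈ Ico (8 * q) (8 * (3 * q + 12)),
      1 / 24 ≤ |X (v x) (I l) S| := by
    intro x hx0 hx7
    set k : ℕ := ⌊x * M⌋₊ with hk
    have hk1 : (k : ℝ) ≤ x * M := Nat.floor_le (by positivity)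
    have hk2 : x * M < k + 1 := Nat.lt_floor_add_one _
    have hk3 : k ∈ range (7 * M + 1) := by
      rw [mem_range]
      have h1 : (k : ℝ) ≤ 7 * M := le_trans hk1 (mul_le_mul_of_nonneg_right hx7 hMpos.le)
      have h2 : k ≤ 7 * M := by exact_mod_cast h1
      omega
    have h1 := hcard hk3
    push Not at h1
    obtain ⟨l, hl, h2⟩ := h1
    refine ⟨l, hl, ?_⟩
    have h3 : |x - k / M| ≤ 1 / M := by
      rw [abs_le]
      constructor
      · have : (0 : ℝ) ≤ 1 / M := by positivity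
        have h4 : (k : ℝ) / M ≤ x := by rw [div_le_iff₀ hMpos]; exact hk1
        linarith
      · have h4 : x - k / M = (x * M - k) / M := by field_simp
        rw [h4]
        gcongr
        linarith
    have h4 := X_lip x (k / M) l S
    have h5 : 8 * 4 ^ (l / 8) * |x - k / M| ≤ 1 / 32 := by
      have h6 : (4 : ℝ) ^ (l / 8) ≤ 4 ^ (3 * q + 12) := by
        apply pow_le_pow_right₀ (by norm_num)
        have := (mem_Ico.1 hl).2
        omega
      have h7 : (M : ℝ) = 256 * 4 ^ (3 * q + 12) := by rw [hM]; push_cast; ring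
      calc 8 * 4 ^ (l / 8) * |x - k / M| ≤ 8 * 4 ^ (3 * q + 12) * (1 / M) := by gcongr
        _ = 1 / 32 := by
          rw [h7]
          have : (4 : ℝ) ^ (3 * q + 12) ≠ 0 := by positivity
          field_simp
          norm_num
    have h8 : 1 / 12 ≤ |X (v (k / M)) (I l) S| := by
      by_contra hcon
      push Not at hcon
      have h9 : |X (v (k / M)) (I l) S| ^ 2 < (1 / 12) ^ 2 :=
        pow_lt_pow_left₀ hcon (abs_nonneg _) (by norm_num)
      rw [sq_abs] at h9
      linarith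
    have h9 := abs_sub_abs_le_abs_sub (X (v (k / M)) (I l) S) (X (v x) (I l) S)
    rw [abs_sub_comm] at h9
    linarith
  intro x
  set k : ℤ := ⌊x / (2 * Real.pi)⌋ with hk
  have hpi := Real.pi_pos
  have hx0 : 0 ≤ x - k * (2 * Real.pi) := by
    have := Int.floor_le (x / (2 * Real.pi))
    rw [le_div_iff₀ (by positivity)] at this
    linarith
  have hx7 : x - k * (2 * Real.pi) ≤ 7 := by
    have := Int.lt_floor_add_one (x / (2 * Real.pi))
    rw [div_lt_iff₀ (by positivity)] at this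
    have h3 := Real.pi_lt_d2
    rw [← hk, add_mul, one_mul] at this
    linarith
  obtain ⟨l, hl, h⟩ := hmain _ hx0 hx7
  refine ⟨l, hl, ?_⟩
  have hv : v x = v (x - k * (2 * Real.pi)) := by
    funext i
    rw [← v_periodic (x - k * (2 * Real.pi)) k i]
    congr 1
    ring
  rw [hv]
  exact h

/-- end points of the superblocks -/
def qs : ℕ → ℕ
  | 0 => 0
  | k + 1 => 3 * qs k + 12

lemma qs_mono : StrictMono qs := by
  refine strictMono_nat_of_lt_succ fun k => ?_
  show qs k < 3 * qs k + 12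
  omega

/-- the final choice of signs -/
theorem exists_signs : ∃ s : ℕ → ℝ, (∀ i, s i = 1 ∨ s i = -1) ∧
    ∀ x : ℝ, ∀ k : ℕ, ∃ l, k ≤ l ∧ 1 / 24 ≤ |∑ i ∈ I l, s i * v x i| := by
  classical
  choose S hS hx using fun k => superblock (qs k)
  refine ⟨fun i => if ∃ k, i ∈ S k then 1 else -1, ?_, ?_⟩
  · intro i
    by_cases h : ∃ k, i ∈ S k
    · left; simp only [if_pos h]
    · right; simp only [if_neg h]
  · intro x k
    obtain ⟨l, hl, h⟩ := hx k x
    have hl' := mem_Ico.1 hl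
    refine ⟨l, ?_, ?_⟩
    · have := qs_mono.id_le k
      simp only [id] at this
      omega
    · have e : ∑ i ∈ I l, (if ∃ k, i ∈ S k then (1 : ℝ) else -1) * v x i = X (v x) (I l) (S k) := by
        unfold X
        refine sum_congr rfl fun i hi => ?_
        have hiff : (∃ k, i ∈ S k) ↔ i ∈ S k := by
          constructor
          · rintro ⟨j, hj⟩
            by_contra hk
            have hjk : j ≠ k := fun h => hk (h ▸ hj)
            have h1 := mem_Ico.1 (hS j hj)
            have h2 : 2 * Nl l ≤ i ∧ i < 2 * Nl (l + 1) := mem_Ico.1 hi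
            have h3 : ∀ k, 3 * qs k + 12 = qs (k + 1) := fun _ => rfl
            rw [h3] at h1 hl'
            rcases lt_or_gt_of_ne hjk with h | h
            · have h4 : qs (j + 1) ≤ qs k := qs_mono.monotone h
              have h5 : Nl (8 * qs (j + 1)) ≤ Nl l := Nl_mono.monotone (by omega)
              omega
            · have h4 : qs (k + 1) ≤ qs j := qs_mono.monotone h
              have h5 : Nl (l + 1) ≤ Nl (8 * qs j) := Nl_mono.monotone (by omega)
              omega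
          · exact fun h => ⟨k, h⟩
        unfold sg
        simp only [hiff]
      rw [e]
      exact h

end Pool.Agent.TH220.Orl
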