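import Mathlib
import Pool.Agent.TH462.PW.IntFlow
import Pool.Agent.TH462.PW.D4.All

set_option autoImplicit false

/-!
# Tangential 2-blocks over GF(2) and pathwidth (MP_aa6b05_co)

The cographic matroid of a graph of pathwidth at most four is never a 2-block over GF(2).  In
particular it is not a tangential 2-block.

The graph theoretic input is the theorem of TH462.PW (bridgeless multigraphs of pathwidth at most
four have a nowhere-zero flow with values 1, 2, 3), which gives two edge sets with all degrees
even whose union is the set of all edges.  The sums over these two edge sets vanish on the cut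
space, so they define linear functionals on the representing space of the cographic matroid.
-/

namespace Pool.Agent.Results.MP_aa6b05_co.PathwidthFour

open Pool.Agent.TH462.PW

variable {V E : Type}

/-- The incidence vector of the vertex `v` over GF(2): the coordinate of an edge is the number of
its ends which are `v`, modulo 2 (so loops give 0). -/
def star [DecidableEq V] (src dst : E → V) (v : V) : E → ZMod 2 :=
  fun e => (if src e = v then 1 else 0) + (if dst e = v then 1 else 0)

/-- `X 0, X 1, ...` is a path decomposition of width at most `w`: every edge has both ends in one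
of the sets, every vertex lies in an interval of the sets, and the sets have at most `w + 1`
elements. -/
structure IsPathDecomposition [DecidableEq V] (src dst : E → V) (w : ℕ) (X : ℕ → Finset V) :
    Prop where
  edge : ∀ e, ∃ i, src e ∈ X i ∧ dst e ∈ X i
  interval : ∀ i j k, i ≤ j → j ≤ k → X i ∩ X k ⊆ X j
  width : ∀ i, (X i).card ≤ w + 1

/-- The simple matroid represented by the set `S` of vectors over GF(2) is a 2-block: `S` has no
zero vector and no linear map to the plane over GF(2) is nonzero on all of `S`. -/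
def IsTwoBlock {n : ℕ} (S : Set (Fin n → ZMod 2)) : Prop :=
  (0 : Fin n → ZMod 2) ∉ S ∧
    ¬ ∃ L : (Fin n → ZMod 2) →ₗ[ZMod 2] (Fin 2 → ZMod 2), ∀ s ∈ S, L s ≠ 0

/-- `S` represents a tangential 2-block: it is a 2-block, and no proper minor without loops
(contract `C`, keep `T`) is a 2-block. This is the hypothesis of the frozen statement S10691. -/
def IsTangential {n : ℕ} (S : Set (Fin n → ZMod 2)) : Prop :=
  IsTwoBlock S ∧
    ∀ C T : Set (Fin n → ZMod 2), C ⊆ S → T ⊆ S → T ≠ S →
      (∀ t ∈ T, t ∉ Submodule.span (ZMod 2) C) →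
      ∃ L : (Fin n → ZMod 2) →ₗ[ZMod 2] (Fin 2 → ZMod 2),
        (∀ c ∈ C, L c = 0) ∧ ∀ t ∈ T, L t ≠ 0

/-- The vectors `vec e` represent the cographic matroid of the graph: the linear relations between
them are exactly the elements of the cut space, which is spanned by the incidence vectors. -/
def RepresentsCographic [DecidableEq V] [Fintype E] (src dst : E → V) {n : ℕ}
    (vec : E → Fin n → ZMod 2) : Prop :=
  ∀ x : E → ZMod 2, ∑ e, x e • vec e = 0 ↔
    x ∈ Submodule.span (ZMod 2) (Set.range (star src dst))

lemma two_even_cover [Fintype V] [DecidableEq V] [Fintype E] [DecidableEq E] (src dst : E → V)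
    (X : ℕ → Finset V) (hX : IsPathDecomposition src dst 4 X)
    (hb : ∀ Y : Finset V,
      (Finset.univ.filter (fun e => ¬ (src e ∈ Y ↔ dst e ∈ Y))).card ≠ 1) :
    ∃ C : Fin 2 → Finset E, (∀ e, e ∈ C 0 ∨ e ∈ C 1) ∧
      ∀ i v, ∑ e ∈ C i, star src dst v e = 0 := by
  classical
  obtain ⟨F, hF, hF0⟩ := int_flow src dst
    (D4.flow src dst hb ⟨X, hX.edge, hX.interval, hX.width⟩)
  obtain ⟨F1, F2, h1, h2, h12⟩ := two_even src dst F hF hF0
  have key : ∀ G : E → ℤ, (∀ v, ∑ e, G e * icz src dst e v = 0) →
      ∀ v, ∑ e ∈ Finset.univ.filter (fun e => Odd (G e)), star src dst v e = 0 := by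
    intro G hG v
    have h := congrArg (fun z : ℤ => (z : ZMod 2)) (hG v)
    simp only [Int.cast_sum, Int.cast_mul, Int.cast_zero] at h
    rw [← h, Finset.sum_filter]
    refine Finset.sum_congr rfl fun e _ => ?_
    have h3 : ((icz src dst e v : ℤ) : ZMod 2) = star src dst v e := by
      unfold icz star
      by_cases a : src e = v <;> by_cases b : dst e = v <;> simp [a, b] <;> decide
    rw [h3]
    by_cases ho : Odd (G e)
    · rw [if_pos ho]
      have : ((G e : ℤ) : ZMod 2) = 1 := by
        obtain ⟨k, hk⟩ := ho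
        rw [hk]
        push_cast
        have : (2 : ZMod 2) = 0 := by decide
        rw [this]; ring
      rw [this, one_mul]
    · rw [if_neg ho]
      have : ((G e : ℤ) : ZMod 2) = 0 := by
        obtain ⟨k, hk⟩ := Int.not_odd_iff_even.mp ho
        rw [hk]
        push_cast
        exact CharTwo.add_self_eq_zero _
      rw [this, zero_mul]
  refine ⟨![Finset.univ.filter (fun e => Odd (F1 e)), Finset.univ.filter (fun e => Odd (F2 e))],
    ?_, ?_⟩
  · intro e
    simpa using h12 e
  · intro i v
    fin_cases i
    · exact key F1 h1 v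
    · exact key F2 h2 v

lemma no_bridge [Fintype V] [DecidableEq V] [Fintype E] [DecidableEq E] (src dst : E → V)
    {n : ℕ} (vec : E → Fin n → ZMod 2) (hv : RepresentsCographic src dst vec)
    (h0 : ∀ e, vec e ≠ 0) (Y : Finset V) :
    (Finset.univ.filter (fun e => ¬ (src e ∈ Y ↔ dst e ∈ Y))).card ≠ 1 := by
  classical
  intro hc
  obtain ⟨a, ha⟩ := Finset.card_eq_one.mp hc
  have hsum : ∑ v ∈ Y, star src dst v = Pi.single a (1 : ZMod 2) := by
    funext e
    rw [Finset.sum_apply]
    have h1 : ∑ v ∈ Y, star src dst v e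
        = (if src e ∈ Y then 1 else 0) + (if dst e ∈ Y then 1 else 0) := by
      unfold star
      rw [Finset.sum_add_distrib]
      simp
    rw [h1]
    have h2 : (¬ (src e ∈ Y ↔ dst e ∈ Y)) ↔ e = a := by
      have : e ∈ Finset.univ.filter (fun e => ¬ (src e ∈ Y ↔ dst e ∈ Y)) ↔ e = a := by
        rw [ha, Finset.mem_singleton]
      simpa using this
    by_cases h3 : e = a
    · subst h3
      have h4 := h2.mpr rfl
      rw [Pi.single_eq_same]
      by_cases p : src e ∈ Y <;> by_cases q : dst e ∈ Y <;> simp_all
    · rw [Pi.single_eq_of_ne h3]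
      have h4 : (src e ∈ Y ↔ dst e ∈ Y) := by
        by_contra h5
        exact h3 (h2.mp h5)
      by_cases p : src e ∈ Y
      · have q := h4.mp p
        simp only [p, q, if_true]
        decide
      · have q : dst e ∉ Y := fun q => p (h4.mpr q)
        simp [p, q]
  have hmem : Pi.single a (1 : ZMod 2) ∈
      Submodule.span (ZMod 2) (Set.range (star src dst)) := by
    rw [← hsum]
    exact Submodule.sum_mem _ fun v _ => Submodule.subset_span ⟨v, rfl⟩
  have h5 := (hv _).mpr hmem
  apply h0 a
  rw [Finset.sum_eq_single a] at h5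
  · simpa using h5
  · intro b _ hb
    rw [Pi.single_eq_of_ne hb, zero_smul]
  · intro h; exact absurd (Finset.mem_univ a) h

/-- If the cographic matroid of a graph of pathwidth at most 4 has no loops, its critical exponent
over GF(2) is at most 2; so it is not a 2-block and not a tangential 2-block. -/
theorem result :
    (∀ (V E : Type) [Fintype V] [DecidableEq V] [Fintype E] [DecidableEq E] (src dst : E → V)
      (X : ℕ → Finset V), IsPathDecomposition src dst 4 X →
      ∀ (n : ℕ) (vec : E → Fin n → ZMod 2), RepresentsCographic src dst vec →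
      (∀ e, vec e ≠ 0) →
      ∃ L : (Fin n → ZMod 2) →ₗ[ZMod 2] (Fin 2 → ZMod 2), ∀ e, L (vec e) ≠ 0) ∧
    ∀ (n : ℕ) (S : Set (Fin n → ZMod 2)), IsTangential S →
      ∀ (V E : Type) [Fintype V] [DecidableEq V] [Fintype E] [DecidableEq E] (src dst : E → V)
        (vec : E → Fin n → ZMod 2), RepresentsCographic src dst vec → Set.range vec = S →
        ∀ X : ℕ → Finset V, ¬ IsPathDecomposition src dst 4 X := by
  classical
  have main : ∀ (V E : Type) [Fintype V] [DecidableEq V] [Fintype E] [DecidableEq E]
      (src dst : E → V)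
      (X : ℕ → Finset V), IsPathDecomposition src dst 4 X →
      ∀ (n : ℕ) (vec : E → Fin n → ZMod 2), RepresentsCographic src dst vec →
      (∀ e, vec e ≠ 0) →
      ∃ L : (Fin n → ZMod 2) →ₗ[ZMod 2] (Fin 2 → ZMod 2), ∀ e, L (vec e) ≠ 0 := by
    intro V E _ _ _ _ src dst X hX n vec hv h0
    obtain ⟨C, hC, hC0⟩ := two_even_cover src dst X hX (no_bridge src dst vec hv h0)
    let ψ : (E → ZMod 2) →ₗ[ZMod 2] (Fin n → ZMod 2) := Fintype.linearCombination (ZMod 2) vec
    have hψ : ∀ x, ψ x = ∑ e, x e • vec e := fun x => Fintype.linearCombination_apply _ _ _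
    let f : Fin 2 → ((E → ZMod 2) →ₗ[ZMod 2] ZMod 2) :=
      fun i => ∑ e ∈ C i, LinearMap.proj e
    have hf : ∀ i x, f i x = ∑ e ∈ C i, x e := by
      intro i x
      simp [f, LinearMap.sum_apply]
    have hker : ∀ i, LinearMap.ker ψ ≤ LinearMap.ker (f i) := by
      intro i x hx
      rw [LinearMap.mem_ker, hψ] at hx
      have hx2 := (hv x).mp hx
      refine Submodule.span_le.mpr ?_ hx2
      rintro _ ⟨v, rfl⟩
      simp only [SetLike.mem_coe, LinearMap.mem_ker]
      rw [hf]
      exact hC0 i v
    have hG : ∀ i, ∃ G : (Fin n → ZMod 2) →ₗ[ZMod 2] ZMod 2, ∀ x, G (ψ x) = f i x := by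
      intro i
      have h1 : f i ∈ (LinearMap.ker ψ).dualAnnihilator := by
        rw [Submodule.mem_dualAnnihilator]
        intro w hw
        exact hker i hw
      rw [← LinearMap.range_dualMap_eq_dualAnnihilator_ker] at h1
      obtain ⟨G, hG⟩ := h1
      exact ⟨G, fun x => by rw [← hG]; rfl⟩
    choose G hG using hG
    refine ⟨LinearMap.pi G, fun e he => ?_⟩
    have h2 : ψ (Pi.single e 1) = vec e := by
      rw [hψ, Finset.sum_eq_single e]
      · simp
      · intro b _ hb
        rw [Pi.single_eq_of_ne hb, zero_smul]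
      · intro h; exact absurd (Finset.mem_univ e) h
    have h3 : ∀ i, f i (Pi.single e 1) = 0 := by
      intro i
      rw [← hG, h2]
      exact congrFun he i
    have h4 : ∀ i, e ∉ C i := by
      intro i hi
      have h5 := h3 i
      rw [hf, Finset.sum_eq_single e] at h5
      · rw [Pi.single_eq_same] at h5
        exact one_ne_zero h5
      · intro b _ hb
        exact Pi.single_eq_of_ne hb _
      · intro h; exact absurd hi h
    rcases hC e with h | h
    · exact h4 0 h
    · exact h4 1 h
  refine ⟨main, ?_⟩
  intro n S hS V E _ _ _ _ src dst vec hv hr X hX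
  obtain ⟨⟨hz, hL⟩, -⟩ := hS
  have h0 : ∀ e, vec e ≠ 0 := by
    intro e he
    apply hz
    rw [← hr, ← he]
    exact ⟨e, rfl⟩
  obtain ⟨L, hL'⟩ := main V E src dst X hX n vec hv h0
  apply hL
  refine ⟨L, ?_⟩
  intro s hs
  rw [← hr] at hs
  obtain ⟨e, rfl⟩ := hs
  exact hL' e

end Pool.Agent.Results.MP_aa6b05_co.PathwidthFour
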